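import Pool.Agent.Run7.h402.FR.Fin2
import Pool.Agent.Y745.LD.G1M
import Pool.Agent.Y363.LD.PW
import Pool.Agent.Y447.LD.VMR
import Pool.Agent.Y931.LD.VM1
import Pool.Agent.Y665.LD.VMS
import Pool.Agent.Y949.LD.G2M
import Pool.Agent.Y179.LD.Z1
import Pool.Agent.Y363.LD.ZL2
import Pool.Agent.Y674.LD.Z3
import Pool.Agent.Y448.LD.LOW
import Pool.Agent.Y840.SW.MVB
import Pool.Agent.Y568.UP.STRIP
import Pool.Agent.Y732.UP.SUBA
import Pool.Agent.Y496.UP.OUT

set_option autoImplicit false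

/-!
Freezing along sequences (MP_f9aece_nt), part 17: the inputs from the library.
-/

namespace Run7.h402.FR

open Filter Topology
open Pool.Agent.Y745.LD Pool.Agent.Y745.SW Pool.Agent.Y745.UP

theorem a_MVB : P_MVB := Pool.Agent.Y840.SW.t_MVB

theorem a_VM1 : P_VM1 := Pool.Agent.Y931.LD.t_VM1 a_MVB

theorem a_VMR : P_VMR := Pool.Agent.Y447.LD.t_VMR a_MVB

theorem a_VMS : P_VMS := Pool.Agent.Y665.LD.t_VMS a_MVB a_VM1

theorem a_VMT : P_VMT := Pool.Agent.Y665.LD.t_VMT a_MVB a_VM1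

theorem a_G2M : P_G2M := Pool.Agent.Y949.LD.t_G2M a_MVB

theorem a_ZL2 : P_ZL2 := Pool.Agent.Y363.LD.t_ZL2 a_MVB a_VM1 a_VMR a_VMS Pool.Agent.Y179.LD.t_Z1

theorem a_LOW : P_LOW := Pool.Agent.Y448.LD.t_LOW a_VM1 a_VMT Pool.Agent.Y363.LD.t_PW a_G2M t_G1M a_ZL2
  Pool.Agent.Y674.LD.t_Z3

theorem a_STRIP : P_STRIP := Pool.Agent.Y568.UP.t_STRIP Pool.Agent.Y732.UP.t_SUBA Pool.Agent.Y496.UP.t_OUT

/-- the powers are admissible -/
theorem adm_pow {γ : ℝ} (hγ : 0 < γ) : Adm γ (fun n : ℕ => (n : ℝ) ^ γ) := by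
  refine ⟨?_, ?_, ?_⟩
  · filter_upwards [eventually_ge_atTop 1] with n hn
    have : (0 : ℝ) < n := by exact_mod_cast hn
    positivity
  · refine Tendsto.congr' ?_ tendsto_const_nhds
    filter_upwards [eventually_ge_atTop 2] with n hn
    have hn1 : (1 : ℝ) < n := by exact_mod_cast hn
    have hl : 0 < Real.log n := Real.log_pos hn1
    rw [Real.log_rpow (by linarith), mul_div_cancel_right₀ _ hl.ne']
  · obtain ⟨γ', hγ'⟩ : ∃ γ' : ℝ, γ' = min 1 γ := ⟨_, rfl⟩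
    have hγ'0 : 0 < γ' := by rw [hγ']; exact lt_min one_pos hγ
    refine ⟨2, ?_⟩
    filter_upwards [eventually_ge_atTop 2, (tendsto_natCast_atTop_atTop (R := ℝ)).eventually_ge_atTop (1 / γ')] with
      n hn2 hnγ m hmn
    have hn0 : (0 : ℝ) < n := by exact_mod_cast (by omega : 0 < n)
    have hn1 : (1 : ℝ) ≤ n := by exact_mod_cast (by omega : 1 ≤ n)
    have hmn' : (m : ℝ) ≤ n - 1 := by
      have : (m : ℝ) + 1 ≤ n := by exact_mod_cast hmn
      linarith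
    have h1 : (m : ℝ) / n ≤ 1 - 1 / n := by
      rw [div_le_iff₀ hn0, sub_mul, one_div_mul_cancel hn0.ne']
      linarith
    have h2 : (m : ℝ) ^ γ = (n : ℝ) ^ γ * ((m : ℝ) / n) ^ γ := by
      rw [← Real.mul_rpow hn0.le (by positivity)]
      congr 1
      field_simp
    have h3 : ((m : ℝ) / n) ^ γ ≤ 1 - γ' / n := by
      have h4 : 0 ≤ (m : ℝ) / n := by positivity
      have h5 : (m : ℝ) / n ≤ 1 := by
        have : 0 ≤ 1 / (n : ℝ) := by positivity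
        linarith
      rcases le_total γ 1 with hg | hg
      · have h6 : γ' = γ := by rw [hγ']; exact min_eq_right hg
        rw [h6]
        calc ((m : ℝ) / n) ^ γ ≤ (1 - 1 / n) ^ γ := Real.rpow_le_rpow h4 h1 hγ.le
          _ = (1 + (-(1 / (n : ℝ)))) ^ γ := by rw [sub_eq_add_neg]
          _ ≤ 1 + γ * (-(1 / (n : ℝ))) := by
              refine rpow_one_add_le_one_add_mul_self ?_ hγ.le hg
              have : 1 / (n : ℝ) ≤ 1 := by rw [div_le_one hn0]; exact hn1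
              linarith
          _ = 1 - γ / n := by ring
      · have h6 : γ' = 1 := by rw [hγ']; exact min_eq_left hg
        rw [h6]
        calc ((m : ℝ) / n) ^ γ ≤ ((m : ℝ) / n) ^ (1 : ℝ) := Real.rpow_le_rpow_of_exponent_ge' h4 h5 (by norm_num) hg
          _ = (m : ℝ) / n := Real.rpow_one _
          _ ≤ _ := h1
    have h4 : (1 : ℝ) ≤ (n : ℝ) ^ γ := Real.one_le_rpow hn1 hγ.le
    have h6 : 0 < γ' / n := by positivity
    have h7 : γ' / n ≤ 1 - ((m : ℝ) / n) ^ γ := by linarith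
    show (n : ℝ) ^ (-(2 : ℝ)) ≤ |(n : ℝ) ^ γ - (m : ℝ) ^ γ|
    rw [h2]
    have h8 : (n : ℝ) ^ γ - (n : ℝ) ^ γ * ((m : ℝ) / n) ^ γ = (n : ℝ) ^ γ * (1 - ((m : ℝ) / n) ^ γ) := by ring
    rw [h8, abs_of_nonneg (mul_nonneg (by linarith) (by linarith))]
    have h9 : (n : ℝ) ^ (-(2 : ℝ)) ≤ γ' / n := by
      rw [Real.rpow_neg hn0.le, Real.rpow_two, ← one_div, div_le_div_iff₀ (by positivity) hn0]
      rw [div_le_iff₀ hγ'0] at hnγ
      nlinarith
    calc (n : ℝ) ^ (-(2 : ℝ)) ≤ γ' / n := h9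
      _ = 1 * (γ' / n) := by ring
      _ ≤ _ := mul_le_mul h4 h7 h6.le (by linarith)

end Run7.h402.FR
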