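import Pool.Agent.Run7.h402.FR.Dec
import Pool.Agent.Y931.LD.VM1

set_option autoImplicit false

/-!
Freezing along sequences (MP_f9aece_nt), part 3: the weights `V` at two points.
-/

namespace Run7.h402.FR

open MeasureTheory intervalIntegral Set Filter Topology
open Pool.Agent.Y745.LD Pool.Agent.Y931.LD

noncomputable section

/-- the coefficients of the Dirichlet polynomial for `exp (κ P)` -/
def ac (κ c A T : ℝ) (n : ℕ) : ℝ := cf (yc c T) (KA A T) (fun m => κ ^ m / (m.factorial : ℝ)) n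

/-- its length -/
def XX (c A T : ℝ) : ℕ := ⌊yc c T⌋₊ ^ (KA A T)

/-- the sum of the squares of its coefficients -/
def Dg (κ c A T : ℝ) : ℝ := ∑ n ∈ Finset.Icc 1 (XX c A T), ac κ c A T n ^ 2

lemma Qk_DPol {κ c A T : ℝ} (hT : 0 ≤ Real.log T) (t : ℝ) :
    Qk κ c A T t = DPol (ac κ c A T) (XX c A T) t := by
  rw [Qk_eq, poly_DP (yc_ge hT) (KA A T) (XX c A T) (fun m => κ ^ m / (m.factorial : ℝ)) le_rfl t]
  rfl

lemma V_DPol {κ c A T : ℝ} (hT : 0 ≤ Real.log T) (t : ℝ) :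
    V κ c A T t = ‖DPol (ac κ c A T) (XX c A T) t‖ ^ 2 := by
  unfold V
  rw [Qk_DPol hT]

lemma Dg_eq {κ c A T : ℝ} (hT : 0 ≤ Real.log T) : Dg κ c A T =
    ∑ m ∈ Finset.range (KA A T + 1), (κ ^ m / (m.factorial : ℝ)) ^ 2 * Pool.Agent.Y655.SW.SS (yc c T) m :=
  sum_cf_sq (yc_ge hT) (KA A T) (XX c A T) (fun m => κ ^ m / (m.factorial : ℝ)) le_rfl

lemma one_le_Dg {κ c A T : ℝ} (hT : 0 ≤ Real.log T) : 1 ≤ Dg κ c A T := by
  rw [Dg_eq hT]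
  have h := Finset.single_le_sum (f := fun m => (κ ^ m / (m.factorial : ℝ)) ^ 2 * Pool.Agent.Y655.SW.SS (yc c T) m)
    (s := Finset.range (KA A T + 1)) (fun m _ => mul_nonneg (sq_nonneg _) (Pool.Agent.Y655.SW.SS_nonneg _ _))
    (Finset.mem_range.2 (Nat.succ_pos _) : 0 ∈ Finset.range (KA A T + 1))
  simpa [SS_zero] using h

lemma sum_abs_sq (a : ℕ → ℝ) (X : ℕ) :
    (∑ n ∈ Finset.Icc 1 X, |a n|) ^ 2 ≤ X * ∑ n ∈ Finset.Icc 1 X, a n ^ 2 := by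
  have h := sq_sum_le_card_mul_sum_sq (s := Finset.Icc 1 X) (f := fun n => |a n|)
  simpa using h

lemma XX_le (c A δ : ℝ) (hc : 0 < c) (hc1 : c < 1) (hA : 0 ≤ A) (hδ : 0 < δ) :
    ∀ᶠ T : ℝ in atTop, ((XX c A T : ℕ) : ℝ) ≤ T ^ δ := by
  filter_upwards [size c A 0 δ hc hc1 hA le_rfl hδ, eventually_gt_atTop (1 : ℝ),
    LL_tendsto.eventually_ge_atTop 0, Real.tendsto_log_atTop.eventually_ge_atTop 0] with T h1 h2 h3 h4
  have hT0 : 0 < T := by linarith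
  unfold XX
  push_cast
  have hy1 : 1 ≤ yc c T := yc_ge h4
  calc (⌊yc c T⌋₊ : ℝ) ^ (KA A T) ≤ (yc c T) ^ (KA A T) :=
        pow_le_pow_left₀ (Nat.cast_nonneg _) (Nat.floor_le (by linarith)) _
    _ = Real.exp ((KA A T : ℝ) * Real.log T ^ c) := by
        unfold yc
        rw [← Real.exp_nat_mul]
    _ ≤ Real.exp (δ * Real.log T) := by
        refine Real.exp_le_exp.2 (le_trans ?_ h1)
        have h5 := KA_le (mul_nonneg hA h3)
        have h6 : 0 ≤ Real.log T ^ c := Real.rpow_nonneg h4 c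
        rw [zero_add]
        exact mul_le_mul_of_nonneg_right h5 h6
    _ = T ^ δ := by
        rw [Real.rpow_def_of_pos hT0, mul_comm]

/-- the mean of the weight over a cell -/
lemma cell1 (κ c A : ℝ) (hc : 0 < c) (hc1 : c < 1) (hA : 0 ≤ A) :
    ∀ᶠ T : ℝ in atTop, ∀ p u v : ℝ, 0 < p → u ≤ v → T ≤ Real.exp (p * u) →
      |(∫ α in u..v, V κ c A T (Real.exp (p * α))) - (v - u) * Dg κ c A T| ≤
        Dg κ c A T * (T ^ (-(1 / 2) : ℝ) / p) := by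
  filter_upwards [XX_le c A (1 / 8) hc hc1 hA (by norm_num), eventually_gt_atTop (1 : ℝ),
    Real.tendsto_log_atTop.eventually_ge_atTop 0,
    (tendsto_rpow_atTop (show (0 : ℝ) < 1 / 4 by norm_num)).eventually_ge_atTop 2] with T h1 h2 h3 h4 p u v hp huv hT
  have hT0 : 0 < T := by linarith
  simp only [V_DPol h3]
  have hD0 : 0 ≤ Dg κ c A T := by linarith [one_le_Dg (κ := κ) (c := c) (A := A) h3]
  refine (dec1 (ac κ c A T) (XX c A T) hp huv).trans ?_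
  have h5 := sum_abs_sq (ac κ c A T) (XX c A T)
  have h6 : Real.exp (-(p * u)) ≤ T⁻¹ := by
    rw [Real.exp_neg]
    exact inv_anti₀ hT0 hT
  have hX0 : (0 : ℝ) ≤ XX c A T := Nat.cast_nonneg _
  have e1 : T⁻¹ = T ^ (-1 : ℝ) := by rw [Real.rpow_neg_one]
  have hX2 : (XX c A T : ℝ) * XX c A T ≤ T ^ (1 / 4 : ℝ) := by
    calc (XX c A T : ℝ) * XX c A T ≤ T ^ (1 / 8 : ℝ) * T ^ (1 / 8 : ℝ) := mul_le_mul h1 h1 hX0 (by positivity)
      _ = T ^ (1 / 4 : ℝ) := by rw [← Real.rpow_add hT0]; norm_num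
  have h7 : 2 * ((XX c A T : ℝ) * XX c A T) * Real.exp (-(p * u)) ≤ T ^ (-(1 / 2) : ℝ) := by
    calc 2 * ((XX c A T : ℝ) * XX c A T) * Real.exp (-(p * u))
        ≤ T ^ (1 / 4 : ℝ) * T ^ (1 / 4 : ℝ) * T ^ (-1 : ℝ) := by
          rw [← e1]
          gcongr
      _ = T ^ (-(1 / 2) : ℝ) := by rw [← Real.rpow_add hT0, ← Real.rpow_add hT0]; norm_num
  calc (∑ n ∈ Finset.Icc 1 (XX c A T), |ac κ c A T n|) ^ 2 * (2 * (XX c A T) * Real.exp (-(p * u)) / p)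
      ≤ ((XX c A T) * Dg κ c A T) * (2 * (XX c A T) * Real.exp (-(p * u)) / p) := by
        refine mul_le_mul_of_nonneg_right h5 (by positivity)
    _ = Dg κ c A T * ((2 * ((XX c A T : ℝ) * XX c A T) * Real.exp (-(p * u))) / p) := by ring
    _ ≤ Dg κ c A T * (T ^ (-(1 / 2) : ℝ) / p) := by
        refine mul_le_mul_of_nonneg_left ?_ hD0
        exact div_le_div_of_nonneg_right h7 hp.le

/-- two weights over a cell -/
lemma cell2 (κ c A : ℝ) (hc : 0 < c) (hc1 : c < 1) (hA : 0 ≤ A) :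
    ∀ᶠ T : ℝ in atTop, ∀ T2 p q u v M : ℝ, T ≤ 2 * T2 → 0 < p → p < q → u ≤ v →
      T ≤ Real.exp (p * u) → Real.exp (p * v) ≤ 2 * Real.exp (p * u) → T2 ≤ Real.exp (q * u) →
      0 < M → 1 / p ≤ M → 1 ≤ M ^ 2 * (q * (q - p)) →
      |(∫ α in u..v, V κ c A T (Real.exp (p * α)) * V κ c A T2 (Real.exp (q * α))) -
        (v - u) * Dg κ c A T * Dg κ c A T2| ≤
        Dg κ c A T * Dg κ c A T2 * (M * T ^ (-(1 / 8) : ℝ)) := by
  obtain ⟨T0, hT0⟩ := eventually_atTop.1 (XX_le c A (1 / 16) hc hc1 hA (by norm_num))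
  filter_upwards [eventually_ge_atTop (2 * T0), eventually_ge_atTop T0, eventually_ge_atTop (2 : ℝ),
    (tendsto_rpow_atTop (show (0 : ℝ) < 3 / 16 by norm_num)).eventually_ge_atTop 128,
    (tendsto_rpow_atTop (show (0 : ℝ) < 3 / 4 by norm_num)).eventually_ge_atTop 4] with
    T g1 g2 g3 g4 g4' T2 p q u v M h1 hp hpq huv h3 h4 h5 hM hM1 hM2
  have hTp : 0 < T := by linarith
  have hT2 : 1 ≤ T2 := by linarith
  have hT20 : 0 < T2 := by linarith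
  have hl1 : 0 ≤ Real.log T := Real.log_nonneg (by linarith)
  have hl2 : 0 ≤ Real.log T2 := Real.log_nonneg hT2
  have hX1 : ((XX c A T : ℕ) : ℝ) ≤ T ^ (1 / 16 : ℝ) := hT0 T g2
  have hX2 : ((XX c A T2 : ℕ) : ℝ) ≤ T2 ^ (1 / 16 : ℝ) := hT0 T2 (by linarith)
  simp only [V_DPol hl1, V_DPol hl2]
  have hD1 : 0 ≤ Dg κ c A T := by linarith [one_le_Dg (κ := κ) (c := c) (A := A) hl1]
  have hD2 : 0 ≤ Dg κ c A T2 := by linarith [one_le_Dg (κ := κ) (c := c) (A := A) hl2]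
  have hX10 : (0 : ℝ) ≤ XX c A T := Nat.cast_nonneg _
  have hX20 : (0 : ℝ) ≤ XX c A T2 := Nat.cast_nonneg _
  have e1 : T⁻¹ = T ^ (-1 : ℝ) := by rw [Real.rpow_neg_one]
  have hT1 : (1 : ℝ) ≤ T := by linarith
  obtain ⟨B1, hB1⟩ : ∃ B1 : ℝ, B1 = 2 * (XX c A T : ℝ) * Real.exp (-(p * u)) / p := ⟨_, rfl⟩
  obtain ⟨B2, hB2⟩ : ∃ B2 : ℝ, B2 = 16 * M * T2 ^ (-(7 / 16) : ℝ) := ⟨_, rfl⟩
  have hB10 : 0 ≤ B1 := by rw [hB1]; positivity
  have hB20 : 0 ≤ B2 := by rw [hB2]; positivity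
  -- the first oscillatory integral
  have hT1b : (XX c A T : ℝ) * B1 ≤ 1 / 2 * (M * T ^ (-(1 / 8) : ℝ)) := by
    have h6 : Real.exp (-(p * u)) ≤ T ^ (-1 : ℝ) := by
      rw [Real.exp_neg, ← e1]
      exact inv_anti₀ hTp h3
    have h8 : (XX c A T : ℝ) * (2 * (XX c A T : ℝ) * Real.exp (-(p * u))) ≤ 1 / 2 * T ^ (-(1 / 8) : ℝ) := by
      calc (XX c A T : ℝ) * (2 * (XX c A T : ℝ) * Real.exp (-(p * u))) ≤
            T ^ (1 / 16 : ℝ) * ((T ^ (3 / 4 : ℝ) / 2) * T ^ (1 / 16 : ℝ) * T ^ (-1 : ℝ)) := by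
            gcongr
            linarith
        _ = 1 / 2 * (T ^ (1 / 16 : ℝ) * (T ^ (3 / 4 : ℝ) * T ^ (1 / 16 : ℝ) * T ^ (-1 : ℝ))) := by ring
        _ = 1 / 2 * T ^ (-(1 / 8) : ℝ) := by
            rw [← Real.rpow_add hTp, ← Real.rpow_add hTp, ← Real.rpow_add hTp]; norm_num
    rw [hB1]
    calc (XX c A T : ℝ) * (2 * (XX c A T : ℝ) * Real.exp (-(p * u)) / p) =
          (1 / p) * ((XX c A T : ℝ) * (2 * (XX c A T : ℝ) * Real.exp (-(p * u)))) := by ring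
      _ ≤ M * (1 / 2 * T ^ (-(1 / 8) : ℝ)) := mul_le_mul hM1 h8 (by positivity) hM.le
      _ = _ := by ring
  -- the second
  have hqp : 0 < q * (q - p) := mul_pos (by linarith) (by linarith)
  have hB2b : 16 * Real.sqrt (XX c A T2) / Real.sqrt (q * (q - p) * Real.exp (q * u)) ≤ B2 := by
    have h6 : 1 ≤ M * Real.sqrt (q * (q - p)) := by
      have h7 : Real.sqrt 1 ≤ Real.sqrt (M ^ 2 * (q * (q - p))) := Real.sqrt_le_sqrt hM2
      rw [Real.sqrt_one, Real.sqrt_mul (by positivity), Real.sqrt_sq hM.le] at h7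
      exact h7
    have h8 : Real.sqrt T2 ≤ Real.sqrt (Real.exp (q * u)) := Real.sqrt_le_sqrt h5
    have h9 : 0 < Real.sqrt T2 := Real.sqrt_pos.2 hT20
    have h10 : Real.sqrt T2 * 1 ≤ Real.sqrt (q * (q - p) * Real.exp (q * u)) * M := by
      rw [Real.sqrt_mul hqp.le]
      calc Real.sqrt T2 * 1 ≤ Real.sqrt (Real.exp (q * u)) * (M * Real.sqrt (q * (q - p))) :=
            mul_le_mul h8 h6 (by norm_num) (by positivity)
        _ = _ := by ring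
    have h11 : 0 < Real.sqrt (q * (q - p) * Real.exp (q * u)) := Real.sqrt_pos.2 (by positivity)
    have h12 : Real.sqrt (XX c A T2) ≤ T2 ^ (1 / 16 : ℝ) := by
      have h13 : (1 : ℝ) ≤ T2 ^ (1 / 16 : ℝ) := Real.one_le_rpow hT2 (by norm_num)
      rw [Real.sqrt_le_iff]
      refine ⟨by positivity, hX2.trans ?_⟩
      nlinarith
    have h13 : Real.sqrt T2 = T2 ^ (1 / 2 : ℝ) := Real.sqrt_eq_rpow T2
    rw [div_le_iff₀ h11]
    rw [mul_one, h13] at h10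
    calc 16 * Real.sqrt (XX c A T2) ≤ 16 * T2 ^ (1 / 16 : ℝ) := by linarith
      _ = (16 * T2 ^ (-(7 / 16) : ℝ)) * T2 ^ (1 / 2 : ℝ) := by
          have : T2 ^ (1 / 16 : ℝ) = T2 ^ (-(7 / 16) : ℝ) * T2 ^ (1 / 2 : ℝ) := by
            rw [← Real.rpow_add hT20]
            norm_num
          rw [this]
          ring
      _ ≤ (16 * T2 ^ (-(7 / 16) : ℝ)) * (Real.sqrt (q * (q - p) * Real.exp (q * u)) * M) :=
          mul_le_mul_of_nonneg_left h10 (by positivity)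
      _ = B2 * Real.sqrt (q * (q - p) * Real.exp (q * u)) := by rw [hB2]; ring
  have hT2b : (XX c A T : ℝ) * (XX c A T2 : ℝ) * B2 ≤ 1 / 2 * (M * T ^ (-(1 / 8) : ℝ)) := by
    have h6 : (XX c A T : ℝ) ≤ 2 * T2 ^ (1 / 16 : ℝ) := by
      refine hX1.trans ?_
      calc T ^ (1 / 16 : ℝ) ≤ (2 * T2) ^ (1 / 16 : ℝ) := Real.rpow_le_rpow hTp.le h1 (by norm_num)
        _ = (2 : ℝ) ^ (1 / 16 : ℝ) * T2 ^ (1 / 16 : ℝ) := Real.mul_rpow (by norm_num) hT20.le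
        _ ≤ 2 * T2 ^ (1 / 16 : ℝ) := by
            refine mul_le_mul_of_nonneg_right ?_ (by positivity)
            calc (2 : ℝ) ^ (1 / 16 : ℝ) ≤ (2 : ℝ) ^ (1 : ℝ) := Real.rpow_le_rpow_of_exponent_le (by norm_num) (by norm_num)
              _ = 2 := Real.rpow_one _
    have h7 : T2 ^ (-(5 / 16) : ℝ) ≤ 2 * T ^ (-(5 / 16) : ℝ) := by
      have h8 : T2 ^ (-(5 / 16) : ℝ) ≤ (T / 2) ^ (-(5 / 16) : ℝ) :=
        Real.rpow_le_rpow_of_nonpos (by linarith) (by linarith) (by norm_num)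
      refine h8.trans ?_
      rw [Real.div_rpow hTp.le (by norm_num), div_eq_mul_inv, mul_comm, ← Real.rpow_neg (by norm_num)]
      refine mul_le_mul_of_nonneg_right ?_ (by positivity)
      calc (2 : ℝ) ^ (-(-(5 / 16)) : ℝ) ≤ (2 : ℝ) ^ (1 : ℝ) := Real.rpow_le_rpow_of_exponent_le (by norm_num) (by norm_num)
        _ = 2 := Real.rpow_one _
    calc (XX c A T : ℝ) * (XX c A T2 : ℝ) * B2 ≤ (2 * T2 ^ (1 / 16 : ℝ)) * T2 ^ (1 / 16 : ℝ) * B2 := by gcongr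
      _ = 32 * M * (T2 ^ (1 / 16 : ℝ) * T2 ^ (1 / 16 : ℝ) * T2 ^ (-(7 / 16) : ℝ)) := by rw [hB2]; ring
      _ = 32 * M * T2 ^ (-(5 / 16) : ℝ) := by
          rw [← Real.rpow_add hT20, ← Real.rpow_add hT20]; norm_num
      _ ≤ 32 * M * (2 * T ^ (-(5 / 16) : ℝ)) := mul_le_mul_of_nonneg_left h7 (by positivity)
      _ = 1 / 2 * M * (128 * T ^ (-(5 / 16) : ℝ)) := by ring
      _ ≤ 1 / 2 * M * (T ^ (3 / 16 : ℝ) * T ^ (-(5 / 16) : ℝ)) := by gcongr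
      _ = 1 / 2 * (M * T ^ (-(1 / 8) : ℝ)) := by
          rw [← Real.rpow_add hTp, mul_assoc]; norm_num
  have key := dec2 (B1 := B1) (B2 := B2) (ac κ c A T) (ac κ c A T2) (XX c A T) (XX c A T2) hp hpq huv h4
    (le_of_eq hB1.symm) hB2b
  refine key.trans ?_
  have h6 := sum_abs_sq (ac κ c A T) (XX c A T)
  have h7 := sum_abs_sq (ac κ c A T2) (XX c A T2)
  have hDD : 0 ≤ Dg κ c A T * Dg κ c A T2 := mul_nonneg hD1 hD2
  have h8 : (∑ n ∈ Finset.Icc 1 (XX c A T2), ac κ c A T2 n ^ 2) * B1 +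
      (∑ n ∈ Finset.Icc 1 (XX c A T2), |ac κ c A T2 n|) ^ 2 * B2 ≤
      Dg κ c A T2 * B1 + (XX c A T2 * Dg κ c A T2) * B2 :=
    add_le_add le_rfl (mul_le_mul_of_nonneg_right h7 hB20)
  calc (∑ n ∈ Finset.Icc 1 (XX c A T), |ac κ c A T n|) ^ 2 * ((∑ n ∈ Finset.Icc 1 (XX c A T2), ac κ c A T2 n ^ 2) * B1 +
      (∑ n ∈ Finset.Icc 1 (XX c A T2), |ac κ c A T2 n|) ^ 2 * B2)
      ≤ ((XX c A T) * Dg κ c A T) * (Dg κ c A T2 * B1 + (XX c A T2 * Dg κ c A T2) * B2) := by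
        refine mul_le_mul h6 h8 ?_ (by positivity)
        have h9 : 0 ≤ ∑ n ∈ Finset.Icc 1 (XX c A T2), ac κ c A T2 n ^ 2 := Finset.sum_nonneg fun _ _ => sq_nonneg _
        positivity
    _ = Dg κ c A T * Dg κ c A T2 * ((XX c A T : ℝ) * B1 + (XX c A T : ℝ) * (XX c A T2 : ℝ) * B2) := by ring
    _ ≤ Dg κ c A T * Dg κ c A T2 * (1 / 2 * (M * T ^ (-(1 / 8) : ℝ)) + 1 / 2 * (M * T ^ (-(1 / 8) : ℝ))) :=
        mul_le_mul_of_nonneg_left (add_le_add hT1b hT2b) hDD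
    _ = _ := by ring

end

end Run7.h402.FR
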