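import Pool.Agent.Run7.h402.FR.Osc

set_option autoImplicit false

/-!
Freezing along sequences (MP_f9aece_nt), part 2: the squares of two Dirichlet polynomials at the points
`exp (p * α)` and `exp (q * α)` are almost uncorrelated.
-/

namespace Run7.h402.FR

open MeasureTheory intervalIntegral Set

/-- a Dirichlet polynomial with real coefficients -/
noncomputable def DPol (a : ℕ → ℝ) (X : ℕ) (t : ℝ) : ℂ :=
  ∑ n ∈ Finset.Icc 1 X, ((a n : ℝ) : ℂ) * (n : ℂ) ^ (-(t : ℂ) * Complex.I)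

lemma natpow {n : ℕ} (hn : 1 ≤ n) (t : ℝ) :
    (n : ℂ) ^ (-(t : ℂ) * Complex.I) = Complex.exp (Complex.I * ((-(Real.log n) * t : ℝ) : ℂ)) := by
  have h0 : (n : ℂ) ≠ 0 := by exact_mod_cast (by omega : n ≠ 0)
  rw [Complex.cpow_def_of_ne_zero h0, ← Complex.natCast_log]
  congr 1
  push_cast
  ring

lemma DPol_cont (a : ℕ → ℝ) (X : ℕ) : Continuous (DPol a X) := by
  unfold DPol
  refine continuous_finsetSum _ fun n hn => ?_
  have hn1 := (Finset.mem_Icc.1 hn).1
  simp only [natpow hn1]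
  fun_prop

lemma nsq (a : ℕ → ℝ) (X : ℕ) (t : ℝ) : ((‖DPol a X t‖ ^ 2 : ℝ) : ℂ) =
    ∑ h ∈ Finset.Icc 1 X, ∑ l ∈ Finset.Icc 1 X, ((a h * a l : ℝ) : ℂ) *
      Complex.exp (Complex.I * (((Real.log l - Real.log h) * t : ℝ) : ℂ)) := by
  rw [← Complex.normSq_eq_norm_sq, ← Complex.mul_conj]
  unfold DPol
  rw [map_sum, Finset.sum_mul_sum]
  refine Finset.sum_congr rfl fun h hh => Finset.sum_congr rfl fun l hl => ?_
  rw [natpow (Finset.mem_Icc.1 hh).1, natpow (Finset.mem_Icc.1 hl).1, map_mul, Complex.conj_ofReal,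
    ← Complex.exp_conj, map_mul, Complex.conj_I, Complex.conj_ofReal]
  have e : Complex.exp (Complex.I * (((Real.log l - Real.log h) * t : ℝ) : ℂ)) =
      Complex.exp (Complex.I * ((-(Real.log h) * t : ℝ) : ℂ)) *
      Complex.exp (-Complex.I * ((-(Real.log l) * t : ℝ) : ℂ)) := by
    rw [← Complex.exp_add]
    congr 1
    push_cast
    ring
  rw [e]
  push_cast
  ring

lemma diag (a : ℕ → ℝ) (X : ℕ) : ∑ h ∈ Finset.Icc 1 X, ∑ l ∈ Finset.Icc 1 X,
    (if h = l then a h * a l else 0) = ∑ h ∈ Finset.Icc 1 X, a h ^ 2 := by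
  refine Finset.sum_congr rfl fun h hh => ?_
  rw [Finset.sum_ite_eq, if_pos hh]
  ring

/-- decorrelation, with a hypothesis for the oscillatory integrals -/
lemma dec0 {p q u v B1 B2 : ℝ} (a b : ℕ → ℝ) (X1 X2 : ℕ) (hB1 : 0 ≤ B1) (hB2 : 0 ≤ B2)
    (H : ∀ h ∈ Finset.Icc 1 X1, ∀ l ∈ Finset.Icc 1 X1, ∀ h' ∈ Finset.Icc 1 X2, ∀ l' ∈ Finset.Icc 1 X2,
      ¬ (h = l ∧ h' = l') → ‖∫ α in u..v, Complex.exp (Complex.I *
        (((Real.log l - Real.log h) * Real.exp (p * α) + (Real.log l' - Real.log h') * Real.exp (q * α) : ℝ) : ℂ))‖ ≤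
        if h' = l' then B1 else B2) :
    |(∫ α in u..v, ‖DPol a X1 (Real.exp (p * α))‖ ^ 2 * ‖DPol b X2 (Real.exp (q * α))‖ ^ 2) -
      (v - u) * (∑ n ∈ Finset.Icc 1 X1, a n ^ 2) * (∑ n ∈ Finset.Icc 1 X2, b n ^ 2)| ≤
      (∑ n ∈ Finset.Icc 1 X1, |a n|) ^ 2 * ((∑ n ∈ Finset.Icc 1 X2, b n ^ 2) * B1 +
        (∑ n ∈ Finset.Icc 1 X2, |b n|) ^ 2 * B2) := by
  have hexp : ∀ α : ℝ, ((‖DPol a X1 (Real.exp (p * α))‖ ^ 2 * ‖DPol b X2 (Real.exp (q * α))‖ ^ 2 : ℝ) : ℂ) =
      ∑ h ∈ Finset.Icc 1 X1, ∑ l ∈ Finset.Icc 1 X1, ∑ h' ∈ Finset.Icc 1 X2, ∑ l' ∈ Finset.Icc 1 X2,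
        ((a h * a l * (b h' * b l') : ℝ) : ℂ) * Complex.exp (Complex.I *
        (((Real.log l - Real.log h) * Real.exp (p * α) + (Real.log l' - Real.log h') * Real.exp (q * α) : ℝ) : ℂ)) := by
    intro α
    rw [Complex.ofReal_mul, nsq, nsq, Finset.sum_mul]
    refine Finset.sum_congr rfl fun h _ => ?_
    rw [Finset.sum_mul]
    refine Finset.sum_congr rfl fun l _ => ?_
    rw [Finset.mul_sum]
    refine Finset.sum_congr rfl fun h' _ => ?_
    rw [Finset.mul_sum]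
    refine Finset.sum_congr rfl fun l' _ => ?_
    rw [Complex.ofReal_add, mul_add, Complex.exp_add]
    push_cast
    ring
  have hint : ((∫ α in u..v, ‖DPol a X1 (Real.exp (p * α))‖ ^ 2 * ‖DPol b X2 (Real.exp (q * α))‖ ^ 2 : ℝ) : ℂ) =
      ∑ h ∈ Finset.Icc 1 X1, ∑ l ∈ Finset.Icc 1 X1, ∑ h' ∈ Finset.Icc 1 X2, ∑ l' ∈ Finset.Icc 1 X2,
        ((a h * a l * (b h' * b l') : ℝ) : ℂ) * ∫ α in u..v, Complex.exp (Complex.I *
        (((Real.log l - Real.log h) * Real.exp (p * α) + (Real.log l' - Real.log h') * Real.exp (q * α) : ℝ) : ℂ)) := by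
    rw [← intervalIntegral.integral_ofReal]
    simp only [hexp]
    rw [intervalIntegral.integral_finset_sum]
    swap
    · intro h _; exact Continuous.intervalIntegrable (by fun_prop) _ _
    refine Finset.sum_congr rfl fun h _ => ?_
    rw [intervalIntegral.integral_finset_sum]
    swap
    · intro h _; exact Continuous.intervalIntegrable (by fun_prop) _ _
    refine Finset.sum_congr rfl fun l _ => ?_
    rw [intervalIntegral.integral_finset_sum]
    swap
    · intro h _; exact Continuous.intervalIntegrable (by fun_prop) _ _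
    refine Finset.sum_congr rfl fun h' _ => ?_
    rw [intervalIntegral.integral_finset_sum]
    swap
    · intro h _; exact Continuous.intervalIntegrable (by fun_prop) _ _
    refine Finset.sum_congr rfl fun l' _ => ?_
    rw [intervalIntegral.integral_const_mul]
  have hdiag : (((v - u) * (∑ n ∈ Finset.Icc 1 X1, a n ^ 2) * (∑ n ∈ Finset.Icc 1 X2, b n ^ 2) : ℝ) : ℂ) =
      ∑ h ∈ Finset.Icc 1 X1, ∑ l ∈ Finset.Icc 1 X1, ∑ h' ∈ Finset.Icc 1 X2, ∑ l' ∈ Finset.Icc 1 X2,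
        ((a h * a l * (b h' * b l') : ℝ) : ℂ) * (if h = l ∧ h' = l' then (((v - u : ℝ)) : ℂ) else 0) := by
    rw [← diag a X1, ← diag b X2, mul_assoc, Finset.sum_mul, Finset.mul_sum, Complex.ofReal_sum]
    refine Finset.sum_congr rfl fun h _ => ?_
    rw [Finset.sum_mul, Finset.mul_sum, Complex.ofReal_sum]
    refine Finset.sum_congr rfl fun l _ => ?_
    rw [Finset.mul_sum, Finset.mul_sum, Complex.ofReal_sum]
    refine Finset.sum_congr rfl fun h' _ => ?_
    rw [Finset.mul_sum, Finset.mul_sum, Complex.ofReal_sum]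
    refine Finset.sum_congr rfl fun l' _ => ?_
    by_cases h1 : h = l
    · by_cases h2 : h' = l'
      · simp only [h1, h2, and_self, if_true]
        push_cast
        ring
      · simp [h1, h2]
    · simp [h1]
  have hn : |(∫ α in u..v, ‖DPol a X1 (Real.exp (p * α))‖ ^ 2 * ‖DPol b X2 (Real.exp (q * α))‖ ^ 2) -
      (v - u) * (∑ n ∈ Finset.Icc 1 X1, a n ^ 2) * (∑ n ∈ Finset.Icc 1 X2, b n ^ 2)| =
      ‖((∫ α in u..v, ‖DPol a X1 (Real.exp (p * α))‖ ^ 2 * ‖DPol b X2 (Real.exp (q * α))‖ ^ 2 : ℝ) : ℂ) -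
      (((v - u) * (∑ n ∈ Finset.Icc 1 X1, a n ^ 2) * (∑ n ∈ Finset.Icc 1 X2, b n ^ 2) : ℝ) : ℂ)‖ := by
    rw [← Complex.ofReal_sub, Complex.norm_real, Real.norm_eq_abs]
  rw [hn, hint, hdiag]
  simp only [← Finset.sum_sub_distrib, ← mul_sub]
  have hd2 : ∑ h' ∈ Finset.Icc 1 X2, ∑ l' ∈ Finset.Icc 1 X2, (if h' = l' then |b h'| * |b l'| else 0) =
      ∑ n ∈ Finset.Icc 1 X2, b n ^ 2 := by
    rw [diag (fun n => |b n|) X2]
    exact Finset.sum_congr rfl fun n _ => sq_abs _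
  have hB : ∑ h ∈ Finset.Icc 1 X1, ∑ l ∈ Finset.Icc 1 X1, ∑ h' ∈ Finset.Icc 1 X2, ∑ l' ∈ Finset.Icc 1 X2,
      |a h| * |a l| * ((if h' = l' then |b h'| * |b l'| else 0) * B1 + (|b h'| * |b l'|) * B2) =
      (∑ n ∈ Finset.Icc 1 X1, |a n|) ^ 2 * ((∑ n ∈ Finset.Icc 1 X2, b n ^ 2) * B1 +
        (∑ n ∈ Finset.Icc 1 X2, |b n|) ^ 2 * B2) := by
    rw [← hd2, sq, sq, Finset.sum_mul_sum, Finset.sum_mul_sum]
    simp only [← Finset.sum_mul, ← Finset.mul_sum, Finset.sum_add_distrib]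
  rw [← hB]
  refine (norm_sum_le _ _).trans (Finset.sum_le_sum fun h hh => ?_)
  refine (norm_sum_le _ _).trans (Finset.sum_le_sum fun l hl => ?_)
  refine (norm_sum_le _ _).trans (Finset.sum_le_sum fun h' hh' => ?_)
  refine (norm_sum_le _ _).trans (Finset.sum_le_sum fun l' hl' => ?_)
  rw [norm_mul, Complex.norm_real, Real.norm_eq_abs, abs_mul, abs_mul, abs_mul, mul_assoc (|a h| * |a l|)]
  refine mul_le_mul_of_nonneg_left ?_ (by positivity)
  by_cases h1 : h = l ∧ h' = l'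
  · have h2 : (∫ α in u..v, Complex.exp (Complex.I *
        (((Real.log l - Real.log h) * Real.exp (p * α) + (Real.log l' - Real.log h') * Real.exp (q * α) : ℝ) : ℂ))) -
        (if h = l ∧ h' = l' then (((v - u : ℝ)) : ℂ) else 0) = 0 := by
      rw [if_pos h1, ← h1.1, ← h1.2]
      simp
    rw [h2, norm_zero, mul_zero]
    split_ifs <;> positivity
  · rw [if_neg h1, sub_zero]
    have h3 := H h hh l hl h' hh' l' hl' h1
    have h0 : 0 ≤ |b h'| * |b l'| := by positivity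
    by_cases h4 : h' = l'
    · rw [if_pos h4] at h3
      rw [if_pos h4]
      have h5 := mul_le_mul_of_nonneg_left h3 h0
      have h6 := mul_nonneg h0 hB2
      linarith
    · rw [if_neg h4] at h3
      rw [if_neg h4]
      have h5 := mul_le_mul_of_nonneg_left h3 h0
      linarith

lemma log_gap {X h l : ℕ} (hh : h ∈ Finset.Icc 1 X) (hl : l ∈ Finset.Icc 1 X) (hne : h ≠ l) :
    1 / (X : ℝ) ≤ |Real.log l - Real.log h| := by
  rw [Finset.mem_Icc] at hh hl
  have key : ∀ x y : ℕ, 1 ≤ x → x < y → y ≤ X → 1 / (X : ℝ) ≤ Real.log y - Real.log x := by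
    intro x y hx hxy hy
    have hx0 : (0 : ℝ) < x := by exact_mod_cast (by omega : 0 < x)
    have hy0 : (0 : ℝ) < y := by exact_mod_cast (by omega : 0 < y)
    have h1 := Real.one_sub_inv_le_log_of_pos (div_pos hy0 hx0)
    rw [Real.log_div hy0.ne' hx0.ne'] at h1
    have h2 : 1 - ((y : ℝ) / x)⁻¹ = (y - x) / y := by field_simp
    rw [h2] at h1
    have h3 : (1 : ℝ) ≤ y - x := by
      have : (x : ℝ) + 1 ≤ y := by exact_mod_cast hxy
      linarith
    have h4 : (y : ℝ) ≤ X := by exact_mod_cast hy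
    calc 1 / (X : ℝ) ≤ (y - x) / y := div_le_div₀ (by linarith) h3 hy0 h4
      _ ≤ _ := h1
  rcases lt_or_gt_of_ne hne with h1 | h1
  · exact (key h l hh.1 h1 hl.2).trans (le_abs_self _)
  · rw [abs_sub_comm]
    exact (key l h hl.1 h1 hh.2).trans (le_abs_self _)

/-- one polynomial -/
lemma dec1 {p u v : ℝ} (a : ℕ → ℝ) (X : ℕ) (hp : 0 < p) (huv : u ≤ v) :
    |(∫ α in u..v, ‖DPol a X (Real.exp (p * α))‖ ^ 2) - (v - u) * (∑ n ∈ Finset.Icc 1 X, a n ^ 2)| ≤
      (∑ n ∈ Finset.Icc 1 X, |a n|) ^ 2 * (2 * X * Real.exp (-(p * u)) / p) := by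
  have h := dec0 (p := p) (q := 0) (u := u) (v := v) (B1 := 2 * X * Real.exp (-(p * u)) / p) (B2 := 0) a (fun _ => 1) X 1
    (by positivity) le_rfl (by
    intro h hh l hl h' hh' l' hl' hne
    have h1 : h' = 1 := by rw [Finset.mem_Icc] at hh'; omega
    have h2 : l' = 1 := by rw [Finset.mem_Icc] at hl'; omega
    have hne' : h ≠ l := fun h3 => hne ⟨h3, by rw [h1, h2]⟩
    have hg := log_gap hh hl hne'
    have hX : (0 : ℝ) < X := by
      rw [Finset.mem_Icc] at hh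
      exact_mod_cast (by omega : 0 < X)
    have hL : Real.log l - Real.log h ≠ 0 := by
      intro h3
      rw [h3, abs_zero] at hg
      have : 0 < 1 / (X : ℝ) := by positivity
      linarith
    subst h1
    subst h2
    have h3 := osc1 hp huv hL
    have h4 : ∀ α : ℝ, (Real.log l - Real.log h) * Real.exp (p * α) + (Real.log ((1 : ℕ) : ℝ) - Real.log ((1 : ℕ) : ℝ)) * Real.exp (0 * α) =
        (Real.log l - Real.log h) * Real.exp (p * α) := by intro α; simp
    simp only [h4]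
    rw [if_true]
    refine h3.trans ?_
    have h5 : 2 / |Real.log l - Real.log h| ≤ 2 * X := by
      rw [div_le_iff₀ (abs_pos.2 hL)]
      have h6 : (X : ℝ) * (1 / X) = 1 := by field_simp
      nlinarith [mul_le_mul_of_nonneg_left hg hX.le]
    gcongr)
  have e1 : ∀ t : ℝ, DPol (fun _ => 1) 1 t = 1 := by
    intro t
    unfold DPol
    simp
  simp only [e1] at h
  simpa using h

/-- two polynomials -/
lemma dec2 {p q u v B1 B2 : ℝ} (a b : ℕ → ℝ) (X1 X2 : ℕ) (hp : 0 < p) (hpq : p < q) (huv : u ≤ v)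
    (h2 : Real.exp (p * v) ≤ 2 * Real.exp (p * u)) (hB1 : 2 * X1 * Real.exp (-(p * u)) / p ≤ B1)
    (hB2 : 16 * Real.sqrt X2 / Real.sqrt (q * (q - p) * Real.exp (q * u)) ≤ B2) :
    |(∫ α in u..v, ‖DPol a X1 (Real.exp (p * α))‖ ^ 2 * ‖DPol b X2 (Real.exp (q * α))‖ ^ 2) -
      (v - u) * (∑ n ∈ Finset.Icc 1 X1, a n ^ 2) * (∑ n ∈ Finset.Icc 1 X2, b n ^ 2)| ≤
      (∑ n ∈ Finset.Icc 1 X1, |a n|) ^ 2 * ((∑ n ∈ Finset.Icc 1 X2, b n ^ 2) * B1 +
        (∑ n ∈ Finset.Icc 1 X2, |b n|) ^ 2 * B2) := by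
  have hB10 : 0 ≤ B1 := le_trans (by positivity) hB1
  have hB20 : 0 ≤ B2 := le_trans (by positivity) hB2
  refine dec0 a b X1 X2 hB10 hB20 ?_
  intro h hh l hl h' hh' l' hl' hne
  by_cases h3 : h' = l'
  · rw [if_pos h3]
    have hne' : h ≠ l := fun h4 => hne ⟨h4, h3⟩
    have hg := log_gap hh hl hne'
    have hX : (0 : ℝ) < X1 := by
      rw [Finset.mem_Icc] at hh
      exact_mod_cast (by omega : 0 < X1)
    have hL : Real.log l - Real.log h ≠ 0 := by
      intro h3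
      rw [h3, abs_zero] at hg
      have : 0 < 1 / (X1 : ℝ) := by positivity
      linarith
    have h4 : ∀ α : ℝ, (Real.log l - Real.log h) * Real.exp (p * α) + (Real.log l' - Real.log h') * Real.exp (q * α) =
        (Real.log l - Real.log h) * Real.exp (p * α) := by intro α; rw [h3]; ring
    simp only [h4]
    refine (osc1 hp huv hL).trans (le_trans ?_ hB1)
    have h5 : 2 / |Real.log l - Real.log h| ≤ 2 * X1 := by
      rw [div_le_iff₀ (abs_pos.2 hL)]
      have h6 : (X1 : ℝ) * (1 / X1) = 1 := by field_simp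
      nlinarith [mul_le_mul_of_nonneg_left hg hX.le]
    gcongr
  · rw [if_neg h3]
    have hg := log_gap hh' hl' h3
    have hX : (0 : ℝ) < X2 := by
      rw [Finset.mem_Icc] at hh'
      exact_mod_cast (by omega : 0 < X2)
    have hL0 : 0 < |Real.log l' - Real.log h'| := lt_of_lt_of_le (by positivity) hg
    have hL : Real.log l' - Real.log h' ≠ 0 := abs_pos.1 hL0
    refine (osc2 hp hpq huv hL h2).trans (le_trans ?_ hB2)
    have hQ : 0 < q * (q - p) * Real.exp (q * u) := by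
      have : 0 < q * (q - p) := mul_pos (by linarith) (by linarith)
      positivity
    rw [mul_assoc |Real.log l' - Real.log h'|, Real.sqrt_mul hL0.le]
    have h6 : 1 / Real.sqrt X2 ≤ Real.sqrt |Real.log l' - Real.log h'| := by
      rw [← Real.sqrt_one, ← Real.sqrt_div (by norm_num)]
      exact Real.sqrt_le_sqrt hg
    have h7 : 0 < Real.sqrt X2 := Real.sqrt_pos.2 hX
    have h8 : 0 < Real.sqrt (q * (q - p) * Real.exp (q * u)) := Real.sqrt_pos.2 hQ
    have h9 : 1 / Real.sqrt X2 * Real.sqrt (q * (q - p) * Real.exp (q * u)) ≤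
        Real.sqrt |Real.log l' - Real.log h'| * Real.sqrt (q * (q - p) * Real.exp (q * u)) :=
      mul_le_mul_of_nonneg_right h6 h8.le
    calc 16 / (Real.sqrt |Real.log l' - Real.log h'| * Real.sqrt (q * (q - p) * Real.exp (q * u)))
        ≤ 16 / (1 / Real.sqrt X2 * Real.sqrt (q * (q - p) * Real.exp (q * u))) :=
          div_le_div_of_nonneg_left (by norm_num) (by positivity) h9
      _ = _ := by field_simp

end Run7.h402.FR
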