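import Pool.Agent.Run7.h402.FR.Up

set_option autoImplicit false

/-!
Freezing along sequences (MP_f9aece_nt), part 13: deterministic inequalities.
-/

namespace Run7.h402.FR

open MeasureTheory Set Filter Topology
open scoped ENNReal

noncomputable section

/-- the free energy -/
def FE (γ β : ℝ) : ℝ := if β ≤ 2 / Real.sqrt γ then 1 + γ * β ^ 2 / 4 else Real.sqrt γ * β

lemma kap_real {γ β ε : ℝ} (hγ : 0 < γ) (hβ : 0 < β) (hε : 0 < ε) : ∃ κ : ℝ, 0 < κ ∧ γ * κ ^ 2 < 1 ∧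
    FE γ β - ε < 1 - γ * κ ^ 2 + γ * κ * β := by
  have hs : 0 < Real.sqrt γ := Real.sqrt_pos.2 hγ
  have hss : Real.sqrt γ ^ 2 = γ := Real.sq_sqrt hγ.le
  obtain ⟨s, hsd⟩ : ∃ s : ℝ, s = Real.sqrt γ := ⟨_, rfl⟩
  rw [← hsd] at hs hss
  unfold FE
  rw [← hsd]
  by_cases h : β < 2 / s
  · refine ⟨β / 2, by positivity, ?_, ?_⟩
    · rw [lt_div_iff₀ hs] at h
      rw [← hss]
      have h1 : s * β < 2 := by linarith
      have h2 : 0 < s * β := by positivity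
      nlinarith
    · rw [if_pos h.le]
      have : 1 - γ * (β / 2) ^ 2 + γ * (β / 2) * β = 1 + γ * β ^ 2 / 4 := by ring
      rw [this]
      linarith
  · push Not at h
    obtain ⟨δ, hδ, h1, h2, -, -, -⟩ := small5 (A1 := s * β) (A2 := 1) (A3 := 1) (A4 := 1) (A5 := 1) (B1 := ε / 2)
      (B2 := 1 / 2) (B3 := 1) (B4 := 1) (B5 := 1) (by positivity) one_pos one_pos one_pos one_pos (by positivity)
      (by norm_num) one_pos one_pos one_pos
    rw [one_mul] at h2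
    refine ⟨(1 - δ) / s, ?_, ?_, ?_⟩
    · have : 0 < 1 - δ := by linarith
      positivity
    · have e1 : γ * ((1 - δ) / s) ^ 2 = (1 - δ) ^ 2 := by rw [← hss]; field_simp
      rw [e1]
      nlinarith
    · have e1 : γ * ((1 - δ) / s) ^ 2 = (1 - δ) ^ 2 := by rw [← hss]; field_simp
      have e2 : γ * ((1 - δ) / s) * β = (1 - δ) * (s * β) := by rw [← hss]; field_simp
      rw [e1, e2]
      have hF : (if β ≤ 2 / s then 1 + γ * β ^ 2 / 4 else s * β) = s * β := by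
        split_ifs with h3
        · have h4 : β = 2 / s := le_antisymm h3 h
          have h5 : s * β = 2 := by rw [h4]; field_simp
          have h6 : γ * β ^ 2 = 4 := by rw [← hss, h4]; field_simp; norm_num
          linarith
        · rfl
      rw [hF]
      nlinarith

lemma kap {γ β ε : ℝ} (hγ : 0 < γ) (hβ : 0 < β) (hε : 0 < ε) : ∃ κ : ℚ, 0 < (κ : ℝ) ∧ γ * (κ : ℝ) ^ 2 < 1 ∧
    FE γ β - ε < 1 - γ * (κ : ℝ) ^ 2 + γ * κ * β := by
  obtain ⟨κ0, h1, h2, h3⟩ := kap_real hγ hβ hε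
  have ho : IsOpen {κ : ℝ | 0 < κ ∧ γ * κ ^ 2 < 1 ∧ FE γ β - ε < 1 - γ * κ ^ 2 + γ * κ * β} := by
    have c1 : Continuous (fun κ : ℝ => γ * κ ^ 2) := by fun_prop
    have c2 : Continuous (fun κ : ℝ => 1 - γ * κ ^ 2 + γ * κ * β) := by fun_prop
    exact (isOpen_lt continuous_const continuous_id).inter ((isOpen_lt c1 continuous_const).inter
      (isOpen_lt continuous_const c2))
  obtain ⟨κ, hκ⟩ := Rat.denseRange_cast.exists_mem_open ho ⟨κ0, h1, h2, h3⟩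
  exact ⟨κ, hκ⟩

/-- a rational number slightly larger than `κ` -/
lemma kap2 {γ κ ε : ℝ} (hγκ : γ * κ ^ 2 < 1) (hε : 0 < ε) : ∃ κ' : ℚ, κ < (κ' : ℝ) ∧
    γ * (κ' : ℝ) ^ 2 < 1 ∧ γ * (κ' : ℝ) ^ 2 < γ * κ ^ 2 + ε := by
  have hc : Continuous (fun x : ℝ => γ * x ^ 2) := by fun_prop
  have h1 : ∀ᶠ x in 𝓝[>] κ, γ * x ^ 2 < min 1 (γ * κ ^ 2 + ε) :=
    (hc.tendsto κ).eventually (gt_mem_nhds (lt_min hγκ (by linarith))) |>.filter_mono nhdsWithin_le_nhds
  obtain ⟨z, hz, hz2⟩ := (mem_nhdsGT_iff_exists_Ioo_subset).1 h1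
  obtain ⟨q, hq1, hq2⟩ := exists_rat_btwn (show κ < z from hz)
  have h2 := hz2 ⟨hq1, hq2⟩
  have h3 : γ * (q : ℝ) ^ 2 < min 1 (γ * κ ^ 2 + ε) := h2
  exact ⟨q, hq1, h3.trans_le (min_le_left _ _), h3.trans_le (min_le_right _ _)⟩

open Classical in
/-- the number of the large values in `(N, 2N]` -/
def Cn (u : ℕ → ℝ) (s : ℝ) (α : ℝ) (N : ℕ) : ℕ :=
  ((Finset.Ioc N (2 * N)).filter (fun n : ℕ => (n : ℝ) ^ s ≤ ztv u α n)).card

/-- many large values give a large power sum -/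
lemma det1 {u : ℕ → ℝ} {s e β α : ℝ} {N : ℕ} (hN : 1 ≤ N) (hs : 0 ≤ s) (hβ : 0 < β)
    (h : (N : ℝ) ^ e ≤ Cn u s α N) : (N : ℝ) ^ (e + s * β) ≤ SS' u β α (2 * N) := by
  classical
  have hN0 : (0 : ℝ) < N := by exact_mod_cast hN
  obtain ⟨F, hF⟩ : ∃ F : Finset ℕ, F = (Finset.Ioc N (2 * N)).filter (fun n : ℕ => (n : ℝ) ^ s ≤ ztv u α n) := ⟨_, rfl⟩
  have hcard : Cn u s α N = F.card := by
    unfold Cn
    rw [hF]
  have hsub : F ⊆ Finset.Icc 1 (2 * N) := by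
    intro n hn
    rw [hF, Finset.mem_filter, Finset.mem_Ioc] at hn
    rw [Finset.mem_Icc]
    omega
  have h1 : ∑ n ∈ F, ztv u α n ^ β ≤ SS' u β α (2 * N) :=
    Finset.sum_le_sum_of_subset_of_nonneg hsub fun n _ _ => Real.rpow_nonneg (ztv_nonneg _ _ _) _
  have h2 : ∑ n ∈ F, (N : ℝ) ^ (s * β) ≤ ∑ n ∈ F, ztv u α n ^ β := by
    refine Finset.sum_le_sum fun n hn => ?_
    rw [hF, Finset.mem_filter, Finset.mem_Ioc] at hn
    have hNn : (N : ℝ) ≤ n := by exact_mod_cast hn.1.1.le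
    have h3 : (N : ℝ) ^ s ≤ ztv u α n := (Real.rpow_le_rpow hN0.le hNn hs).trans hn.2
    rw [Real.rpow_mul hN0.le]
    exact Real.rpow_le_rpow (by positivity) h3 hβ.le
  rw [Finset.sum_const, nsmul_eq_mul, ← hcard] at h2
  calc (N : ℝ) ^ (e + s * β) = (N : ℝ) ^ e * (N : ℝ) ^ (s * β) := Real.rpow_add hN0 _ _
    _ ≤ (Cn u s α N : ℝ) * (N : ℝ) ^ (s * β) := mul_le_mul_of_nonneg_right h (by positivity)
    _ ≤ _ := h2.trans h1

/-- passing from `M / 2` to `M` -/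
lemma half {e e' : ℝ} (he : 0 ≤ e) (he' : e' < e) : ∀ᶠ M : ℕ in atTop, (M : ℝ) ^ e' ≤ ((M / 2 : ℕ) : ℝ) ^ e := by
  have h1 := npow_tendsto (show 0 < e - e' by linarith)
  filter_upwards [h1.eventually_ge_atTop ((3 : ℝ) ^ e), eventually_ge_atTop 3] with M h2 h3
  have hM0 : (0 : ℝ) < M := by exact_mod_cast (by omega : 0 < M)
  have h4 : (M : ℝ) / 3 ≤ ((M / 2 : ℕ) : ℝ) := by
    have : M ≤ 3 * (M / 2) := by omega
    have h5 : (M : ℝ) ≤ 3 * ((M / 2 : ℕ) : ℝ) := by exact_mod_cast this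
    linarith
  have h5 : ((M : ℝ) / 3) ^ e ≤ ((M / 2 : ℕ) : ℝ) ^ e := Real.rpow_le_rpow (by positivity) h4 he
  refine le_trans ?_ h5
  rw [Real.div_rpow hM0.le (by norm_num), le_div_iff₀ (by positivity)]
  calc (M : ℝ) ^ e' * 3 ^ e ≤ (M : ℝ) ^ e' * (M : ℝ) ^ (e - e') := mul_le_mul_of_nonneg_left h2 (by positivity)
    _ = (M : ℝ) ^ e := by rw [← Real.rpow_add hM0]; congr 1; ring

/-- a power sum of larger exponent -/
lemma pow_sum {u : ℕ → ℝ} {β βc α : ℝ} {N : ℕ} (hβc : 0 < βc) (hβ : βc ≤ β) :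
    SS' u β α N ≤ SS' u βc α N ^ (β / βc) := by
  obtain ⟨r, hr⟩ : ∃ r : ℝ, r = β / βc := ⟨_, rfl⟩
  have hr1 : 1 ≤ r := by rw [hr, le_div_iff₀ hβc]; linarith
  obtain ⟨S, hS⟩ : ∃ S : ℝ, S = SS' u βc α N := ⟨_, rfl⟩
  have hS0 : 0 ≤ S := by rw [hS]; exact SS'_nonneg _ _ _ _
  rw [← hr, ← hS]
  have h1 : ∀ n ∈ Finset.Icc 1 N, ztv u α n ^ β ≤ ztv u α n ^ βc * S ^ (r - 1) := by
    intro n hn
    have hz := ztv_nonneg u α n
    have h2 : ztv u α n ^ βc ≤ S := by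
      rw [hS]
      unfold SS'
      exact Finset.single_le_sum (f := fun n => ztv u α n ^ βc) (fun i _ => Real.rpow_nonneg (ztv_nonneg _ _ _) _) hn
    have h3 : ztv u α n ^ β = (ztv u α n ^ βc) ^ r := by
      rw [← Real.rpow_mul hz, hr]
      congr 1
      field_simp
    obtain ⟨y, hy⟩ : ∃ y : ℝ, y = ztv u α n ^ βc := ⟨_, rfl⟩
    have hy0 : 0 ≤ y := by rw [hy]; positivity
    rw [h3, ← hy]
    rw [← hy] at h2
    rcases hy0.lt_or_eq with h4 | h4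
    · calc y ^ r = y ^ (1 + (r - 1)) := by congr 1; ring
        _ = y * y ^ (r - 1) := by rw [Real.rpow_add h4, Real.rpow_one]
        _ ≤ y * S ^ (r - 1) := mul_le_mul_of_nonneg_left (Real.rpow_le_rpow hy0 h2 (by linarith)) hy0
    · rw [← h4, Real.zero_rpow (by linarith), zero_mul]
  calc SS' u β α N ≤ ∑ n ∈ Finset.Icc 1 N, ztv u α n ^ βc * S ^ (r - 1) := Finset.sum_le_sum h1
    _ = S * S ^ (r - 1) := by rw [← Finset.sum_mul, hS]; rfl
    _ = S ^ r := by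
        rcases hS0.lt_or_eq with h4 | h4
        · rw [← Real.rpow_one_add' hS0 (by linarith)]
          congr 1
          ring
        · rw [← h4, zero_mul, Real.zero_rpow (by linarith)]

/-- one term is at most the power sum -/
lemma term_le {u : ℕ → ℝ} {βc α : ℝ} {N n : ℕ} (hβc : 0 < βc) (hn : n ∈ Finset.Icc 1 N) :
    ztv u α n ≤ SS' u βc α N ^ (1 / βc) := by
  have h2 : ztv u α n ^ βc ≤ SS' u βc α N := by
    unfold SS'
    exact Finset.single_le_sum (f := fun n => ztv u α n ^ βc) (fun i _ => Real.rpow_nonneg (ztv_nonneg _ _ _) _) hn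
  have hz := ztv_nonneg u α n
  calc ztv u α n = (ztv u α n ^ βc) ^ (1 / βc) := by
        rw [← Real.rpow_mul hz, mul_one_div_cancel hβc.ne', Real.rpow_one]
    _ ≤ _ := Real.rpow_le_rpow (by positivity) h2 (by positivity)

/-- a power sum of smaller exponent -/
lemma pow_sum2 {u : ℕ → ℝ} {β q α : ℝ} {N : ℕ} (hβ : 0 < β) (hq : β ≤ q) :
    SS' u β α N ≤ N + SS' u q α N := by
  have h1 : ∀ n ∈ Finset.Icc 1 N, ztv u α n ^ β ≤ 1 + ztv u α n ^ q := by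
    intro n _
    have hz := ztv_nonneg u α n
    rcases le_total (ztv u α n) 1 with h | h
    · have h2 : ztv u α n ^ β ≤ 1 := Real.rpow_le_one hz h hβ.le
      have h3 : 0 ≤ ztv u α n ^ q := by positivity
      linarith
    · have h2 : ztv u α n ^ β ≤ ztv u α n ^ q := Real.rpow_le_rpow_of_exponent_le h hq
      linarith
  refine (Finset.sum_le_sum h1).trans (le_of_eq ?_)
  rw [Finset.sum_add_distrib, Finset.sum_const, Nat.card_Icc, nsmul_eq_mul, mul_one]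
  congr 2

end

end Run7.h402.FR
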