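import Pool.Agent.Run7.h402.FR.Prob

set_option autoImplicit false

/-!
Freezing along sequences (MP_f9aece_nt), part 15: the results in measure.
-/

namespace Run7.h402.FR

open MeasureTheory Set Filter Topology
open Pool.Agent.Y745.LD Pool.Agent.Y931.LD Pool.Agent.Y745.SW Pool.Agent.Y745.UP
open scoped ENNReal

noncomputable section

lemma one_le_FE {γ β : ℝ} (hγ : 0 < γ) (hβ : 0 < β) : 1 ≤ FE γ β := by
  unfold FE
  split_ifs with h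
  · have : 0 ≤ γ * β ^ 2 / 4 := by positivity
    linarith
  · push Not at h
    have hs : 0 < Real.sqrt γ := Real.sqrt_pos.2 hγ
    rw [div_lt_iff₀ hs] at h
    linarith

lemma vol_mono {a b : ℝ} {A B : Set ℝ} (h : A ⊆ B) : volume.real (Ico a b ∩ A) ≤ volume.real (Ico a b ∩ B) := by
  refine measureReal_mono (inter_subset_inter_right _ h) ?_
  refine ne_top_of_le_ne_top ?_ (measure_mono inter_subset_left)
  rw [Real.volume_Ico]
  exact ENNReal.ofReal_ne_top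

/-- the number of the values above `N ^ s` -/
def Bn (u : ℕ → ℝ) (s : ℝ) (α : ℝ) (N : ℕ) : ℕ := {n : ℕ | n ∈ Finset.Icc 1 N ∧ (N : ℝ) ^ s ≤ ztv u α n}.ncard

lemma Bn_fin (u : ℕ → ℝ) (s α : ℝ) (N : ℕ) : {n : ℕ | n ∈ Finset.Icc 1 N ∧ (N : ℝ) ^ s ≤ ztv u α n}.Finite :=
  (Finset.finite_toSet (Finset.Icc 1 N)).subset fun _ hn => hn.1

/-- the large values in `(N, 2 N]`, `N = M / 2`, are among those up to `M` -/
lemma Cn_le_Bn {u : ℕ → ℝ} {s s' α : ℝ} {M : ℕ} (hs : 0 ≤ s) (h : (M : ℝ) ^ s' ≤ ((M / 2 : ℕ) : ℝ) ^ s) :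
    Cn u s α (M / 2) ≤ Bn u s' α M := by
  classical
  unfold Cn Bn
  rw [← Set.ncard_coe_finset]
  refine Set.ncard_le_ncard ?_ (Bn_fin u s' α M)
  intro n hn
  rw [Finset.mem_coe, Finset.mem_filter, Finset.mem_Ioc] at hn
  refine ⟨Finset.mem_Icc.2 ⟨by omega, by omega⟩, ?_⟩
  refine h.trans (le_trans ?_ hn.2)
  exact Real.rpow_le_rpow (Nat.cast_nonneg _) (by exact_mod_cast hn.1.1.le) hs

section

variable (hMVB : P_MVB) (hVM1 : P_VM1) (hVMT : P_VMT) (hPW : P_PW) (hLOW : P_LOW) (hSTRIP : P_STRIP)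
include hMVB hVM1 hVMT hPW hLOW

lemma levels' (γ a b κ η ν : ℝ) (u : ℕ → ℝ) (hu : Adm γ u) (hγ : 0 < γ) (ha : 0 < a) (hab : a < b) (hκ : 0 < κ)
    (hγκ : γ * κ ^ 2 < 1) (hη : 0 < η) (hν : 0 < ν) :
    ∀ᶠ N : ℕ in atTop, volume.real (Ico a b ∩ {α | (Cn u (γ * κ - η) α N : ℝ) < (N : ℝ) ^ (1 - γ * κ ^ 2 - η)}) ≤ ν :=
  levels hMVB hVM1 hVMT hPW hLOW γ a b κ η ν u hu hγ ha hab hκ hγκ hη hν

/-- lower bound for the power sums, in measure -/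
lemma lowS (γ a b β ε ν : ℝ) (u : ℕ → ℝ) (hu : Adm γ u) (hγ : 0 < γ) (ha : 0 < a) (hab : a < b) (hβ : 0 < β)
    (hε : 0 < ε) (hν : 0 < ν) :
    ∀ᶠ M : ℕ in atTop, volume.real (Ico a b ∩ {α | SS' u β α M < (M : ℝ) ^ (FE γ β - ε)}) ≤ ν := by
  obtain ⟨ε', hε'⟩ : ∃ ε' : ℝ, ε' = min ε 1 := ⟨_, rfl⟩
  have hε'0 : 0 < ε' := by rw [hε']; exact lt_min hε one_pos
  have hε'1 : ε' ≤ 1 := by rw [hε']; exact min_le_right _ _
  have hε'ε : ε' ≤ ε := by rw [hε']; exact min_le_left _ _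
  obtain ⟨κ, hκ, hγκ, hF⟩ := kap (ε := ε' / 2) hγ hβ (by linarith)
  obtain ⟨η, hη, e1, e2, -, -, -⟩ := small5 (A1 := 1 + β) (A2 := 1) (A3 := 1) (A4 := 1) (A5 := 1) (B1 := ε' / 4)
    (B2 := γ * κ) (B3 := 1) (B4 := 1) (B5 := 1) (by positivity) one_pos one_pos one_pos one_pos (by positivity)
    (by positivity) one_pos one_pos one_pos
  rw [one_mul] at e2
  obtain ⟨e, he⟩ : ∃ e : ℝ, e = (1 - γ * (κ : ℝ) ^ 2 - η) + (γ * κ - η) * β := ⟨_, rfl⟩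
  have heF : FE γ β - ε' < e := by
    rw [he]
    nlinarith
  have hFE := one_le_FE hγ hβ
  obtain ⟨N1, hN1⟩ := eventually_atTop.1 (levels' hMVB hVM1 hVMT hPW hLOW γ a b κ η ν u hu hγ ha hab hκ hγκ hη hν)
  filter_upwards [half (e := e) (e' := FE γ β - ε') (by linarith) heF, eventually_ge_atTop (2 * N1),
    eventually_ge_atTop 2] with M g1 g2 g3
  refine le_trans (vol_mono ?_) (hN1 (M / 2) (by omega))
  intro α hα
  show (Cn u (γ * κ - η) α (M / 2) : ℝ) < ((M / 2 : ℕ) : ℝ) ^ (1 - γ * (κ : ℝ) ^ 2 - η)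
  by_contra hcon
  push Not at hcon
  have h1 := det1 (β := β) (show 1 ≤ M / 2 by omega) (by linarith) hβ hcon
  rw [← he] at h1
  have h2 : SS' u β α (2 * (M / 2)) ≤ SS' u β α M := SS'_mono u β α (by omega)
  have hM1 : (1 : ℝ) ≤ M := by exact_mod_cast (by omega : 1 ≤ M)
  have h3 : (M : ℝ) ^ (FE γ β - ε) ≤ (M : ℝ) ^ (FE γ β - ε') := Real.rpow_le_rpow_of_exponent_le hM1 (by linarith)
  have h4 : SS' u β α M < (M : ℝ) ^ (FE γ β - ε) := hα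
  linarith

/-- lower bound for the number of large values, in measure -/
lemma lowB (γ a b κ ε ν : ℝ) (u : ℕ → ℝ) (hu : Adm γ u) (hγ : 0 < γ) (ha : 0 < a) (hab : a < b) (hκ : 0 < κ)
    (hγκ : γ * κ ^ 2 < 1) (hε : 0 < ε) (hν : 0 < ν) :
    ∀ᶠ M : ℕ in atTop, volume.real (Ico a b ∩ {α | (Bn u (γ * κ) α M : ℝ) < (M : ℝ) ^ (1 - γ * κ ^ 2 - ε)}) ≤ ν := by
  obtain ⟨κ', hκκ', hγκ', hκ'2⟩ := kap2 (ε := ε / 2) hγκ (by linarith)
  have hκ'0 : (0 : ℝ) < κ' := by linarith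
  have hd : 0 < γ * (κ' - κ) := mul_pos hγ (by linarith)
  obtain ⟨η, hη, e1, e2, e3, -, -⟩ := small5 (A1 := 1) (A2 := 1) (A3 := 1) (A4 := 1) (A5 := 1) (B1 := ε / 4)
    (B2 := γ * (κ' - κ) / 2) (B3 := 1 - γ * (κ' : ℝ) ^ 2) (B4 := 1) (B5 := 1) one_pos one_pos one_pos one_pos one_pos (by positivity)
    (by positivity) (by linarith) one_pos one_pos
  rw [one_mul] at e1 e2 e3
  have hs : γ * κ < γ * κ' - η := by nlinarith
  have hs0 : 0 < γ * κ := by positivity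
  obtain ⟨N1, hN1⟩ := eventually_atTop.1 (levels' hMVB hVM1 hVMT hPW hLOW γ a b κ' η ν u hu hγ ha hab hκ'0 hγκ' hη hν)
  filter_upwards [half (e := 1 - γ * (κ' : ℝ) ^ 2 - η) (e' := 1 - γ * κ ^ 2 - ε) (by linarith) (by linarith),
    half (e := γ * κ' - η) (e' := γ * κ) (by linarith) hs, eventually_ge_atTop (2 * N1),
    eventually_ge_atTop 2] with M g1 g2 g3 g4
  refine le_trans (vol_mono ?_) (hN1 (M / 2) (by omega))
  intro α hα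
  show (Cn u (γ * κ' - η) α (M / 2) : ℝ) < ((M / 2 : ℕ) : ℝ) ^ (1 - γ * (κ' : ℝ) ^ 2 - η)
  have h1 : (Cn u (γ * κ' - η) α (M / 2) : ℝ) ≤ Bn u (γ * κ) α M := by
    exact_mod_cast Cn_le_Bn (by linarith) g2
  have h2 : (Bn u (γ * κ) α M : ℝ) < (M : ℝ) ^ (1 - γ * κ ^ 2 - ε) := hα
  linarith

/-- lower bound for the maximum, in measure -/
lemma lowM (γ a b ε ν : ℝ) (u : ℕ → ℝ) (hu : Adm γ u) (hγ : 0 < γ) (ha : 0 < a) (hab : a < b)
    (hε : 0 < ε) (hν : 0 < ν) :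
    ∀ᶠ M : ℕ in atTop, volume.real (Ico a b ∩ {α | ∀ n ∈ Finset.Icc 1 M, ztv u α n < (M : ℝ) ^ (Real.sqrt γ - ε)}) ≤ ν := by
  have hs : 0 < Real.sqrt γ := Real.sqrt_pos.2 hγ
  have hss : Real.sqrt γ ^ 2 = γ := Real.sq_sqrt hγ.le
  obtain ⟨s, hsd⟩ : ∃ s : ℝ, s = Real.sqrt γ := ⟨_, rfl⟩
  rw [← hsd] at hs hss ⊢
  obtain ⟨δ, hδ, e1, e2, -, -, -⟩ := small5 (A1 := s) (A2 := 1) (A3 := 1) (A4 := 1) (A5 := 1) (B1 := ε)
    (B2 := 1 / 2) (B3 := 1) (B4 := 1) (B5 := 1) hs one_pos one_pos one_pos one_pos hε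
    (by norm_num) one_pos one_pos one_pos
  rw [one_mul] at e2
  obtain ⟨κ, hκ⟩ : ∃ κ : ℝ, κ = (1 - δ) / s := ⟨_, rfl⟩
  have hκ0 : 0 < κ := by
    rw [hκ]
    have : 0 < 1 - δ := by linarith
    positivity
  have h1 : γ * κ ^ 2 = (1 - δ) ^ 2 := by rw [hκ, ← hss]; field_simp
  have h2 : γ * κ = s * (1 - δ) := by rw [hκ, ← hss]; field_simp
  have h3 : γ * κ ^ 2 < 1 := by rw [h1]; nlinarith
  filter_upwards [lowB hMVB hVM1 hVMT hPW hLOW γ a b κ (1 - γ * κ ^ 2) ν u hu hγ ha hab hκ0 h3 (by linarith) hν,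
    eventually_ge_atTop 1] with M g1 g2
  refine le_trans (vol_mono ?_) g1
  intro α hα
  show (Bn u (γ * κ) α M : ℝ) < (M : ℝ) ^ (1 - γ * κ ^ 2 - (1 - γ * κ ^ 2))
  rw [sub_self, Real.rpow_zero]
  have hM1 : (1 : ℝ) ≤ M := by exact_mod_cast g2
  have h4 : Bn u (γ * κ) α M = 0 := by
    unfold Bn
    rw [Set.ncard_eq_zero (Bn_fin u (γ * κ) α M)]
    ext n
    simp only [mem_ofPred_eq, mem_empty_iff_false, iff_false, not_and, not_le]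
    intro hn
    have h5 : ztv u α n < (M : ℝ) ^ (s - ε) := hα n hn
    refine h5.trans_le (Real.rpow_le_rpow_of_exponent_le hM1 ?_)
    rw [h2]
    nlinarith
  rw [h4]
  norm_num

omit hMVB hVM1 hVMT hPW hLOW

end

end

end Run7.h402.FR
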