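import Pool.Agent.Run7.h402.FR.Fin

set_option autoImplicit false

/-!
Freezing along sequences (MP_f9aece_nt), part 16: the upper bounds, and the results almost everywhere.
-/

namespace Run7.h402.FR

open MeasureTheory Set Filter Topology
open Pool.Agent.Y745.LD Pool.Agent.Y931.LD Pool.Agent.Y745.SW Pool.Agent.Y745.UP
open scoped ENNReal

noncomputable section

lemma tend_mono {a b : ℝ} {A B : ℕ → Set ℝ} (h : ∀ᶠ N in atTop, A N ⊆ B N)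
    (hB : Tendsto (fun N => volume (Ico a b ∩ B N)) atTop (𝓝 0)) :
    Tendsto (fun N => volume (Ico a b ∩ A N)) atTop (𝓝 0) := by
  refine tendsto_of_tendsto_of_tendsto_of_le_of_le' tendsto_const_nhds hB (Eventually.of_forall fun _ => zero_le) ?_
  filter_upwards [h] with N hN
  exact measure_mono (inter_subset_inter_right _ hN)

/-- the critical exponent -/
def bc (γ : ℝ) : ℝ := 2 / Real.sqrt γ

lemma bc_pos {γ : ℝ} (hγ : 0 < γ) : 0 < bc γ := div_pos two_pos (Real.sqrt_pos.2 hγ)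

lemma bc_le {γ : ℝ} (hγ : 1 / 4 ≤ γ) : bc γ ≤ 4 := by
  unfold bc
  have h1 : (1 / 2 : ℝ) ≤ Real.sqrt γ := by
    rw [show (1 / 2 : ℝ) = Real.sqrt ((1 / 2) ^ 2) by rw [Real.sqrt_sq (by norm_num)]]
    exact Real.sqrt_le_sqrt (by linarith)
  rw [div_le_iff₀ (by linarith)]
  linarith

lemma bc_sq {γ : ℝ} (hγ : 0 < γ) : 1 + γ * bc γ ^ 2 / 4 = 2 := by
  unfold bc
  have hs : 0 < Real.sqrt γ := Real.sqrt_pos.2 hγ
  have hss : Real.sqrt γ ^ 2 = γ := Real.sq_sqrt hγ.le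
  rw [div_pow, hss]
  field_simp
  norm_num

lemma FE_small {γ β : ℝ} (h : β ≤ bc γ) : FE γ β = 1 + γ * β ^ 2 / 4 := if_pos h

lemma FE_large {γ β : ℝ} (h : bc γ < β) : FE γ β = Real.sqrt γ * β := if_neg (not_le.2 h)

/-- the bound for the power sum of large exponent, from the one of exponent `bc γ` -/
lemma det_large {γ β ε α : ℝ} {u : ℕ → ℝ} {N : ℕ} (hγ : 0 < γ) (h : bc γ ≤ β)
    (hS : SS' u (bc γ) α N ≤ (N : ℝ) ^ (1 + γ * bc γ ^ 2 / 4 + ε * bc γ / β)) :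
    SS' u β α N ≤ (N : ℝ) ^ (Real.sqrt γ * β + ε) := by
  have hb := bc_pos hγ
  have hβ : 0 < β := by linarith
  refine (pow_sum hb h).trans ?_
  have h1 : 0 ≤ SS' u (bc γ) α N := SS'_nonneg _ _ _ _
  refine (Real.rpow_le_rpow h1 hS (by positivity)).trans (le_of_eq ?_)
  rw [← Real.rpow_mul (Nat.cast_nonneg _), bc_sq hγ]
  congr 1
  have hs : 0 < Real.sqrt γ := Real.sqrt_pos.2 hγ
  have h2 : (2 + ε * bc γ / β) * (β / bc γ) = 2 * β / bc γ + ε := by field_simp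
  rw [h2]
  unfold bc
  field_simp

/-- the bound for one term, from the power sum of exponent `bc γ` -/
lemma det_max {γ ε α : ℝ} {u : ℕ → ℝ} {N n : ℕ} (hγ : 0 < γ) (hn : n ∈ Finset.Icc 1 N)
    (hS : SS' u (bc γ) α N ≤ (N : ℝ) ^ (1 + γ * bc γ ^ 2 / 4 + ε * bc γ)) :
    ztv u α n ≤ (N : ℝ) ^ (Real.sqrt γ + ε) := by
  have hb := bc_pos hγ
  refine (term_le hb hn).trans ?_
  have h1 : 0 ≤ SS' u (bc γ) α N := SS'_nonneg _ _ _ _
  refine (Real.rpow_le_rpow h1 hS (by positivity)).trans (le_of_eq ?_)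
  rw [← Real.rpow_mul (Nat.cast_nonneg _), bc_sq hγ]
  congr 1
  have hs : 0 < Real.sqrt γ := Real.sqrt_pos.2 hγ
  have h2 : (2 + ε * bc γ) * (1 / bc γ) = 2 / bc γ + ε := by field_simp
  rw [h2]
  unfold bc
  field_simp

/-- the bound for the number of large values -/
lemma det_count {γ κ ε α : ℝ} {u : ℕ → ℝ} {N : ℕ} (hκ : 0 < κ) (hN : 1 ≤ N)
    (hS : SS' u (2 * κ) α N ≤ (N : ℝ) ^ (1 + γ * (2 * κ) ^ 2 / 4 + ε)) :
    (Bn u (γ * κ) α N : ℝ) ≤ (N : ℝ) ^ (1 - γ * κ ^ 2 + ε) := by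
  classical
  have hN0 : (0 : ℝ) < N := by exact_mod_cast hN
  obtain ⟨F, hF⟩ : ∃ F : Finset ℕ, F = (Finset.Icc 1 N).filter (fun n : ℕ => (N : ℝ) ^ (γ * κ) ≤ ztv u α n) := ⟨_, rfl⟩
  have hcard : Bn u (γ * κ) α N = F.card := by
    unfold Bn
    rw [← Set.ncard_coe_finset]
    congr 1
    ext n
    rw [hF]
    simp
  have h1 : ∑ n ∈ F, ((N : ℝ) ^ (γ * κ)) ^ (2 * κ) ≤ SS' u (2 * κ) α N := by
    refine le_trans (Finset.sum_le_sum fun n hn => ?_) (Finset.sum_le_sum_of_subset_of_nonneg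
      (by rw [hF]; exact Finset.filter_subset _ _) fun n _ _ => Real.rpow_nonneg (ztv_nonneg u α n) _)
    rw [hF, Finset.mem_filter] at hn
    exact Real.rpow_le_rpow (by positivity) hn.2 (by positivity)
  rw [Finset.sum_const, nsmul_eq_mul, ← hcard, ← Real.rpow_mul hN0.le] at h1
  have h2 : (N : ℝ) ^ (1 + γ * (2 * κ) ^ 2 / 4 + ε) = (N : ℝ) ^ (1 - γ * κ ^ 2 + ε) * (N : ℝ) ^ (γ * κ * (2 * κ)) := by
    rw [← Real.rpow_add hN0]
    congr 1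
    ring
  rw [h2] at hS
  exact le_of_mul_le_mul_right (h1.trans hS) (by positivity)

section

variable (hSTRIP : P_STRIP)
include hSTRIP

/-- upper bound for the power sums, in measure -/
lemma upS (γ a b β ε : ℝ) (u : ℕ → ℝ) (hu : Adm γ u) (hγ : 0 < γ) (ha : 0 < a) (hab : a < b) (hβ : 0 < β)
    (hβ4 : β ≤ 4 ∨ 1 / 4 ≤ γ) (hε : 0 < ε) :
    Tendsto (fun N : ℕ => volume (Ico a b ∩ {α | (N : ℝ) ^ (FE γ β + ε) < SS' u β α N})) atTop (𝓝 0) := by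
  rcases le_or_gt β (bc γ) with h | h
  · have h4 : β ≤ 4 := by
      rcases hβ4 with h1 | h1
      · exact h1
      · exact h.trans (bc_le h1)
    rw [FE_small h]
    exact up_meas hSTRIP γ a b β ε u hu hγ ha hab hβ h4 hε
  · have h4 : bc γ ≤ 4 := by
      rcases hβ4 with h1 | h1
      · exact h.le.trans h1
      · exact bc_le h1
    rw [FE_large h]
    have hb := bc_pos hγ
    refine tend_mono ?_ (up_meas hSTRIP γ a b (bc γ) (ε * bc γ / β) u hu hγ ha hab hb h4 (by positivity))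
    refine Eventually.of_forall fun N α hα => ?_
    by_contra hcon
    have hcon' : SS' u (bc γ) α N ≤ (N : ℝ) ^ (1 + γ * bc γ ^ 2 / 4 + ε * bc γ / β) := not_lt.1 hcon
    exact not_lt.2 (det_large hγ h.le hcon') hα

/-- upper bound for the number of large values, in measure -/
lemma upB (γ a b κ ε : ℝ) (u : ℕ → ℝ) (hu : Adm γ u) (hγ : 0 < γ) (ha : 0 < a) (hab : a < b) (hκ : 0 < κ)
    (hκ2 : κ ≤ 2) (hε : 0 < ε) :
    Tendsto (fun N : ℕ => volume (Ico a b ∩ {α | (N : ℝ) ^ (1 - γ * κ ^ 2 + ε) < (Bn u (γ * κ) α N : ℝ)})) atTop (𝓝 0) := by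
  refine tend_mono ?_ (up_meas hSTRIP γ a b (2 * κ) ε u hu hγ ha hab (by positivity) (by linarith) hε)
  filter_upwards [eventually_ge_atTop 1] with N hN α hα
  by_contra hcon
  have hcon' : SS' u (2 * κ) α N ≤ (N : ℝ) ^ (1 + γ * (2 * κ) ^ 2 / 4 + ε) := not_lt.1 hcon
  exact not_lt.2 (det_count hκ hN hcon') hα

/-- upper bound for the maximum, in measure -/
lemma upM (γ a b ε : ℝ) (u : ℕ → ℝ) (hu : Adm γ u) (hγ : 1 / 4 ≤ γ) (ha : 0 < a) (hab : a < b) (hε : 0 < ε) :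
    Tendsto (fun N : ℕ => volume (Ico a b ∩ {α | ∃ n ∈ Finset.Icc 1 N, (N : ℝ) ^ (Real.sqrt γ + ε) < ztv u α n}))
      atTop (𝓝 0) := by
  have hγ0 : 0 < γ := by linarith
  have hb := bc_pos hγ0
  refine tend_mono ?_ (up_meas hSTRIP γ a b (bc γ) (ε * bc γ) u hu hγ0 ha hab hb (bc_le hγ) (by positivity))
  refine Eventually.of_forall fun N α hα => ?_
  by_contra hcon
  have hcon' : SS' u (bc γ) α N ≤ (N : ℝ) ^ (1 + γ * bc γ ^ 2 / 4 + ε * bc γ) := not_lt.1 hcon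
  obtain ⟨n, hn, h1⟩ := hα
  exact not_lt.2 (det_max hγ0 hn hcon') h1

/-- the upper bounds almost everywhere, `β ≤ 4` -/
lemma up_ae_all (γ : ℝ) (u : ℕ → ℝ) (hu : Adm γ u) (hγ : 0 < γ) :
    ∀ᵐ α : ℝ, 0 < α → ∀ β ε : ℝ, 0 < β → β ≤ 4 → 0 < ε →
      ∀ᶠ N : ℕ in atTop, SS' u β α N ≤ (N : ℝ) ^ (1 + γ * β ^ 2 / 4 + ε) := by
  have h1 : ∀ᵐ α : ℝ, 0 < α → ∀ q r : ℚ, 0 < (q : ℝ) → (q : ℝ) ≤ 4 → 0 < (r : ℝ) →
      ∀ᶠ N : ℕ in atTop, SS' u q α N ≤ (N : ℝ) ^ (1 + γ * (q : ℝ) ^ 2 / 4 + r) := by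
    refine ae_pos fun a b ha hab => ?_
    have h2 : ∀ q r : ℚ, ∀ᵐ α : ℝ, α ∈ Ico a b → (0 < (q : ℝ) → (q : ℝ) ≤ 4 → 0 < (r : ℝ) →
      ∀ᶠ N : ℕ in atTop, SS' u q α N ≤ (N : ℝ) ^ (1 + γ * (q : ℝ) ^ 2 / 4 + r)) := by
      intro q r
      by_cases hq : 0 < (q : ℝ) ∧ (q : ℝ) ≤ 4 ∧ 0 < (r : ℝ)
      · filter_upwards [up_ae hSTRIP γ a b q r u hu hγ ha hab hq.1 hq.2.1 hq.2.2] with α hα hαI _ _ _
        exact hα hαI
      · exact Eventually.of_forall fun α _ h3 h4 h5 => absurd ⟨h3, h4, h5⟩ hq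
    have h3 : ∀ᵐ α : ℝ, ∀ q r : ℚ, α ∈ Ico a b → (0 < (q : ℝ) → (q : ℝ) ≤ 4 → 0 < (r : ℝ) →
      ∀ᶠ N : ℕ in atTop, SS' u q α N ≤ (N : ℝ) ^ (1 + γ * (q : ℝ) ^ 2 / 4 + r)) :=
      ae_all_iff.2 fun q => ae_all_iff.2 fun r => h2 q r
    filter_upwards [h3] with α hα hαI q r hq hq4 hr
    exact hα q r hαI hq hq4 hr
  filter_upwards [h1] with α hα hα0 β ε hβ hβ4 hε
  obtain ⟨q, hq1, hq2, hq3⟩ : ∃ q : ℚ, β ≤ (q : ℝ) ∧ (q : ℝ) ≤ 4 ∧ γ * (q : ℝ) ^ 2 / 4 < γ * β ^ 2 / 4 + ε / 4 := by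
    rcases hβ4.lt_or_eq with h2 | h2
    · have hc : Continuous (fun x : ℝ => γ * x ^ 2 / 4) := by fun_prop
      have h3 : ∀ᶠ x in 𝓝[>] β, γ * x ^ 2 / 4 < γ * β ^ 2 / 4 + ε / 4 :=
        (hc.tendsto β).eventually (gt_mem_nhds (by linarith)) |>.filter_mono nhdsWithin_le_nhds
      obtain ⟨z, hz, hz2⟩ := (mem_nhdsGT_iff_exists_Ioo_subset).1 h3
      obtain ⟨q, hq1, hq2⟩ := exists_rat_btwn (show β < min z 4 from lt_min hz h2)
      exact ⟨q, hq1.le, (hq2.le.trans (min_le_right _ _)), hz2 ⟨hq1, hq2.trans_le (min_le_left _ _)⟩⟩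
    · refine ⟨4, by rw [h2]; norm_num, by norm_num, ?_⟩
      rw [h2]
      push_cast
      linarith
  obtain ⟨r, hr1, hr2⟩ := exists_rat_btwn (show (0 : ℝ) < ε / 4 by linarith)
  have h2 := hα hα0 q r (by linarith) hq2 hr1
  have h3 := npow_tendsto (show 0 < ε / 2 by linarith)
  filter_upwards [h2, h3.eventually_ge_atTop 2, eventually_ge_atTop 1] with N h4 h5 h6
  have hN1 : (1 : ℝ) ≤ N := by exact_mod_cast h6
  have hN0 : (0 : ℝ) < N := by linarith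
  have h7 : (N : ℝ) ≤ (N : ℝ) ^ (1 + γ * β ^ 2 / 4 + ε / 2) := by
    calc (N : ℝ) = (N : ℝ) ^ (1 : ℝ) := (Real.rpow_one _).symm
      _ ≤ _ := Real.rpow_le_rpow_of_exponent_le hN1 (by
        have : 0 ≤ γ * β ^ 2 / 4 := by positivity
        linarith)
  have h8 : (N : ℝ) ^ (1 + γ * (q : ℝ) ^ 2 / 4 + r) ≤ (N : ℝ) ^ (1 + γ * β ^ 2 / 4 + ε / 2) :=
    Real.rpow_le_rpow_of_exponent_le hN1 (by linarith)
  calc SS' u β α N ≤ N + SS' u q α N := pow_sum2 hβ hq1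
    _ ≤ 2 * (N : ℝ) ^ (1 + γ * β ^ 2 / 4 + ε / 2) := by linarith
    _ ≤ (N : ℝ) ^ (ε / 2) * (N : ℝ) ^ (1 + γ * β ^ 2 / 4 + ε / 2) := mul_le_mul_of_nonneg_right h5 (by positivity)
    _ = _ := by
        rw [← Real.rpow_add hN0]
        congr 1
        ring

/-- the upper bounds almost everywhere -/
lemma up_ae_FE (γ : ℝ) (u : ℕ → ℝ) (hu : Adm γ u) (hγ : 0 < γ) :
    ∀ᵐ α : ℝ, 0 < α → (∀ β ε : ℝ, 0 < β → (β ≤ 4 ∨ 1 / 4 ≤ γ) → 0 < ε →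
      ∀ᶠ N : ℕ in atTop, SS' u β α N ≤ (N : ℝ) ^ (FE γ β + ε)) ∧
      (1 / 4 ≤ γ → ∀ ε : ℝ, 0 < ε → ∀ᶠ n : ℕ in atTop, ztv u α n ≤ (n : ℝ) ^ (Real.sqrt γ + ε)) := by
  have hb := bc_pos hγ
  filter_upwards [up_ae_all hSTRIP γ u hu hγ] with α hα hα0
  refine ⟨fun β ε hβ hβ4 hε => ?_, fun hγ4 ε hε => ?_⟩
  · rcases le_or_gt β (bc γ) with h | h
    · have h4 : β ≤ 4 := by
        rcases hβ4 with h1 | h1
        · exact h1
        · exact h.trans (bc_le h1)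
      rw [FE_small h]
      exact hα hα0 β ε hβ h4 hε
    · have h4 : bc γ ≤ 4 := by
        rcases hβ4 with h1 | h1
        · exact h.le.trans h1
        · exact bc_le h1
      rw [FE_large h]
      filter_upwards [hα hα0 (bc γ) (ε * bc γ / β) hb h4 (by positivity)] with N hN
      exact det_large hγ h.le hN
  · filter_upwards [hα hα0 (bc γ) (ε * bc γ) hb (bc_le hγ4) (by positivity), eventually_ge_atTop 1] with N hN hN1
    exact det_max hγ (Finset.mem_Icc.2 ⟨hN1, le_rfl⟩) hN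

end

section

variable (hMVB : P_MVB) (hVM1 : P_VM1) (hVMT : P_VMT) (hPW : P_PW) (hLOW : P_LOW)
include hMVB hVM1 hVMT hPW hLOW

/-- the lower bounds almost everywhere -/
lemma low_ae (γ : ℝ) (u : ℕ → ℝ) (hu : Adm γ u) (hγ : 0 < γ) :
    ∀ᵐ α : ℝ, 0 < α → (∀ β ε : ℝ, 0 < β → 0 < ε → ∃ᶠ N : ℕ in atTop, (N : ℝ) ^ (FE γ β - ε) ≤ SS' u β α N) ∧
      (∀ ε : ℝ, 0 < ε → ∃ᶠ n : ℕ in atTop, (n : ℝ) ^ (Real.sqrt γ - ε) ≤ ztv u α n) := by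
  have h1 : ∀ᵐ α : ℝ, 0 < α → ∀ κ η : ℚ, 0 < (κ : ℝ) → γ * (κ : ℝ) ^ 2 < 1 → 0 < (η : ℝ) →
      ∃ᶠ N : ℕ in atTop, α ∉ {α | (Cn u (γ * κ - η) α N : ℝ) < (N : ℝ) ^ (1 - γ * (κ : ℝ) ^ 2 - η)} := by
    refine ae_pos fun a b ha hab => ?_
    have h2 : ∀ κ η : ℚ, ∀ᵐ α : ℝ, α ∈ Ico a b → (0 < (κ : ℝ) → γ * (κ : ℝ) ^ 2 < 1 → 0 < (η : ℝ) →
      ∃ᶠ N : ℕ in atTop, α ∉ {α | (Cn u (γ * κ - η) α N : ℝ) < (N : ℝ) ^ (1 - γ * (κ : ℝ) ^ 2 - η)}) := by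
      intro κ η
      by_cases hq : 0 < (κ : ℝ) ∧ γ * (κ : ℝ) ^ 2 < 1 ∧ 0 < (η : ℝ)
      · have h3 := freq_ae (a := a) (b := b)
          (A := fun N : ℕ => {α : ℝ | (Cn u (γ * κ - η) α N : ℝ) < (N : ℝ) ^ (1 - γ * (κ : ℝ) ^ 2 - η)})
          (fun ν hν => levels' hMVB hVM1 hVMT hPW hLOW γ a b κ η ν u hu hγ ha hab hq.1 hq.2.1 hq.2.2 hν)
        filter_upwards [h3] with α hα hαI _ _ _
        exact hα hαI
      · exact Eventually.of_forall fun α _ h3 h4 h5 => absurd ⟨h3, h4, h5⟩ hq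
    have h3 : ∀ᵐ α : ℝ, ∀ κ η : ℚ, α ∈ Ico a b → (0 < (κ : ℝ) → γ * (κ : ℝ) ^ 2 < 1 → 0 < (η : ℝ) →
      ∃ᶠ N : ℕ in atTop, α ∉ {α | (Cn u (γ * κ - η) α N : ℝ) < (N : ℝ) ^ (1 - γ * (κ : ℝ) ^ 2 - η)}) :=
      ae_all_iff.2 fun q => ae_all_iff.2 fun r => h2 q r
    filter_upwards [h3] with α hα hαI κ η h4 h5 h6
    exact hα κ η hαI h4 h5 h6
  filter_upwards [h1] with α hα hα0
  have hα' := hα hα0
  refine ⟨fun β ε hβ hε => ?_, fun ε hε => ?_⟩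
  · obtain ⟨ε', hε'⟩ : ∃ ε' : ℝ, ε' = min ε 1 := ⟨_, rfl⟩
    have hε'0 : 0 < ε' := by rw [hε']; exact lt_min hε one_pos
    have hε'1 : ε' ≤ 1 := by rw [hε']; exact min_le_right _ _
    have hε'ε : ε' ≤ ε := by rw [hε']; exact min_le_left _ _
    obtain ⟨κ, hκ, hγκ, hF⟩ := kap (ε := ε' / 2) hγ hβ (by linarith)
    obtain ⟨δ, hδ, e1, e2, -, -, -⟩ := small5 (A1 := 1 + β) (A2 := 1) (A3 := 1) (A4 := 1) (A5 := 1) (B1 := ε' / 4)
      (B2 := γ * κ) (B3 := 1) (B4 := 1) (B5 := 1) (by positivity) one_pos one_pos one_pos one_pos (by positivity)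
      (by positivity) one_pos one_pos one_pos
    rw [one_mul] at e2
    obtain ⟨η, hη, hηδ⟩ := exists_rat_btwn hδ
    have e1' : (1 + β) * (η : ℝ) ≤ ε' / 4 := le_trans (mul_le_mul_of_nonneg_left hηδ.le (by positivity)) e1
    obtain ⟨e, he⟩ : ∃ e : ℝ, e = (1 - γ * (κ : ℝ) ^ 2 - η) + (γ * κ - η) * β := ⟨_, rfl⟩
    have heF : FE γ β - ε' < e := by
      rw [he]
      nlinarith
    have hFE := one_le_FE hγ hβ
    obtain ⟨M0, hM0⟩ := eventually_atTop.1 (half (e := e) (e' := FE γ β - ε') (by linarith) heF)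
    rw [frequently_atTop]
    intro K
    obtain ⟨N, hN, hN2⟩ := (frequently_atTop.1 (hα' κ η hκ hγκ hη)) (K + M0 + 1)
    refine ⟨2 * N, by omega, ?_⟩
    have hcon : (N : ℝ) ^ (1 - γ * (κ : ℝ) ^ 2 - η) ≤ (Cn u (γ * κ - η) α N : ℝ) := not_lt.1 hN2
    have h2 := det1 (β := β) (show 1 ≤ N by omega) (by linarith) hβ hcon
    rw [← he] at h2
    have h3 := hM0 (2 * N) (by omega)
    rw [Nat.mul_div_cancel_left N (by norm_num)] at h3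
    have hM1 : (1 : ℝ) ≤ ((2 * N : ℕ) : ℝ) := by exact_mod_cast (by omega : 1 ≤ 2 * N)
    have h4 : ((2 * N : ℕ) : ℝ) ^ (FE γ β - ε) ≤ ((2 * N : ℕ) : ℝ) ^ (FE γ β - ε') :=
      Real.rpow_le_rpow_of_exponent_le hM1 (by linarith)
    linarith
  · have hs : 0 < Real.sqrt γ := Real.sqrt_pos.2 hγ
    have hss : Real.sqrt γ ^ 2 = γ := Real.sq_sqrt hγ.le
    obtain ⟨s, hsd⟩ : ∃ s : ℝ, s = Real.sqrt γ := ⟨_, rfl⟩
    rw [← hsd] at hs hss ⊢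
    obtain ⟨κ, hκ1, hκ2⟩ := exists_rat_btwn (show max 0 ((s - ε / 2) / γ) < 1 / s by
      refine max_lt (by positivity) ?_
      rw [div_lt_div_iff₀ hγ hs, ← hss]
      nlinarith)
    have hκ0 : (0 : ℝ) < κ := (le_max_left _ _).trans_lt hκ1
    have hκs : s - ε / 2 < γ * κ := by
      have := (le_max_right 0 ((s - ε / 2) / γ)).trans_lt hκ1
      rw [div_lt_iff₀ hγ] at this
      linarith
    rw [lt_div_iff₀ hs] at hκ2
    have hγκ : γ * (κ : ℝ) ^ 2 < 1 := by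
      rw [← hss]
      have h2 : 0 < (κ : ℝ) * s := by positivity
      nlinarith
    obtain ⟨δ, hδ, e1, e2, -, -, -⟩ := small5 (A1 := 1) (A2 := 1) (A3 := 1) (A4 := 1) (A5 := 1) (B1 := ε / 2)
      (B2 := 1 - γ * (κ : ℝ) ^ 2) (B3 := 1) (B4 := 1) (B5 := 1) one_pos one_pos one_pos one_pos one_pos (by positivity)
      (by linarith) one_pos one_pos one_pos
    rw [one_mul] at e1 e2
    obtain ⟨η, hη, hηδ⟩ := exists_rat_btwn hδ
    rw [frequently_atTop]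
    intro K
    obtain ⟨N, hN, hN2⟩ := (frequently_atTop.1 (hα' κ η hκ0 hγκ hη)) (K + 1)
    have hcon : (N : ℝ) ^ (1 - γ * (κ : ℝ) ^ 2 - η) ≤ (Cn u (γ * κ - η) α N : ℝ) := not_lt.1 hN2
    have hN0 : (0 : ℝ) < N := by exact_mod_cast (by omega : 0 < N)
    have hpos : (0 : ℝ) < Cn u (γ * κ - η) α N := lt_of_lt_of_le (by positivity) hcon
    have hpos' : 0 < Cn u (γ * κ - η) α N := by exact_mod_cast hpos
    unfold Cn at hpos'
    obtain ⟨n, hn⟩ := Finset.card_pos.1 hpos'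
    rw [Finset.mem_filter, Finset.mem_Ioc] at hn
    refine ⟨n, by omega, ?_⟩
    have hn1 : (1 : ℝ) ≤ n := by exact_mod_cast (by omega : 1 ≤ n)
    refine le_trans (Real.rpow_le_rpow_of_exponent_le hn1 ?_) hn.2
    linarith

end

end

end Run7.h402.FR
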