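import Pool.Agent.Run7.h402.FR.Pair

set_option autoImplicit false

/-!
Freezing along sequences (MP_f9aece_nt), part 8: upper integrals, cell by cell.
-/

namespace Run7.h402.FR

open MeasureTheory Set Filter Topology
open scoped ENNReal

noncomputable section

lemma lint_scale {p : ℝ} (hp : 0 < p) (a b : ℝ) (f : ℝ → ℝ≥0∞) :
    ENNReal.ofReal p * ∫⁻ α in Ico a b, f (p * α) = ∫⁻ x in Ico (p * a) (p * b), f x := by
  have h := lintegral_image_eq_lintegral_abs_deriv_mul (s := Ico a b) (f := fun α => p * α) (f' := fun _ => p)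
    measurableSet_Ico (fun x _ => by
      have := ((hasDerivAt_id x).const_mul p).hasDerivWithinAt (s := Ico a b)
      simpa using this) (fun x _ y _ hxy => mul_left_cancel₀ hp.ne' hxy) f
  rw [image_mul_left_Ico hp] at h
  rw [h, abs_of_pos hp, lintegral_const_mul' _ _ ENNReal.ofReal_ne_top]

/-- the cell with number `k` -/
def Cl (k : ℕ) : Set ℝ := Ico ((k : ℝ) * Real.log 2) (((k : ℝ) + 1) * Real.log 2)

lemma mem_Cl {x : ℝ} (hx : 0 ≤ x) (k : ℕ) : x ∈ Cl k ↔ kk x = k := by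
  rw [kk_iff hx]
  rfl

lemma lint_exp (k : ℕ) (h : ℝ → ℝ≥0∞) :
    ENNReal.ofReal (2 ^ k) * ∫⁻ x in Cl k, h (Real.exp x) ≤ ∫⁻ t in Icc (2 ^ k : ℝ) (2 * 2 ^ k), h t := by
  have h1 := lintegral_image_eq_lintegral_abs_deriv_mul (s := Cl k) (f := Real.exp) (f' := Real.exp)
    measurableSet_Ico (fun x _ => (Real.hasDerivAt_exp x).hasDerivWithinAt) (fun x _ y _ hxy => Real.exp_injective hxy) h
  have h2 : Real.exp '' Cl k ⊆ Icc (2 ^ k : ℝ) (2 * 2 ^ k) := by
    rintro _ ⟨x, hx, rfl⟩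
    have h4 : (2 : ℝ) * 2 ^ k = Real.exp (((k : ℝ) + 1) * Real.log 2) := by
      rw [two_pow_exp, add_mul, one_mul, Real.exp_add, Real.exp_log (by norm_num), mul_comm]
    constructor
    · rw [two_pow_exp]
      exact Real.exp_le_exp.2 hx.1
    · rw [h4]
      exact Real.exp_le_exp.2 hx.2.le
  refine le_trans ?_ (lintegral_mono_set h2)
  rw [h1, ← lintegral_const_mul' _ _ ENNReal.ofReal_ne_top]
  refine setLIntegral_mono' measurableSet_Ico fun x hx => ?_
  refine mul_le_mul_left ?_ _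
  refine ENNReal.ofReal_le_ofReal ?_
  rw [abs_of_pos (Real.exp_pos _), two_pow_exp]
  exact Real.exp_le_exp.2 hx.1

lemma lint_cells {u v M : ℝ} (hu : 0 ≤ u) (huv : u ≤ v) (hM : 0 ≤ M) (f : ℝ → ℝ≥0∞)
    (h : ∀ k : ℕ, kk u ≤ k → k ≤ kk v → ∫⁻ x in Cl k, f x ≤ ENNReal.ofReal M) :
    ∫⁻ x in Ico u v, f x ≤ ENNReal.ofReal ((2 * (v - u) + 2) * M) := by
  have hmono : ∀ x y : ℝ, x ≤ y → kk x ≤ kk y := by
    intro x y hxy
    unfold kk
    exact Nat.floor_le_floor (div_le_div_of_nonneg_right hxy log2_pos.le)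
  have h1 : Ico u v ⊆ ⋃ k ∈ Finset.Icc (kk u) (kk v), Cl k := by
    intro x hx
    rw [mem_iUnion₂]
    refine ⟨kk x, Finset.mem_Icc.2 ⟨hmono _ _ hx.1, hmono _ _ hx.2.le⟩, ?_⟩
    rw [mem_Cl (hu.trans hx.1)]
  refine (lintegral_mono_set h1).trans ?_
  rw [lintegral_biUnion_finset]
  rotate_left
  · intro i _ j _ hij
    rw [Function.onFun, Set.disjoint_left]
    intro x hxi hxj
    have hx0 : 0 ≤ x := le_trans (by have := log2_pos; positivity) hxi.1
    rw [mem_Cl hx0] at hxi hxj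
    exact hij (hxi.symm.trans hxj)
  · intro k _
    exact measurableSet_Ico
  refine (Finset.sum_le_sum fun k hk => h k (Finset.mem_Icc.1 hk).1 (Finset.mem_Icc.1 hk).2).trans ?_
  rw [Finset.sum_const, nsmul_eq_mul, ← ENNReal.ofReal_natCast, ← ENNReal.ofReal_mul (Nat.cast_nonneg _)]
  refine ENNReal.ofReal_le_ofReal ?_
  refine mul_le_mul_of_nonneg_right ?_ hM
  rw [Nat.card_Icc]
  have h2 : kk u ≤ kk v + 1 := (hmono _ _ huv).trans (Nat.le_succ _)
  rw [Nat.cast_sub h2]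
  push_cast
  have h3 : (kk v : ℝ) ≤ v / Real.log 2 := Nat.floor_le (div_nonneg (hu.trans huv) log2_pos.le)
  have h4 : u / Real.log 2 < (kk u : ℝ) + 1 := Nat.lt_floor_add_one _
  have h5 : v / Real.log 2 - u / Real.log 2 ≤ 2 * (v - u) := by
    rw [← sub_div, div_le_iff₀ log2_pos]
    have := Real.log_two_gt_d9
    nlinarith
  linarith

/-- from a bound over the cells to a bound for the integral of `f (p * α)` -/
lemma lint_seq {p a b M x0 : ℝ} (hp : 1 ≤ p) (ha : 0 < a) (hab : a ≤ b) (hM : 0 ≤ M) (hx : x0 ≤ p * a)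
    (f : ℝ → ℝ≥0∞) (h : ∀ k : ℕ, x0 ≤ ((k : ℝ) + 1) * Real.log 2 → (k : ℝ) * Real.log 2 ≤ p * b →
      ∫⁻ x in Cl k, f x ≤ ENNReal.ofReal M) :
    ∫⁻ α in Ico a b, f (p * α) ≤ ENNReal.ofReal ((2 * (b - a) + 2) * M) := by
  have hp0 : 0 < p := by linarith
  have h1 := lint_scale hp0 a b f
  have h2 : ∫⁻ x in Ico (p * a) (p * b), f x ≤ ENNReal.ofReal ((2 * (p * b - p * a) + 2) * M) := by
    refine lint_cells (by positivity) (mul_le_mul_of_nonneg_left hab hp0.le) hM f ?_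
    intro k hk1 hk2
    refine h k ?_ ?_
    · have h3 : p * a / Real.log 2 < (kk (p * a) : ℝ) + 1 := Nat.lt_floor_add_one _
      have h4 : (kk (p * a) : ℝ) ≤ k := by exact_mod_cast hk1
      rw [div_lt_iff₀ log2_pos] at h3
      have h5 : ((kk (p * a) : ℝ) + 1) * Real.log 2 ≤ ((k : ℝ) + 1) * Real.log 2 :=
        mul_le_mul_of_nonneg_right (by linarith) log2_pos.le
      linarith
    · have h3 : (kk (p * b) : ℝ) ≤ p * b / Real.log 2 :=
        Nat.floor_le (div_nonneg (mul_nonneg hp0.le (by linarith)) log2_pos.le)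
      have h4 : (k : ℝ) ≤ kk (p * b) := by exact_mod_cast hk2
      rw [le_div_iff₀ log2_pos] at h3
      have h5 : (k : ℝ) * Real.log 2 ≤ (kk (p * b) : ℝ) * Real.log 2 :=
        mul_le_mul_of_nonneg_right h4 log2_pos.le
      linarith
  rw [← h1] at h2
  have h3 : ENNReal.ofReal ((2 * (p * b - p * a) + 2) * M) ≤
      ENNReal.ofReal p * ENNReal.ofReal ((2 * (b - a) + 2) * M) := by
    rw [← ENNReal.ofReal_mul hp0.le]
    refine ENNReal.ofReal_le_ofReal ?_
    have h4 : 2 * (p * b - p * a) + 2 ≤ p * (2 * (b - a) + 2) := by nlinarith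
    calc (2 * (p * b - p * a) + 2) * M ≤ (p * (2 * (b - a) + 2)) * M := mul_le_mul_of_nonneg_right h4 hM
      _ = _ := by ring
  have h4 : ENNReal.ofReal p ≠ 0 := by
    rw [Ne, ENNReal.ofReal_eq_zero, not_le]
    exact hp0
  exact (ENNReal.mul_le_mul_iff_right h4 ENNReal.ofReal_ne_top).1 (h2.trans h3)

end

end Run7.h402.FR
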