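import Pool.Agent.Run7.h402.FR.One
import Pool.Agent.Run7.h402.FR.Lint

set_option autoImplicit false

/-!
Freezing along sequences (MP_f9aece_nt), part 9: the good set on the whole line, in the variable `x = log t`.
-/

namespace Run7.h402.FR

open MeasureTheory Set Filter Topology
open Pool.Agent.Y745.LD Pool.Agent.Y931.LD Pool.Agent.Y745.SW
open scoped ENNReal

noncomputable section

/-- the good set: where `ζ` is large and the weight is small -/
theorem glob (hMVB : P_MVB) (hVM1 : P_VM1) (hVMT : P_VMT) (hPW : P_PW) (hLOW : P_LOW) (κ δ : ℝ) (hκ : 0 < κ)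
    (hδ : 0 < δ) (hδκ : (κ + 4) * δ < κ) : ∃ c A : ℝ, 0 < c ∧ c < 1 ∧ 0 ≤ A ∧ ∃ Gd : Set ℝ, MeasurableSet Gd ∧
      ∃ x0 : ℝ, 1 ≤ x0 ∧
      (∀ x ∈ Gd, x0 ≤ x → UU κ c A x ≤ x ^ (κ ^ 2 + (2 * κ + 1) * δ) ∧
        x ^ (κ - (κ + 4) * δ) ≤ ‖riemannZeta (1 / 2 + (Real.exp x : ℝ) * Complex.I)‖) ∧
      ∀ k : ℕ, x0 ≤ ((k : ℝ) + 1) * Real.log 2 →
        ∫⁻ x in Cl k, Gdᶜ.indicator (fun x => ENNReal.ofReal (UU κ c A x)) x ≤ ENNReal.ofReal (3 * δ) := by
  obtain ⟨c, A, hc, hc1, hA, h⟩ := one hMVB hVM1 hVMT hPW hLOW κ δ hκ hδ (by nlinarith)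
  obtain ⟨T0, hT0⟩ := eventually_atTop.1 h
  have hT0' : ∀ k : ℕ, ∃ B : Set ℝ, MeasurableSet B ∧ (T0 ≤ (2 : ℝ) ^ k → B ⊆ Icc ((2 : ℝ) ^ k) (2 * 2 ^ k) ∧
      (∫ t in B, V κ c A (2 ^ k) t) ≤ 3 * δ * 2 ^ k * Dg κ c A (2 ^ k) ∧
        ∀ t ∈ Icc ((2 : ℝ) ^ k) (2 * 2 ^ k), t ∉ B →
          V κ c A (2 ^ k) t ≤ Dg κ c A (2 ^ k) * Real.exp ((κ ^ 2 + (2 * κ + 1) * δ) * LL (2 ^ k)) ∧
          Real.exp ((κ - (κ + 3) * δ) * LL (2 ^ k)) ≤ ‖riemannZeta (1 / 2 + t * Complex.I)‖) := by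
    intro k
    by_cases hk : T0 ≤ (2 : ℝ) ^ k
    · obtain ⟨B, h1, h2, h3, h4⟩ := hT0 _ hk
      exact ⟨B, h1, fun _ => ⟨h2, h3, h4⟩⟩
    · exact ⟨∅, MeasurableSet.empty, fun h' => absurd h' hk⟩
  choose B hBm hB using hT0'
  refine ⟨c, A, hc, hc1, hA, {x | Real.exp x ∉ B (kk x)}, ?_, ?_⟩
  · have h1 : {x | Real.exp x ∉ B (kk x)}ᶜ = ⋃ k : ℕ, ({x | kk x = k} ∩ Real.exp ⁻¹' (B k)) := by
      ext x
      simp only [mem_compl_iff, mem_setOf_eq, not_not, mem_iUnion, mem_inter_iff, mem_preimage]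
      constructor
      · intro hx
        exact ⟨kk x, rfl, hx⟩
      · rintro ⟨k, hk, hx⟩
        rw [hk]
        exact hx
    rw [← MeasurableSet.compl_iff, h1]
    refine MeasurableSet.iUnion fun k => ?_
    exact (kk_measurable (measurableSet_singleton k)).inter (Real.measurable_exp (hBm k))
  obtain ⟨η, hη⟩ : ∃ η : ℝ, η = κ - (κ + 3) * δ := ⟨_, rfl⟩
  have hη0 : 0 < η := by rw [hη]; nlinarith
  refine ⟨Real.log (2 * (|T0| + 1)) + 2 * Real.log 2 + Real.exp (η * Real.log 2 / δ) + 1, ?_, ?_, ?_⟩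
  · have h1 : 0 ≤ Real.log (2 * (|T0| + 1)) := Real.log_nonneg (by have := abs_nonneg T0; linarith)
    have := log2_pos
    have := Real.exp_pos (η * Real.log 2 / δ)
    linarith
  · intro x hx hx0
    have h1 : 0 ≤ Real.log (2 * (|T0| + 1)) := Real.log_nonneg (by have := abs_nonneg T0; linarith)
    have hl2 := log2_pos
    have he := Real.exp_pos (η * Real.log 2 / δ)
    have hx1 : 1 ≤ x := by linarith
    have hxp : 0 < x := by linarith
    obtain ⟨k, hk⟩ : ∃ k : ℕ, k = kk x := ⟨_, rfl⟩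
    have hkk := (kk_iff hxp.le k).1 hk.symm
    have hxk : Real.exp x ∉ B k := by
      rw [hk]
      exact hx
    have e1 : (2 : ℝ) ^ k ≤ Real.exp x := by
      rw [two_pow_exp]
      exact Real.exp_le_exp.2 hkk.1
    have h4 : (2 : ℝ) * 2 ^ k = Real.exp (((k : ℝ) + 1) * Real.log 2) := by
      rw [two_pow_exp, add_mul, one_mul, Real.exp_add, Real.exp_log (by norm_num), mul_comm]
    have e2 : Real.exp x ≤ 2 * 2 ^ k := by
      rw [h4]
      exact Real.exp_le_exp.2 hkk.2.le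
    have hTk : T0 ≤ (2 : ℝ) ^ k := by
      have h7 : 2 * (|T0| + 1) ≤ Real.exp x := by
        rw [← Real.log_le_iff_le_exp (by positivity)]
        linarith
      have := le_abs_self T0
      linarith
    obtain ⟨-, -, h5⟩ := hB k hTk
    obtain ⟨h6, h7⟩ := h5 _ ⟨e1, e2⟩ hxk
    have hT1 : (1 : ℝ) ≤ 2 ^ k := one_le_pow₀ (by norm_num)
    have hD := one_le_Dg (κ := κ) (c := c) (A := A) (Real.log_nonneg hT1)
    have hD0 : 0 < Dg κ c A (2 ^ k) := by linarith
    have hk2 : x / 2 ≤ (k : ℝ) * Real.log 2 := by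
      have : x < (k : ℝ) * Real.log 2 + Real.log 2 := by linarith [hkk.2]
      linarith
    have hkp : 0 < (k : ℝ) * Real.log 2 := by linarith
    have hLL : LL (2 ^ k) = Real.log ((k : ℝ) * Real.log 2) := by
      unfold LL
      rw [Real.log_pow]
    have hLu : LL (2 ^ k) ≤ Real.log x := by
      rw [hLL]
      exact Real.log_le_log hkp hkk.1
    have hLl : Real.log x - Real.log 2 ≤ LL (2 ^ k) := by
      rw [hLL, ← Real.log_div hxp.ne' (by norm_num)]
      exact Real.log_le_log (by positivity) hk2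
    constructor
    · unfold UU
      rw [← hk]
      unfold GG
      rw [div_le_iff₀ hD0, mul_comm]
      refine h6.trans (mul_le_mul_of_nonneg_left ?_ hD0.le)
      rw [Real.rpow_def_of_pos hxp, mul_comm (Real.log x)]
      refine Real.exp_le_exp.2 ?_
      exact mul_le_mul_of_nonneg_left hLu (by positivity)
    · refine le_trans ?_ h7
      rw [Real.rpow_def_of_pos hxp, mul_comm (Real.log x), ← hη]
      refine Real.exp_le_exp.2 ?_
      have h8 : η * (Real.log x - Real.log 2) ≤ η * LL (2 ^ k) := mul_le_mul_of_nonneg_left hLl hη0.le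
      have h9 : η * Real.log 2 / δ ≤ Real.log x := by
        rw [Real.le_log_iff_exp_le hxp]
        linarith
      rw [div_le_iff₀ hδ] at h9
      have h10 : κ - (κ + 4) * δ = η - δ := by rw [hη]; ring
      rw [h10]
      nlinarith
  · intro k hk
    have h1 : 0 ≤ Real.log (2 * (|T0| + 1)) := Real.log_nonneg (by have := abs_nonneg T0; linarith)
    have hl2 := log2_pos
    have he := Real.exp_pos (η * Real.log 2 / δ)
    have hTk : T0 ≤ (2 : ℝ) ^ k := by
      have h7 : 2 * (|T0| + 1) ≤ 2 * 2 ^ k := by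
        have h4 : (2 : ℝ) * 2 ^ k = Real.exp (((k : ℝ) + 1) * Real.log 2) := by
          rw [two_pow_exp, add_mul, one_mul, Real.exp_add, Real.exp_log (by norm_num), mul_comm]
        rw [h4, ← Real.log_le_iff_le_exp (by positivity)]
        linarith
      have := le_abs_self T0
      linarith
    obtain ⟨hBsub, hBint, -⟩ := hB k hTk
    have hT1 : (1 : ℝ) ≤ 2 ^ k := one_le_pow₀ (by norm_num)
    have hT0p : (0 : ℝ) < 2 ^ k := by positivity
    have hD := one_le_Dg (κ := κ) (c := c) (A := A) (Real.log_nonneg hT1)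
    have hD0 : 0 < Dg κ c A (2 ^ k) := by linarith
    have h2 : ∫⁻ x in Cl k, {x | Real.exp x ∉ B (kk x)}ᶜ.indicator (fun x => ENNReal.ofReal (UU κ c A x)) x =
        ∫⁻ x in Cl k, (B k).indicator (fun t => ENNReal.ofReal (V κ c A (2 ^ k) t / Dg κ c A (2 ^ k))) (Real.exp x) := by
      refine setLIntegral_congr_fun measurableSet_Ico ?_
      intro x hx
      have hx0 : 0 ≤ x := le_trans (by positivity) hx.1
      have hkx : kk x = k := (mem_Cl hx0 k).1 hx
      show {x | Real.exp x ∉ B (kk x)}ᶜ.indicator (fun x => ENNReal.ofReal (UU κ c A x)) x =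
        (B k).indicator (fun t => ENNReal.ofReal (V κ c A (2 ^ k) t / Dg κ c A (2 ^ k))) (Real.exp x)
      by_cases hxB : Real.exp x ∈ B k
      · rw [indicator_of_mem hxB, indicator_of_mem]
        · unfold UU
          rw [hkx]
          rfl
        · simp only [mem_compl_iff, mem_setOf_eq, not_not, hkx]
          exact hxB
      · rw [indicator_of_notMem hxB, indicator_of_notMem]
        simp only [mem_compl_iff, mem_setOf_eq, not_not, hkx]
        exact hxB
    rw [h2]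
    have h3 := lint_exp k ((B k).indicator (fun t => ENNReal.ofReal (V κ c A (2 ^ k) t / Dg κ c A (2 ^ k))))
    have h4 : ∫⁻ t in Icc (2 ^ k : ℝ) (2 * 2 ^ k), (B k).indicator (fun t => ENNReal.ofReal (V κ c A (2 ^ k) t / Dg κ c A (2 ^ k))) t ≤
        ENNReal.ofReal (2 ^ k) * ENNReal.ofReal (3 * δ) := by
      rw [setLIntegral_indicator (hBm k), inter_eq_left.2 hBsub]
      have h5 : IntegrableOn (fun t => V κ c A (2 ^ k) t / Dg κ c A (2 ^ k)) (B k) := by
        have h6 : Continuous (fun t => V κ c A (2 ^ k) t / Dg κ c A (2 ^ k)) := (V_cont' κ c A (2 ^ k)).div_const _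
        exact (h6.continuousOn.integrableOn_compact isCompact_Icc).mono_set hBsub
      rw [← ofReal_integral_eq_lintegral_ofReal h5
        (Filter.Eventually.of_forall fun t => div_nonneg (V_nonneg' _ _ _ _ _) hD0.le), ← ENNReal.ofReal_mul hT0p.le]
      refine ENNReal.ofReal_le_ofReal ?_
      rw [integral_div, div_le_iff₀ hD0]
      refine hBint.trans (le_of_eq ?_)
      ring
    have h5 : ENNReal.ofReal ((2 : ℝ) ^ k) ≠ 0 := by
      rw [Ne, ENNReal.ofReal_eq_zero, not_le]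
      exact hT0p
    exact (ENNReal.mul_le_mul_iff_right h5 ENNReal.ofReal_ne_top).1 (h3.trans h4)

end

end Run7.h402.FR
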