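import Pool.Agent.Run7.h402.FR.Cell

set_option autoImplicit false

/-!
Freezing along sequences (MP_f9aece_nt), part 4: the weight on the whole line, in the variable `x = log t`.
-/

namespace Run7.h402.FR

open MeasureTheory intervalIntegral Set Filter Topology
open Pool.Agent.Y745.LD Pool.Agent.Y931.LD

noncomputable section

/-- the number of the dyadic cell of `exp x` -/
def kk (x : ℝ) : ℕ := ⌊x / Real.log 2⌋₊

lemma log2_pos : 0 < Real.log 2 := Real.log_pos (by norm_num)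

lemma kk_iff {x : ℝ} (hx : 0 ≤ x) (k : ℕ) : kk x = k ↔ (k : ℝ) * Real.log 2 ≤ x ∧ x < ((k : ℝ) + 1) * Real.log 2 := by
  unfold kk
  rw [Nat.floor_eq_iff (div_nonneg hx log2_pos.le), le_div_iff₀ log2_pos, div_lt_iff₀ log2_pos]

lemma kk_measurable : Measurable kk := by
  unfold kk
  exact Nat.measurable_floor.comp (measurable_id.div_const _)

lemma kk_le {x : ℝ} (hx : 0 ≤ x) : (kk x : ℝ) ≤ 2 * x := by
  unfold kk
  refine (Nat.floor_le (div_nonneg hx log2_pos.le)).trans ?_
  rw [div_le_iff₀ log2_pos]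
  have := Real.log_two_gt_d9
  nlinarith

/-- the normalized weight for the dyadic cell with number `k` -/
def GG (κ c A : ℝ) (k : ℕ) (x : ℝ) : ℝ := V κ c A (2 ^ k) (Real.exp x) / Dg κ c A (2 ^ k)

/-- the normalized weight -/
def UU (κ c A x : ℝ) : ℝ := GG κ c A (kk x) x

lemma V_cont' (κ c A T : ℝ) : Continuous (V κ c A T) := by
  by_cases hT : 0 ≤ Real.log T
  · have h1 : V κ c A T = fun t => ‖DPol (ac κ c A T) (XX c A T) t‖ ^ 2 := by
      funext t
      exact V_DPol hT t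
    rw [h1]
    exact (DPol_cont _ _).norm.pow 2
  · unfold V Qk tex Pc Pool.Agent.Y745.SW.Py
    refine Continuous.pow (Continuous.norm ?_) 2
    refine continuous_finsetSum _ fun j _ => ?_
    refine Continuous.div_const (Continuous.pow (Continuous.mul continuous_const ?_) j) _
    refine continuous_finsetSum _ fun p hp => ?_
    have hp0 : (p : ℂ) ≠ 0 := by
      exact_mod_cast (Finset.mem_filter.1 hp).2.ne_zero
    exact Continuous.const_cpow (by fun_prop) (Or.inl hp0)

lemma V_nonneg' (κ c A T t : ℝ) : 0 ≤ V κ c A T t := sq_nonneg _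

lemma Dg_nonneg (κ c A T : ℝ) : 0 ≤ Dg κ c A T := Finset.sum_nonneg fun _ _ => sq_nonneg _

lemma UU_nonneg (κ c A x : ℝ) : 0 ≤ UU κ c A x := div_nonneg (V_nonneg' _ _ _ _ _) (Dg_nonneg _ _ _ _)

lemma GG_cont (κ c A : ℝ) (k : ℕ) : Continuous (GG κ c A k) := by
  have h2 : Continuous (fun y : ℝ => V κ c A (2 ^ k) (Real.exp y)) :=
    (V_cont' κ c A (2 ^ k)).comp Real.continuous_exp
  exact h2.div_const (Dg κ c A (2 ^ k))

lemma cell_measurable (G : ℕ → ℝ → ℝ) (hG : ∀ k, Measurable (G k)) : Measurable (fun x => G (kk x) x) := by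
  have h1 : Measurable (fun z : ℕ × ℝ => G z.1 z.2) :=
    measurable_from_prod_countable_right fun k => hG k
  have h2 : Measurable (fun x : ℝ => (kk x, x)) := kk_measurable.prodMk measurable_id
  exact h1.comp h2

lemma UU_measurable (κ c A : ℝ) : Measurable (UU κ c A) :=
  cell_measurable (GG κ c A) fun k => (GG_cont κ c A k).measurable

/-- decomposition of an integral into cells -/
lemma cells {p q a b ε : ℝ} (hp : 0 < p) (hq : 0 < q) (ha : 0 ≤ a) (hab : a ≤ b) (hε : 0 ≤ ε)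
    (f : ℝ → ℝ) (g : ℕ → ℕ → ℝ → ℝ) (hg : ∀ k l, Continuous (g k l))
    (hf : ∀ α ∈ Ico a b, f α = g (kk (p * α)) (kk (q * α)) α)
    (hb : ∀ (k l : ℕ) (u v : ℝ), a ≤ u → u < v → v ≤ b → (k : ℝ) * Real.log 2 ≤ p * u →
      p * v ≤ ((k : ℝ) + 1) * Real.log 2 → (l : ℝ) * Real.log 2 ≤ q * u →
      q * v ≤ ((l : ℝ) + 1) * Real.log 2 → |∫ α in u..v, (g k l α - 1)| ≤ ε) :
    IntegrableOn f (Ico a b) ∧
    |(∫ α in a..b, f α) - (b - a)| ≤ (2 * (p * b) + 1) * (2 * (q * b) + 1) * ε := by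
  obtain ⟨J, hJ⟩ : ∃ J : ℕ × ℕ → Set ℝ, J = fun s => Ico (max a (max (s.1 * Real.log 2 / p) (s.2 * Real.log 2 / q)))
    (min b (min (((s.1 : ℝ) + 1) * Real.log 2 / p) (((s.2 : ℝ) + 1) * Real.log 2 / q))) := ⟨_, rfl⟩
  have hJm : ∀ (s : ℕ × ℕ) (α : ℝ), α ∈ J s ↔ (α ∈ Ico a b ∧ kk (p * α) = s.1 ∧ kk (q * α) = s.2) := by
    intro s α
    rw [hJ]
    simp only [mem_Ico, max_le_iff, lt_min_iff]
    constructor
    · rintro ⟨⟨h1, h2, h3⟩, h4, h5, h6⟩
      have h0 : 0 ≤ α := ha.trans h1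
      rw [div_le_iff₀ hp] at h2
      rw [div_le_iff₀ hq] at h3
      rw [lt_div_iff₀ hp] at h5
      rw [lt_div_iff₀ hq] at h6
      refine ⟨⟨h1, h4⟩, ?_, ?_⟩
      · rw [kk_iff (by positivity)]
        constructor <;> linarith
      · rw [kk_iff (by positivity)]
        constructor <;> linarith
    · rintro ⟨⟨h1, h2⟩, h3, h4⟩
      have h0 : 0 ≤ α := ha.trans h1
      rw [kk_iff (by positivity)] at h3 h4
      rw [div_le_iff₀ hp, div_le_iff₀ hq, lt_div_iff₀ hp, lt_div_iff₀ hq]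
      refine ⟨⟨h1, ?_, ?_⟩, h2, ?_, ?_⟩ <;> linarith [h3.1, h3.2, h4.1, h4.2]
  obtain ⟨S, hS⟩ : ∃ S : Finset (ℕ × ℕ), S = Finset.range (kk (p * b) + 1) ×ˢ Finset.range (kk (q * b) + 1) := ⟨_, rfl⟩
  have hb0 : 0 ≤ b := ha.trans hab
  have hmono : ∀ x y : ℝ, x ≤ y → kk x ≤ kk y := by
    intro x y hxy
    unfold kk
    exact Nat.floor_le_floor (div_le_div_of_nonneg_right hxy log2_pos.le)
  have hU : Ico a b = ⋃ s ∈ S, J s := by
    ext α
    rw [mem_iUnion₂]
    constructor
    · intro hα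
      refine ⟨(kk (p * α), kk (q * α)), ?_, ?_⟩
      · rw [hS, Finset.mem_product, Finset.mem_range, Finset.mem_range]
        exact ⟨Nat.lt_succ_of_le (hmono _ _ (mul_le_mul_of_nonneg_left hα.2.le hp.le)),
          Nat.lt_succ_of_le (hmono _ _ (mul_le_mul_of_nonneg_left hα.2.le hq.le))⟩
      · rw [hJm]
        exact ⟨hα, rfl, rfl⟩
    · rintro ⟨s, _, hα⟩
      exact ((hJm s α).1 hα).1
  have hmeas : ∀ s : ℕ × ℕ, MeasurableSet (J s) := by
    intro s
    rw [hJ]
    exact measurableSet_Ico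
  have hdisj : Set.PairwiseDisjoint (↑S : Set (ℕ × ℕ)) J := by
    intro s _ s' _ hne
    rw [Function.onFun, Set.disjoint_left]
    intro α h1 h2
    have h3 := (hJm s α).1 h1
    have h4 := (hJm s' α).1 h2
    exact hne (Prod.ext (h3.2.1.symm.trans h4.2.1) (h3.2.2.symm.trans h4.2.2))
  have hJint : ∀ s : ℕ × ℕ, IntegrableOn f (J s) := by
    intro s
    have h1 : IntegrableOn (g s.1 s.2) (J s) := by
      have h2 : IntegrableOn (g s.1 s.2) (Icc a b) := (hg s.1 s.2).continuousOn.integrableOn_compact isCompact_Icc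
      exact h2.mono_set fun α hα => Ico_subset_Icc_self ((hJm s α).1 hα).1
    refine h1.congr_fun ?_ (hmeas s)
    intro α hα
    have h3 := (hJm s α).1 hα
    show g s.1 s.2 α = f α
    rw [hf α h3.1, h3.2.1, h3.2.2]
  have hfint : IntegrableOn f (Ico a b) := by
    rw [hU]
    exact (integrableOn_finset_iUnion).2 fun s _ => hJint s
  refine ⟨hfint, ?_⟩
  have hone : ∀ u v : ℝ, IntegrableOn (fun _ : ℝ => (1 : ℝ)) (Ico u v) := fun u v => by
    rw [integrableOn_const_iff]
    right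
    simp
  have h1 : (∫ α in a..b, f α) - (b - a) = ∫ α in Ico a b, (f α - 1) := by
    rw [integral_sub hfint (hone a b), intervalIntegral.integral_of_le hab, ← integral_Ico_eq_integral_Ioc]
    congr 1
    rw [setIntegral_const, Measure.real, Real.volume_Ico, ENNReal.toReal_ofReal (by linarith)]
    simp
  have hJint1 : ∀ s ∈ S, IntegrableOn (fun α => f α - 1) (J s) := fun s _ =>
    (hJint s).sub ((hone a b).mono_set fun α hα => ((hJm s α).1 hα).1)
  rw [h1, hU, integral_biUnion_finset S (fun s _ => hmeas s) hdisj hJint1]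
  have h2 : ∀ s ∈ S, |∫ α in J s, (f α - 1)| ≤ ε := by
    intro s _
    have h3 : ∫ α in J s, (f α - 1) = ∫ α in J s, (g s.1 s.2 α - 1) := by
      refine setIntegral_congr_fun (hmeas s) ?_
      intro α hα
      have h4 := (hJm s α).1 hα
      show f α - 1 = g s.1 s.2 α - 1
      rw [hf α h4.1, h4.2.1, h4.2.2]
    rw [h3]
    obtain ⟨u, hu⟩ : ∃ u : ℝ, u = max a (max (s.1 * Real.log 2 / p) (s.2 * Real.log 2 / q)) := ⟨_, rfl⟩
    obtain ⟨v, hv⟩ : ∃ v : ℝ, v = min b (min (((s.1 : ℝ) + 1) * Real.log 2 / p) (((s.2 : ℝ) + 1) * Real.log 2 / q)) := ⟨_, rfl⟩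
    have hJe : J s = Ico u v := by rw [hJ, hu, hv]
    rw [hJe]
    rcases lt_or_ge u v with huv | huv
    · rw [integral_Ico_eq_integral_Ioc, ← intervalIntegral.integral_of_le huv.le]
      have e1 : s.1 * Real.log 2 / p ≤ u := by rw [hu]; exact (le_max_left _ _).trans (le_max_right _ _)
      have e2 : s.2 * Real.log 2 / q ≤ u := by rw [hu]; exact (le_max_right _ _).trans (le_max_right _ _)
      have e3 : v ≤ ((s.1 : ℝ) + 1) * Real.log 2 / p := by rw [hv]; exact (min_le_right _ _).trans (min_le_left _ _)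
      have e4 : v ≤ ((s.2 : ℝ) + 1) * Real.log 2 / q := by rw [hv]; exact (min_le_right _ _).trans (min_le_right _ _)
      rw [div_le_iff₀ hp] at e1
      rw [div_le_iff₀ hq] at e2
      rw [le_div_iff₀ hp] at e3
      rw [le_div_iff₀ hq] at e4
      refine hb s.1 s.2 u v ?_ huv ?_ (by linarith) (by linarith) (by linarith) (by linarith)
      · rw [hu]; exact le_max_left _ _
      · rw [hv]; exact min_le_left _ _
    · rw [Ico_eq_empty (not_lt.2 huv)]
      simpa using hε
  refine (Finset.abs_sum_le_sum_abs _ _).trans ((Finset.sum_le_sum h2).trans ?_)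
  rw [Finset.sum_const, nsmul_eq_mul, hS, Finset.card_product, Finset.card_range, Finset.card_range]
  refine mul_le_mul_of_nonneg_right ?_ hε
  push_cast
  have h3 := kk_le (x := p * b) (by positivity)
  have h4 := kk_le (x := q * b) (by positivity)
  refine mul_le_mul (by linarith) (by linarith) (by positivity) ?_
  positivity

end

end Run7.h402.FR
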