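import Mathlib

set_option autoImplicit false

/-!
Freezing along sequences (MP_f9aece_nt), part 10: the second moment method (general form).
-/

namespace Run7.h402.FR

open MeasureTheory Set Filter Topology

noncomputable section

/-- second moment method for almost uncorrelated functions -/
theorem second {μ : Measure ℝ} [IsFiniteMeasure μ] (F : Finset ℕ) (N : ℕ) (hN : 1 ≤ N) (hF : F.card = N)
    (w W : ℕ → ℝ → ℝ) (L ε τ K : ℝ) (hL : 0 ≤ L) (hε : 0 ≤ ε) (hμ : μ.real univ ≤ L) (hK : 0 ≤ K)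
    (hwm : ∀ n ∈ F, AEStronglyMeasurable (w n) μ) (hw0 : ∀ n ∈ F, ∀ x, 0 ≤ w n x) (hwW : ∀ n ∈ F, ∀ x, w n x ≤ W n x)
    (hwK : ∀ n ∈ F, ∀ᵐ x ∂μ, w n x ≤ K)
    (hA : ∀ m ∈ F, ∀ n ∈ F, m ≠ n → Integrable (fun x => W m x * W n x) μ ∧ ∫ x, W m x * W n x ∂μ ≤ L + ε)
    (hB : ∀ n ∈ F, L - τ ≤ ∫ x, w n x ∂μ) (hC : ∀ n ∈ F, ∫ x, w n x ∂μ ≤ 2 * L) :
    μ.real {x | ∑ n ∈ F, w n x < (N : ℝ) / 2} ≤ 4 * (ε + 2 * τ + 2 * K * L / N) := by
  have hN0 : (0 : ℝ) < N := by exact_mod_cast (by omega : 0 < N)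
  have hwi : ∀ n ∈ F, Integrable (w n) μ := by
    intro n hn
    refine Integrable.mono' (integrable_const K) (hwm n hn) ?_
    filter_upwards [hwK n hn] with x hx
    rw [Real.norm_eq_abs, abs_of_nonneg (hw0 n hn x)]
    exact hx
  have hww : ∀ m ∈ F, ∀ n ∈ F, Integrable (fun x => w m x * w n x) μ := by
    intro m hm n hn
    refine Integrable.mono' (integrable_const (K * K)) ((hwm m hm).mul (hwm n hn)) ?_
    filter_upwards [hwK m hm, hwK n hn] with x hx hx'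
    have h1 := hw0 m hm x
    have h2 := hw0 n hn x
    rw [Real.norm_eq_abs, abs_of_nonneg (mul_nonneg h1 h2)]
    exact mul_le_mul hx hx' h2 hK
  have hpair : ∀ m ∈ F, ∀ n ∈ F, ∫ x, w m x * w n x ∂μ ≤ (L + ε) + (if m = n then 2 * K * L else 0) := by
    intro m hm n hn
    by_cases hmn : m = n
    · rw [if_pos hmn, ← hmn]
      have h1 : ∫ x, w m x * w m x ∂μ ≤ ∫ x, K * w m x ∂μ := by
        refine integral_mono_ae (hww m hm m hm) ((hwi m hm).const_mul K) ?_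
        filter_upwards [hwK m hm] with x hx
        exact mul_le_mul_of_nonneg_right hx (hw0 m hm x)
      rw [integral_const_mul] at h1
      have h2 : K * ∫ x, w m x ∂μ ≤ K * (2 * L) := mul_le_mul_of_nonneg_left (hC m hm) hK
      linarith
    · rw [if_neg hmn, add_zero]
      obtain ⟨h1, h2⟩ := hA m hm n hn hmn
      refine le_trans (integral_mono (hww m hm n hn) h1 fun x => ?_) h2
      exact mul_le_mul (hwW m hm x) (hwW n hn x) (hw0 n hn x) ((hw0 m hm x).trans (hwW m hm x))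
  have hYi : Integrable (fun x => ∑ n ∈ F, w n x) μ := integrable_finsetSum _ hwi
  have hY2i : Integrable (fun x => ∑ m ∈ F, ∑ n ∈ F, w m x * w n x) μ :=
    integrable_finsetSum _ fun m hm => integrable_finsetSum _ fun n hn => hww m hm n hn
  have hexp : ∀ x, (∑ n ∈ F, w n x - N) ^ 2 = (∑ m ∈ F, ∑ n ∈ F, w m x * w n x) - 2 * N * (∑ n ∈ F, w n x) + (N : ℝ) ^ 2 := by
    intro x
    rw [← Finset.sum_mul_sum]
    ring
  have hint : ∫ x, (∑ n ∈ F, w n x - N) ^ 2 ∂μ = (∑ m ∈ F, ∑ n ∈ F, ∫ x, w m x * w n x ∂μ) -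
      2 * N * (∑ n ∈ F, ∫ x, w n x ∂μ) + (N : ℝ) ^ 2 * μ.real univ := by
    simp only [hexp]
    have hd : Integrable (fun x => (∑ m ∈ F, ∑ n ∈ F, w m x * w n x) - 2 * N * (∑ n ∈ F, w n x)) μ :=
      hY2i.sub (hYi.const_mul _)
    have hc : Integrable (fun x => 2 * (N : ℝ) * (∑ n ∈ F, w n x)) μ := hYi.const_mul _
    rw [integral_add hd (integrable_const _), integral_sub hY2i hc,
      integral_const_mul, integral_finsetSum _ hwi, integral_finsetSum _ fun m hm => integrable_finsetSum _ fun n hn => hww m hm n hn,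
      integral_const, smul_eq_mul, mul_comm (μ.real univ)]
    congr 2
    refine Finset.sum_congr rfl fun m hm => ?_
    rw [integral_finsetSum _ fun n hn => hww m hm n hn]
  have h1 : ∑ m ∈ F, ∑ n ∈ F, ∫ x, w m x * w n x ∂μ ≤ (N : ℝ) ^ 2 * (L + ε) + N * (2 * K * L) := by
    refine (Finset.sum_le_sum fun m hm => Finset.sum_le_sum fun n hn => hpair m hm n hn).trans (le_of_eq ?_)
    have h2 : ∀ m ∈ F, ∑ n ∈ F, ((L + ε) + (if m = n then 2 * K * L else 0)) = N * (L + ε) + 2 * K * L := by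
      intro m hm
      rw [Finset.sum_add_distrib, Finset.sum_const, Finset.sum_ite_eq, if_pos hm, hF, nsmul_eq_mul]
    rw [Finset.sum_congr rfl h2, Finset.sum_const, hF, nsmul_eq_mul]
    ring
  have h2 : (N : ℝ) * (L - τ) ≤ ∑ n ∈ F, ∫ x, w n x ∂μ := by
    refine le_trans (le_of_eq ?_) (Finset.sum_le_sum fun n hn => hB n hn)
    rw [Finset.sum_const, hF, nsmul_eq_mul]
  have h3 : ∫ x, (∑ n ∈ F, w n x - N) ^ 2 ∂μ ≤ (N : ℝ) ^ 2 * (ε + 2 * τ) + N * (2 * K * L) := by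
    rw [hint]
    have h4 : 2 * (N : ℝ) * (N * (L - τ)) ≤ 2 * N * (∑ n ∈ F, ∫ x, w n x ∂μ) :=
      mul_le_mul_of_nonneg_left h2 (by positivity)
    have h5 : (N : ℝ) ^ 2 * μ.real univ ≤ (N : ℝ) ^ 2 * L := mul_le_mul_of_nonneg_left hμ (by positivity)
    nlinarith
  have hsqi : Integrable (fun x => (∑ n ∈ F, w n x - N) ^ 2) μ := by
    simp only [hexp]
    have hd : Integrable (fun x => (∑ m ∈ F, ∑ n ∈ F, w m x * w n x) - 2 * N * (∑ n ∈ F, w n x)) μ :=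
      hY2i.sub (hYi.const_mul _)
    exact hd.add (integrable_const _)
  have h4 := mul_meas_ge_le_integral_of_nonneg (μ := μ) (Filter.Eventually.of_forall fun x => sq_nonneg (∑ n ∈ F, w n x - (N : ℝ)))
    hsqi ((N : ℝ) ^ 2 / 4)
  have h5 : μ.real {x | ∑ n ∈ F, w n x < (N : ℝ) / 2} ≤ μ.real {x | (N : ℝ) ^ 2 / 4 ≤ (∑ n ∈ F, w n x - N) ^ 2} := by
    refine measureReal_mono ?_
    intro x hx
    have hx' : ∑ n ∈ F, w n x < (N : ℝ) / 2 := hx
    show (N : ℝ) ^ 2 / 4 ≤ (∑ n ∈ F, w n x - N) ^ 2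
    nlinarith
  have h6 : (N : ℝ) ^ 2 / 4 * μ.real {x | ∑ n ∈ F, w n x < (N : ℝ) / 2} ≤ (N : ℝ) ^ 2 * (ε + 2 * τ) + N * (2 * K * L) :=
    (mul_le_mul_of_nonneg_left h5 (by positivity)).trans (h4.trans h3)
  have h7 : (N : ℝ) ^ 2 / 4 * μ.real {x | ∑ n ∈ F, w n x < (N : ℝ) / 2} ≤
      (N : ℝ) ^ 2 / 4 * (4 * (ε + 2 * τ + 2 * K * L / N)) := by
    refine h6.trans (le_of_eq ?_)
    field_simp
  exact le_of_mul_le_mul_left h7 (by positivity)

end

end Run7.h402.FR
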