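import Pool.Agent.Run7.h402.FR.Pair

set_option autoImplicit false

/-!
Freezing along sequences (MP_f9aece_nt), part 6: admissible sequences.
-/

namespace Run7.h402.FR

open MeasureTheory intervalIntegral Set Filter Topology
open Pool.Agent.Y745.LD Pool.Agent.Y931.LD

noncomputable section

/-- sequences of size `n ^ (γ + o(1))` whose terms are at least `n ^ (-C)` apart -/
def Adm (γ : ℝ) (u : ℕ → ℝ) : Prop :=
  (∀ᶠ n : ℕ in atTop, 0 < u n) ∧
  Tendsto (fun n : ℕ => Real.log (u n) / Real.log n) atTop (𝓝 γ) ∧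
  ∃ C : ℝ, ∀ᶠ n : ℕ in atTop, ∀ m : ℕ, m < n → (n : ℝ) ^ (-C) ≤ |u n - u m|

lemma tail_small {s r C : ℝ} (hr : 0 < r) : ∀ ε : ℝ, 0 < ε → ∀ᶠ x : ℝ in atTop, C * (x ^ s * Real.exp (-r * x)) ≤ ε := by
  intro ε hε
  have h1 := (tendsto_rpow_mul_exp_neg_mul_atTop_nhds_zero s r hr).const_mul C
  rw [mul_zero] at h1
  filter_upwards [h1.eventually (gt_mem_nhds hε)] with x hx
  exact hx.le

lemma npow_tendsto {γ : ℝ} (hγ : 0 < γ) : Tendsto (fun n : ℕ => (n : ℝ) ^ γ) atTop atTop :=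
  (tendsto_rpow_atTop hγ).comp tendsto_natCast_atTop_atTop

/-- the growth of an admissible sequence -/
lemma adm_growth {γ : ℝ} {u : ℕ → ℝ} (h : Adm γ u) (ε : ℝ) (hε : 0 < ε) :
    ∀ᶠ n : ℕ in atTop, 0 < u n ∧ (n : ℝ) ^ (γ - ε) ≤ u n ∧ u n ≤ (n : ℝ) ^ (γ + ε) := by
  obtain ⟨h1, h2, -⟩ := h
  filter_upwards [h1, h2.eventually (lt_mem_nhds (show γ - ε < γ by linarith)),
    h2.eventually (gt_mem_nhds (show γ < γ + ε by linarith)), eventually_ge_atTop 2] with n h3 h4 h5 h6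
  have hn : (1 : ℝ) < n := by exact_mod_cast (by omega : 1 < n)
  have hn0 : (0 : ℝ) < n := by linarith
  have hl : 0 < Real.log n := Real.log_pos hn
  rw [lt_div_iff₀ hl] at h4
  rw [div_lt_iff₀ hl] at h5
  refine ⟨h3, ?_, ?_⟩
  · rw [Real.rpow_def_of_pos hn0, ← Real.le_log_iff_exp_le h3, mul_comm]
    exact h4.le
  · rw [Real.rpow_def_of_pos hn0, ← Real.log_le_iff_le_exp h3, mul_comm]
    exact h5.le

lemma adm_tendsto {γ : ℝ} {u : ℕ → ℝ} (hγ : 0 < γ) (h : Adm γ u) : Tendsto u atTop atTop := by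
  have h1 := npow_tendsto (show 0 < γ - γ / 2 by linarith)
  refine tendsto_atTop_mono' atTop ?_ h1
  filter_upwards [adm_growth h (γ / 2) (by linarith)] with n hn
  exact hn.2.1

/-- the mean along the sequence -/
lemma seqMean (κ c A γ a b : ℝ) (u : ℕ → ℝ) (hu : Adm γ u) (hc : 0 < c) (hc1 : c < 1) (hA : 0 ≤ A) (hγ : 0 < γ)
    (ha : 0 < a) (hab : a ≤ b) :
    ∀ ε : ℝ, 0 < ε → ∀ᶠ n : ℕ in atTop, IntegrableOn (fun α => UU κ c A (u n * α)) (Ico a b) ∧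
      |(∫ α in a..b, UU κ c A (u n * α)) - (b - a)| ≤ ε := by
  intro ε hε
  obtain ⟨x0, hx0⟩ := (meanU κ c A hc hc1 hA).exists
  have hT := adm_tendsto hγ hu
  filter_upwards [hT.eventually_ge_atTop 1, hT.eventually_ge_atTop (x0 / a),
    hT.eventually (tail_small (s := 2) (r := a / 4) (C := (2 * b + 1) ^ 2) (by positivity) ε hε)] with n h1 h2 h3
  rw [div_le_iff₀ ha] at h2
  obtain ⟨h4, h5⟩ := hx0 _ a b h1 ha hab h2
  refine ⟨h4, h5.trans (le_trans ?_ h3)⟩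
  obtain ⟨x, hx⟩ : ∃ x : ℝ, x = u n := ⟨_, rfl⟩
  rw [← hx] at h1 ⊢
  have hb : 0 < b := by linarith
  have e1 : Real.exp (-(x * a / 4)) = Real.exp (-(a / 4) * x) := by congr 1; ring
  have h6 : 2 * (x * b) + 1 ≤ (2 * b + 1) * x := by nlinarith
  have h7 : 0 ≤ 2 * (x * b) + 1 := by positivity
  rw [e1, Real.rpow_two]
  calc (2 * (x * b) + 1) * (2 * (x * b) + 1) * Real.exp (-(a / 4) * x)
      ≤ ((2 * b + 1) * x) * ((2 * b + 1) * x) * Real.exp (-(a / 4) * x) := by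
        gcongr
    _ = (2 * b + 1) ^ 2 * (x ^ 2 * Real.exp (-(a / 4) * x)) := by ring

/-- the correlations along the sequence -/
lemma seqPair (κ c A γ a b : ℝ) (u : ℕ → ℝ) (hu : Adm γ u) (hc : 0 < c) (hc1 : c < 1) (hA : 0 ≤ A) (hγ : 0 < γ)
    (ha : 0 < a) (hab : a ≤ b) :
    ∀ ε : ℝ, 0 < ε → ∀ᶠ N : ℕ in atTop, ∀ m n : ℕ, N < m → N < n → m ≤ 2 * N → n ≤ 2 * N → m ≠ n →
      u m ≤ u n →
      IntegrableOn (fun α => UU κ c A (u m * α) * UU κ c A (u n * α)) (Ico a b) ∧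
      |(∫ α in a..b, UU κ c A (u m * α) * UU κ c A (u n * α)) - (b - a)| ≤ ε := by
  intro ε hε
  obtain ⟨C0, hC0⟩ := hu.2.2
  obtain ⟨C, hC⟩ : ∃ C : ℝ, C = |C0| := ⟨_, rfl⟩
  have hCn : 0 ≤ C := by rw [hC]; exact abs_nonneg _
  obtain ⟨G, hG⟩ : ∃ G : ℝ, G = (2 : ℝ) ^ (2 * γ) := ⟨_, rfl⟩
  have hG1 : 1 ≤ G := by rw [hG]; exact Real.one_le_rpow (by norm_num) (by linarith)
  obtain ⟨x0, hx0⟩ := (pairU κ c A hc hc1 hA).exists
  have hb : 0 < b := by linarith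
  obtain ⟨n1, hn1⟩ := eventually_atTop.1 (adm_growth hu (γ / 2) (by linarith))
  obtain ⟨n2, hn2⟩ := eventually_atTop.1 hC0
  have hT := npow_tendsto (show 0 < γ / 2 by linarith)
  filter_upwards [hT.eventually_ge_atTop 1, hT.eventually_ge_atTop (x0 / a), eventually_ge_atTop 1,
    eventually_ge_atTop n1, eventually_ge_atTop n2,
    hT.eventually (tail_small (s := 8 + 2 * C / γ) (r := a / 16) (C := (2 * (G * b) + 1) ^ 2 * 2 ^ C) (by positivity) ε hε)] with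
    N h1 h2 hN hN1 hN2 h3 m n hNm hNn hm2 hn2' hne hle
  rw [div_le_iff₀ ha] at h2
  obtain ⟨x, hx⟩ : ∃ x : ℝ, x = (N : ℝ) ^ (γ / 2) := ⟨_, rfl⟩
  rw [← hx] at h1 h2 h3
  have hN0 : (0 : ℝ) < N := by exact_mod_cast (by omega : 0 < N)
  have hN1' : (1 : ℝ) ≤ N := by exact_mod_cast hN
  have hxp : 0 < x := by linarith
  have hNx : (N : ℝ) = x ^ (2 / γ) := by
    rw [hx, ← Real.rpow_mul hN0.le]
    have : γ / 2 * (2 / γ) = 1 := by field_simp
    rw [this, Real.rpow_one]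
  -- sizes
  have hsize : ∀ k : ℕ, N < k → k ≤ 2 * N → x ≤ u k ∧ u k ≤ G * x ^ 4 := by
    intro k hk1 hk2
    obtain ⟨-, h4, h5⟩ := hn1 k (by omega)
    have hk : (N : ℝ) ≤ k := by exact_mod_cast hk1.le
    have hk0 : (0 : ℝ) < k := by linarith
    have hk' : (k : ℝ) ≤ 2 * N := by exact_mod_cast hk2
    have hk1' : (1 : ℝ) ≤ k := by linarith
    constructor
    · refine le_trans ?_ h4
      rw [hx, show γ - γ / 2 = γ / 2 by ring]
      exact Real.rpow_le_rpow hN0.le hk (by linarith)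
    · refine h5.trans ?_
      have h6 : (k : ℝ) ^ (γ + γ / 2) ≤ (k : ℝ) ^ (2 * γ) := Real.rpow_le_rpow_of_exponent_le hk1' (by linarith)
      have h7 : (k : ℝ) ^ (2 * γ) ≤ (2 * N) ^ (2 * γ) := Real.rpow_le_rpow hk0.le hk' (by linarith)
      have h8 : (2 * (N : ℝ)) ^ (2 * γ) = G * x ^ 4 := by
        rw [Real.mul_rpow (by norm_num) hN0.le, hG, hx, ← Real.rpow_natCast, ← Real.rpow_mul hN0.le]
        congr 2
        push_cast
        ring
      linarith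
  obtain ⟨hp, hpu⟩ := hsize m hNm hm2
  obtain ⟨hq, hqu⟩ := hsize n hNn hn2'
  have hgap : (2 * (N : ℝ)) ^ (-C) ≤ u n - u m := by
    have key : ∀ i j : ℕ, N < i → i < j → j ≤ 2 * N → (2 * (N : ℝ)) ^ (-C) ≤ |u j - u i| := by
      intro i j hi hij hj
      refine le_trans ?_ (hn2 j (by omega) i hij)
      have hj0 : (1 : ℝ) ≤ j := by exact_mod_cast (by omega : 1 ≤ j)
      have hj2 : (j : ℝ) ≤ 2 * N := by exact_mod_cast hj
      calc (2 * (N : ℝ)) ^ (-C) ≤ (j : ℝ) ^ (-C) :=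
            Real.rpow_le_rpow_of_nonpos (by linarith) hj2 (by linarith)
        _ ≤ (j : ℝ) ^ (-C0) := Real.rpow_le_rpow_of_exponent_le hj0 (by
            have := le_abs_self C0
            rw [← hC] at this
            linarith)
    rcases lt_or_gt_of_ne hne with h | h
    · have := key m n hNm h hn2'
      rwa [abs_of_nonneg (by linarith)] at this
    · have := key n m hNn h hm2
      rwa [abs_sub_comm, abs_of_nonneg (by linarith)] at this
  obtain ⟨p, hpd⟩ : ∃ p : ℝ, p = u m := ⟨_, rfl⟩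
  obtain ⟨q, hqd⟩ : ∃ q : ℝ, q = u n := ⟨_, rfl⟩
  rw [← hpd] at hp hpu hgap
  rw [← hqd] at hq hqu hgap
  rw [← hpd, ← hqd]
  have h2N : (1 : ℝ) ≤ 2 * N := by linarith
  have hM : 1 ≤ (2 * (N : ℝ)) ^ C := Real.one_le_rpow h2N hCn
  have hgap0 : 0 < (2 * (N : ℝ)) ^ (-C) := by positivity
  have hpq : p < q := by linarith
  have hM2 : 1 ≤ ((2 * (N : ℝ)) ^ C) ^ 2 * (q * (q - p)) := by
    have h5 : (2 * (N : ℝ)) ^ (-C) ≤ q * (q - p) := by nlinarith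
    have h6 : (2 * (N : ℝ)) ^ C * (2 * (N : ℝ)) ^ (-C) = 1 := by
      rw [← Real.rpow_add (by linarith)]
      simp
    calc (1 : ℝ) ≤ (2 * (N : ℝ)) ^ C * 1 := by linarith
      _ = (2 * (N : ℝ)) ^ C * ((2 * (N : ℝ)) ^ C * (2 * (N : ℝ)) ^ (-C)) := by rw [h6]
      _ = ((2 * (N : ℝ)) ^ C) ^ 2 * (2 * (N : ℝ)) ^ (-C) := by ring
      _ ≤ _ := mul_le_mul_of_nonneg_left h5 (by positivity)
  obtain ⟨h4, h5⟩ := hx0 p q a b ((2 * (N : ℝ)) ^ C) (by linarith) hpq ha hab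
    (by nlinarith [mul_le_mul_of_nonneg_right hp ha.le]) hM hM2
  refine ⟨h4, h5.trans (le_trans ?_ h3)⟩
  have hp0 : 0 < p := by linarith
  have hq0 : 0 < q := by linarith
  have e1 : Real.exp (-(p * a / 16)) ≤ Real.exp (-(a / 16) * x) := by
    refine Real.exp_le_exp.2 ?_
    nlinarith [mul_le_mul_of_nonneg_right hp ha.le]
  have hx4 : 1 ≤ x ^ 4 := one_le_pow₀ h1
  have h6 : 2 * (p * b) + 1 ≤ (2 * (G * b) + 1) * x ^ 4 := by
    have : p * b ≤ G * x ^ 4 * b := mul_le_mul_of_nonneg_right (by linarith) hb.le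
    nlinarith
  have h7 : 2 * (q * b) + 1 ≤ (2 * (G * b) + 1) * x ^ 4 := by
    have : q * b ≤ G * x ^ 4 * b := mul_le_mul_of_nonneg_right (by linarith) hb.le
    nlinarith
  have e2 : x ^ (8 + 2 * C / γ) = x ^ 4 * x ^ 4 * x ^ (2 * C / γ) := by
    rw [Real.rpow_add hxp, ← pow_add]
    congr 1
    rw [← Real.rpow_natCast]
    norm_num
  have e3 : (2 * (N : ℝ)) ^ C = 2 ^ C * x ^ (2 * C / γ) := by
    rw [Real.mul_rpow (by norm_num) hN0.le, hNx, ← Real.rpow_mul hxp.le]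
    congr 2
    ring
  rw [e2, e3]
  calc (2 * (p * b) + 1) * (2 * (q * b) + 1) * (2 ^ C * x ^ (2 * C / γ) * Real.exp (-(p * a / 16)))
      ≤ ((2 * (G * b) + 1) * x ^ 4) * ((2 * (G * b) + 1) * x ^ 4) *
          (2 ^ C * x ^ (2 * C / γ) * Real.exp (-(a / 16) * x)) := by
        gcongr
    _ = _ := by ring

end

end Run7.h402.FR
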