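import Pool.Agent.Run7.h402.FR.GBad
import Pool.Agent.Run7.h402.FR.Seq
import Pool.Agent.Run7.h402.FR.Sec

set_option autoImplicit false

/-!
Freezing along sequences (MP_f9aece_nt), part 11: the number of the large values of `ζ` along the sequence.
-/

namespace Run7.h402.FR

open MeasureTheory Set Filter Topology
open Pool.Agent.Y745.LD Pool.Agent.Y931.LD Pool.Agent.Y745.SW
open scoped ENNReal

noncomputable section

/-- the values of `|ζ|` along the sequence -/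
def ztv (u : ℕ → ℝ) (α : ℝ) (n : ℕ) : ℝ := ‖riemannZeta (1 / 2 + (Real.exp (α * u n) : ℝ) * Complex.I)‖

lemma small5 {A1 A2 A3 A4 A5 B1 B2 B3 B4 B5 : ℝ} (hA1 : 0 < A1) (hA2 : 0 < A2) (hA3 : 0 < A3) (hA4 : 0 < A4)
    (hA5 : 0 < A5) (hB1 : 0 < B1) (hB2 : 0 < B2) (hB3 : 0 < B3) (hB4 : 0 < B4) (hB5 : 0 < B5) :
    ∃ δ : ℝ, 0 < δ ∧ A1 * δ ≤ B1 ∧ A2 * δ ≤ B2 ∧ A3 * δ ≤ B3 ∧ A4 * δ ≤ B4 ∧ A5 * δ ≤ B5 := by
  refine ⟨min (B1 / A1) (min (B2 / A2) (min (B3 / A3) (min (B4 / A4) (B5 / A5)))), ?_, ?_, ?_, ?_, ?_, ?_⟩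
  · refine lt_min (by positivity) (lt_min (by positivity) (lt_min (by positivity) (lt_min (by positivity) (by positivity))))
  all_goals rw [mul_comm, ← le_div_iff₀ (by assumption)]
  · exact min_le_left _ _
  · exact (min_le_right _ _).trans (min_le_left _ _)
  · exact (min_le_right _ _).trans ((min_le_right _ _).trans (min_le_left _ _))
  · exact (min_le_right _ _).trans ((min_le_right _ _).trans ((min_le_right _ _).trans (min_le_left _ _)))
  · exact (min_le_right _ _).trans ((min_le_right _ _).trans ((min_le_right _ _).trans (min_le_right _ _)))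

open Classical in
/-- the number of large values -/
theorem levels (hMVB : P_MVB) (hVM1 : P_VM1) (hVMT : P_VMT) (hPW : P_PW) (hLOW : P_LOW) (γ a b κ η ν : ℝ)
    (u : ℕ → ℝ) (hu : Adm γ u) (hγ : 0 < γ) (ha : 0 < a) (hab : a < b) (hκ : 0 < κ) (hγκ : γ * κ ^ 2 < 1) (hη : 0 < η) (hν : 0 < ν) :
    ∀ᶠ N : ℕ in atTop, volume.real {α | α ∈ Ico a b ∧
      ((((Finset.Ioc N (2 * N)).filter (fun n : ℕ => (n : ℝ) ^ (γ * κ - η) ≤ ztv u α n)).card : ℕ) : ℝ) <
        (N : ℝ) ^ (1 - γ * κ ^ 2 - η)} ≤ ν := by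
  obtain ⟨L, hL⟩ : ∃ L : ℝ, L = b - a := ⟨_, rfl⟩
  have hL0 : 0 < L := by rw [hL]; linarith
  have hb : 0 < b := by linarith
  obtain ⟨δ, hδ, d1, d2, d3, d4, d5⟩ := small5 (A1 := κ + 4) (A2 := γ * (2 * κ + 1)) (A3 := γ * (2 * κ + 1))
    (A4 := γ * (κ + 4)) (A5 := 24 * (2 * L + 2)) (B1 := κ / 2) (B2 := η / 4) (B3 := (1 - γ * κ ^ 2) / 3)
    (B4 := η / 4) (B5 := ν / 3) (by positivity) (by positivity) (by positivity) (by positivity) (by positivity)
    (by positivity) (by positivity) (by linarith) (by positivity) (by positivity)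
  obtain ⟨ε1, hε1, d6, d7, d8, -, -⟩ := small5 (A1 := (κ + 1) ^ 2) (A2 := (κ + 1) ^ 2) (A3 := 1)
    (A4 := 1) (A5 := 1) (B1 := η / 4) (B2 := (1 - γ * κ ^ 2) / 3) (B3 := γ / 2)
    (B4 := 1) (B5 := 1) (by positivity) (by positivity) (by positivity) (by positivity) (by positivity)
    (by positivity) (by linarith) (by positivity) (by positivity) (by positivity)
  have hδ1 : δ ≤ 1 := by nlinarith
  obtain ⟨c, A, hc, hc1, hA, Gd, hGm, x0, hx0, hG, hcell⟩ := glob hMVB hVM1 hVMT hPW hLOW κ δ hκ hδ (by linarith)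
  obtain ⟨θ, hθ⟩ : ∃ θ : ℝ, θ = κ ^ 2 + (2 * κ + 1) * δ := ⟨_, rfl⟩
  obtain ⟨κ', hκ'⟩ : ∃ κ' : ℝ, κ' = κ - (κ + 4) * δ := ⟨_, rfl⟩
  obtain ⟨γ1, hγ1⟩ : ∃ γ1 : ℝ, γ1 = γ + ε1 := ⟨_, rfl⟩
  obtain ⟨γ2, hγ2⟩ : ∃ γ2 : ℝ, γ2 = γ - ε1 := ⟨_, rfl⟩
  have hγ10 : 0 < γ1 := by rw [hγ1]; linarith
  have hγ20 : 0 < γ2 := by rw [hγ2]; linarith
  have hθ0 : 0 < θ := by rw [hθ]; positivity
  have hκ'0 : 0 < κ' := by rw [hκ']; linarith
  have hθ1 : θ ≤ (κ + 1) ^ 2 := by rw [hθ]; nlinarith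
  have hεθ : ε1 * θ ≤ (κ + 1) ^ 2 * ε1 := by nlinarith
  have hγθ : γ1 * θ ≤ γ * κ ^ 2 + η / 2 := by
    have : γ1 * θ = γ * κ ^ 2 + γ * (2 * κ + 1) * δ + ε1 * θ := by rw [hγ1, hθ]; ring
    linarith
  have hγθ1 : γ1 * θ < 1 := by
    have : γ1 * θ = γ * κ ^ 2 + γ * (2 * κ + 1) * δ + ε1 * θ := by rw [hγ1, hθ]; ring
    linarith
  have hγκ' : γ * κ - η / 2 ≤ γ2 * κ' := by
    have h1 : γ2 * κ' = γ * κ - γ * (κ + 4) * δ - ε1 * κ' := by rw [hγ2, hκ']; ring
    have h2 : κ' ≤ (κ + 1) ^ 2 := by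
      rw [hκ']
      nlinarith
    have h3 : ε1 * κ' ≤ ε1 * (κ + 1) ^ 2 := mul_le_mul_of_nonneg_left h2 hε1.le
    linarith
  rw [← hθ, ← hκ'] at hG
  obtain ⟨ε, hε⟩ : ∃ ε : ℝ, ε = min (ν / 36) L := ⟨_, rfl⟩
  have hε0 : 0 < ε := by rw [hε]; exact lt_min (by positivity) hL0
  have hεν : ε ≤ ν / 36 := by rw [hε]; exact min_le_left _ _
  have hεL : ε ≤ L := by rw [hε]; exact min_le_right _ _
  obtain ⟨C, hC⟩ : ∃ C : ℝ, C = ((2 : ℝ) ^ γ1 * b) ^ θ := ⟨_, rfl⟩
  have hC0 : 0 < C := by rw [hC]; positivity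
  obtain ⟨n1, hn1⟩ := eventually_atTop.1 (seqMean κ c A γ a b u hu hc hc1 hA hγ ha hab.le ε hε0)
  have hT := adm_tendsto hγ hu
  obtain ⟨n4, hn4⟩ := eventually_atTop.1 (adm_growth hu ε1 hε1)
  rw [← hγ1, ← hγ2] at hn4
  obtain ⟨n2, hn2⟩ := eventually_atTop.1 ((hT.eventually_ge_atTop (x0 / a)).and (hT.eventually_ge_atTop 1))
  have hTη : Tendsto (fun n : ℕ => (n : ℝ) ^ (η / 2)) atTop atTop := npow_tendsto (by positivity)
  obtain ⟨n3, hn3⟩ := eventually_atTop.1 (hTη.eventually_ge_atTop (a ^ (-κ')))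
  have hKN : ∀ᶠ N : ℕ in atTop, 8 * L * C * (N : ℝ) ^ (γ1 * θ) ≤ ν / 3 * N := by
    have h1 : Tendsto (fun n : ℕ => (n : ℝ) ^ (1 - γ1 * θ)) atTop atTop := npow_tendsto (by linarith)
    filter_upwards [h1.eventually_ge_atTop (8 * L * C / (ν / 3)), eventually_ge_atTop 1] with N h2 h3
    have hN0 : (0 : ℝ) < N := by exact_mod_cast h3
    rw [div_le_iff₀ (by positivity), Real.rpow_sub hN0, Real.rpow_one] at h2
    have h4 : 0 < (N : ℝ) ^ (γ1 * θ) := by positivity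
    have h5 : (N : ℝ) / (N : ℝ) ^ (γ1 * θ) * (ν / 3) = (ν / 3 * N) / (N : ℝ) ^ (γ1 * θ) := by ring
    rw [h5, le_div_iff₀ h4] at h2
    exact h2
  filter_upwards [seqPair κ c A γ a b u hu hc hc1 hA hγ ha hab.le ε hε0, hKN, eventually_ge_atTop n1, eventually_ge_atTop n2,
    eventually_ge_atTop n3, eventually_ge_atTop 1, hTη.eventually_ge_atTop (2 * C), eventually_ge_atTop n4] with
    N g1 g2 g3 g4 g5 g6 g7 g8
  have hN0 : (0 : ℝ) < N := by exact_mod_cast g6
  obtain ⟨K, hK⟩ : ∃ K : ℝ, K = C * (N : ℝ) ^ (γ1 * θ) := ⟨_, rfl⟩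
  have hK0 : 0 < K := by rw [hK]; positivity
  -- the points of the sequence
  have hpt : ∀ n ∈ Finset.Ioc N (2 * N), 1 ≤ u n ∧ x0 ≤ u n * a := by
    intro n hn
    rw [Finset.mem_Ioc] at hn
    obtain ⟨h1, h2⟩ := hn2 n (by omega)
    rw [div_le_iff₀ ha] at h1
    exact ⟨h2, h1⟩
  have hupp : ∀ n ∈ Finset.Ioc N (2 * N), ∀ α ∈ Ico a b, ((u n * α) ^ θ) ≤ K := by
    intro n hn α hα
    have hn' := Finset.mem_Ioc.1 hn
    obtain ⟨h00, -, h01⟩ := hn4 n (by omega)
    have h1 : (n : ℝ) ^ γ1 ≤ (2 : ℝ) ^ γ1 * (N : ℝ) ^ γ1 := by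
      rw [← Real.mul_rpow (by norm_num) hN0.le]
      exact Real.rpow_le_rpow (Nat.cast_nonneg _) (by exact_mod_cast hn'.2) hγ10.le
    have h2 : u n * α ≤ ((2 : ℝ) ^ γ1 * b) * (N : ℝ) ^ γ1 := by
      calc u n * α ≤ ((2 : ℝ) ^ γ1 * (N : ℝ) ^ γ1) * b :=
            mul_le_mul (h01.trans h1) hα.2.le (ha.le.trans hα.1) (by positivity)
        _ = _ := by ring
    have h3 : 0 ≤ u n * α := mul_nonneg h00.le (ha.le.trans hα.1)
    calc (u n * α) ^ θ ≤ (((2 : ℝ) ^ γ1 * b) * (N : ℝ) ^ γ1) ^ θ := Real.rpow_le_rpow h3 h2 hθ0.le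
      _ = K := by
        rw [Real.mul_rpow (by positivity) (by positivity), ← Real.rpow_mul hN0.le, hK, hC]
  obtain ⟨w, hw⟩ : ∃ w : ℕ → ℝ → ℝ, w = fun (n : ℕ) (α : ℝ) => Gd.indicator (UU κ c A) (u n * α) := ⟨_, rfl⟩
  obtain ⟨W, hW⟩ : ∃ W : ℕ → ℝ → ℝ, W = fun (n : ℕ) (α : ℝ) => UU κ c A (u n * α) := ⟨_, rfl⟩
  have hw0 : ∀ n x, 0 ≤ w n x := by
    intro n x
    rw [hw]
    exact indicator_nonneg (fun x _ => UU_nonneg _ _ _ _) _
  have hwW : ∀ n x, w n x ≤ W n x := by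
    intro n x
    rw [hw, hW]
    exact indicator_le_self' (fun x _ => UU_nonneg _ _ _ _) _
  have hmeasG : Measurable (Gd.indicator (UU κ c A)) := (UU_measurable κ c A).indicator hGm
  have hwmeas : ∀ n, Measurable (w n) := by
    intro n
    rw [hw]
    exact hmeasG.comp (measurable_const.mul measurable_id)
  have hwK : ∀ n ∈ Finset.Ioc N (2 * N), ∀ α ∈ Ico a b, w n α ≤ K := by
    intro n hn α hα
    rw [hw]
    show Gd.indicator (UU κ c A) (u n * α) ≤ K
    by_cases hx : u n * α ∈ Gd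
    · rw [indicator_of_mem hx]
      obtain ⟨h1, h2⟩ := hpt n hn
      have h3 : u n * a ≤ u n * α := mul_le_mul_of_nonneg_left hα.1 (by linarith)
      exact (hG _ hx (by linarith)).1.trans (hupp n hn α hα)
    · rw [indicator_of_notMem hx]
      exact hK0.le
  have hWint : ∀ n ∈ Finset.Ioc N (2 * N), IntegrableOn (W n) (Ico a b) ∧ |(∫ α in Ico a b, W n α) - L| ≤ ε := by
    intro n hn
    rw [Finset.mem_Ioc] at hn
    obtain ⟨h1, h2⟩ := hn1 n (by omega)
    rw [hW]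
    refine ⟨h1, ?_⟩
    rw [intervalIntegral.integral_of_le hab.le, ← integral_Ico_eq_integral_Ioc, ← hL] at h2
    exact h2
  have hdiff : ∀ n ∈ Finset.Ioc N (2 * N), (∫ α in Ico a b, W n α) - (∫ α in Ico a b, w n α) ≤ (2 * L + 2) * (3 * δ) := by
    intro n hn
    have h1 := (hWint n hn).1
    have h2 : IntegrableOn (w n) (Ico a b) := by
      refine Integrable.mono' h1 (hwmeas n).aestronglyMeasurable (Filter.Eventually.of_forall fun α => ?_)
      rw [Real.norm_eq_abs, abs_of_nonneg (hw0 n α)]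
      exact hwW n α
    rw [← integral_sub h1 h2, integral_eq_lintegral_of_nonneg_ae
      (Filter.Eventually.of_forall fun α => sub_nonneg.2 (hwW n α))
      ((h1.sub h2).aestronglyMeasurable)]
    obtain ⟨h3, h4⟩ := hpt n hn
    have h5 := lint_seq (x0 := x0) (M := 3 * δ) h3 ha hab.le (by positivity) h4
      (Gdᶜ.indicator (fun x => ENNReal.ofReal (UU κ c A x))) (fun k hk _ => hcell k hk)
    have h6 : ∫⁻ α in Ico a b, ENNReal.ofReal (W n α - w n α) =
        ∫⁻ α in Ico a b, Gdᶜ.indicator (fun x => ENNReal.ofReal (UU κ c A x)) (u n * α) := by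
      refine lintegral_congr fun α => ?_
      rw [hW, hw]
      show ENNReal.ofReal (UU κ c A (u n * α) - Gd.indicator (UU κ c A) (u n * α)) = _
      by_cases hx : u n * α ∈ Gd
      · rw [indicator_of_mem hx, sub_self, ENNReal.ofReal_zero, indicator_of_notMem]
        exact fun h => h hx
      · rw [indicator_of_notMem hx, sub_zero, indicator_of_mem]
        exact hx
    refine ENNReal.toReal_le_of_le_ofReal (by positivity) ?_
    rw [h6, hL]
    exact h5
  have hsec := second (μ := volume.restrict (Ico a b)) (Finset.Ioc N (2 * N)) N g6 (by rw [Nat.card_Ioc]; omega)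
    w W L ε (ε + (2 * L + 2) * (3 * δ)) K hL0.le hε0.le (by
      rw [measureReal_restrict_apply MeasurableSet.univ, univ_inter, Measure.real, Real.volume_Ico,
        ENNReal.toReal_ofReal (by linarith), hL]) hK0.le
    (fun n _ => (hwmeas n).aestronglyMeasurable) (fun n _ => hw0 n) (fun n _ => hwW n)
    (fun n hn => by
      refine (ae_restrict_iff' measurableSet_Ico).2 (Filter.Eventually.of_forall fun α hα => hwK n hn α hα))
    (fun m hm n hn hmn => by
      rw [Finset.mem_Ioc] at hm hn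
      rcases le_total (u m) (u n) with h | h
      · obtain ⟨h1, h2⟩ := g1 m n hm.1 hn.1 hm.2 hn.2 hmn h
        rw [intervalIntegral.integral_of_le hab.le, ← integral_Ico_eq_integral_Ioc, ← hL] at h2
        rw [hW]
        exact ⟨h1, by linarith [(abs_le.1 h2).2]⟩
      · obtain ⟨h1, h2⟩ := g1 n m hn.1 hm.1 hn.2 hm.2 hmn.symm h
        rw [intervalIntegral.integral_of_le hab.le, ← integral_Ico_eq_integral_Ioc, ← hL] at h2
        rw [hW]
        have e : (fun α => UU κ c A (u m * α) * UU κ c A (u n * α)) =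
            fun α => UU κ c A (u n * α) * UU κ c A (u m * α) := by
          funext α
          ring
        show Integrable (fun α => UU κ c A (u m * α) * UU κ c A (u n * α)) _ ∧
          ∫ α in Ico a b, UU κ c A (u m * α) * UU κ c A (u n * α) ≤ L + ε
        rw [e]
        exact ⟨h1, by linarith [(abs_le.1 h2).2]⟩)
    (fun n hn => by
      have h1 := hdiff n hn
      have h2 := (abs_le.1 (hWint n hn).2).1
      linarith)
    (fun n hn => by
      have h1 := (abs_le.1 (hWint n hn).2).2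
      have h2 : ∫ α in Ico a b, w n α ≤ ∫ α in Ico a b, W n α := by
        refine integral_mono_of_nonneg (Filter.Eventually.of_forall fun α => hw0 n α) (hWint n hn).1
          (Filter.Eventually.of_forall fun α => hwW n α)
      linarith)
  refine le_trans ?_ (hsec.trans ?_)
  · rw [measureReal_restrict_apply' measurableSet_Ico]
    refine measureReal_mono ?_ (by
      refine ne_top_of_le_ne_top ?_ (measure_mono inter_subset_right)
      rw [Real.volume_Ico]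
      exact ENNReal.ofReal_ne_top)
    rintro α ⟨hα, hcard⟩
    refine ⟨?_, hα⟩
    show ∑ n ∈ Finset.Ioc N (2 * N), w n α < (N : ℝ) / 2
    have h1 : ∑ n ∈ Finset.Ioc N (2 * N), w n α ≤
        ∑ n ∈ (Finset.Ioc N (2 * N)).filter (fun n : ℕ => (n : ℝ) ^ (γ * κ - η) ≤ ztv u α n), K := by
      rw [Finset.sum_filter]
      refine Finset.sum_le_sum fun n hn => ?_
      by_cases hx : u n * α ∈ Gd
      · have h3 : (n : ℝ) ^ (γ * κ - η) ≤ ztv u α n := by
          obtain ⟨h3, h4⟩ := hpt n hn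
          have h5 : u n * a ≤ u n * α := mul_le_mul_of_nonneg_left hα.1 (by linarith)
          have h6 := (hG _ hx (by linarith)).2
          have e : ztv u α n = ‖riemannZeta (1 / 2 + (Real.exp (u n * α) : ℝ) * Complex.I)‖ := by
            unfold ztv
            rw [mul_comm α]
          rw [e]
          refine le_trans ?_ h6
          have hn' := Finset.mem_Ioc.1 hn
          have hn0 : (0 : ℝ) < n := by exact_mod_cast (by omega : 0 < n)
          have hn1' : (1 : ℝ) ≤ n := by exact_mod_cast (by omega : 1 ≤ n)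
          obtain ⟨h00, h01, -⟩ := hn4 n (by omega)
          have h7 : ((n : ℝ) ^ γ2 * a) ^ κ' ≤ (u n * α) ^ κ' :=
            Real.rpow_le_rpow (by positivity) ((mul_le_mul_of_nonneg_right h01 ha.le).trans h5) hκ'0.le
          refine le_trans ?_ h7
          rw [Real.mul_rpow (by positivity) ha.le, ← Real.rpow_mul hn0.le]
          have h8 : (n : ℝ) ^ (γ * κ - η / 2) ≤ (n : ℝ) ^ (γ2 * κ') := Real.rpow_le_rpow_of_exponent_le hn1' hγκ'
          have h9 : a ^ (-κ') ≤ (n : ℝ) ^ (η / 2) := hn3 n (by omega)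
          have h10 : a ^ (-κ') * a ^ κ' = 1 := by
            rw [← Real.rpow_add ha]
            simp
          have h11 : 1 ≤ (n : ℝ) ^ (η / 2) * a ^ κ' := by
            rw [← h10]
            exact mul_le_mul_of_nonneg_right h9 (by positivity)
          have h12 : (n : ℝ) ^ (γ * κ - η / 2) = (n : ℝ) ^ (γ * κ - η) * (n : ℝ) ^ (η / 2) := by
            rw [← Real.rpow_add hn0]
            congr 1
            ring
          calc (n : ℝ) ^ (γ * κ - η) = (n : ℝ) ^ (γ * κ - η) * 1 := by ring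
            _ ≤ (n : ℝ) ^ (γ * κ - η) * ((n : ℝ) ^ (η / 2) * a ^ κ') := mul_le_mul_of_nonneg_left h11 (by positivity)
            _ = (n : ℝ) ^ (γ * κ - η / 2) * a ^ κ' := by rw [h12]; ring
            _ ≤ (n : ℝ) ^ (γ2 * κ') * a ^ κ' := mul_le_mul_of_nonneg_right h8 (by positivity)
        rw [if_pos h3]
        exact hwK n hn α hα
      · have h3 : w n α = 0 := by
          rw [hw]
          exact indicator_of_notMem hx _
        rw [h3]
        split_ifs
        · exact hK0.le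
        · exact le_rfl
    rw [Finset.sum_const, nsmul_eq_mul] at h1
    have h2 : ((((Finset.Ioc N (2 * N)).filter (fun n : ℕ => (n : ℝ) ^ (γ * κ - η) ≤ ztv u α n)).card : ℕ) : ℝ) * K <
        (N : ℝ) ^ (1 - γ * κ ^ 2 - η) * K := mul_lt_mul_of_pos_right hcard hK0
    have h3 : (N : ℝ) ^ (1 - γ * κ ^ 2 - η) * K ≤ (N : ℝ) / 2 := by
      have hN1 : (1 : ℝ) ≤ N := by exact_mod_cast g6
      have h4 : (N : ℝ) ^ (1 - γ * κ ^ 2 - η) * (N : ℝ) ^ (γ1 * θ) ≤ (N : ℝ) ^ (1 - η / 2) := by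
        rw [← Real.rpow_add hN0]
        exact Real.rpow_le_rpow_of_exponent_le hN1 (by linarith)
      have h5 : (N : ℝ) ^ (1 - η / 2) * (N : ℝ) ^ (η / 2) = N := by
        rw [← Real.rpow_add hN0]
        simp
      have h6 : 0 < (N : ℝ) ^ (1 - η / 2) := by positivity
      rw [hK]
      calc (N : ℝ) ^ (1 - γ * κ ^ 2 - η) * (C * (N : ℝ) ^ (γ1 * θ)) =
            C * ((N : ℝ) ^ (1 - γ * κ ^ 2 - η) * (N : ℝ) ^ (γ1 * θ)) := by ring
        _ ≤ C * (N : ℝ) ^ (1 - η / 2) := mul_le_mul_of_nonneg_left h4 hC0.le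
        _ ≤ (N : ℝ) ^ (η / 2) / 2 * (N : ℝ) ^ (1 - η / 2) := mul_le_mul_of_nonneg_right (by linarith) h6.le
        _ = ((N : ℝ) ^ (1 - η / 2) * (N : ℝ) ^ (η / 2)) / 2 := by ring
        _ = (N : ℝ) / 2 := by rw [h5]
    linarith
  · have h1 : 2 * K * L / N ≤ ν / 12 := by
      rw [div_le_iff₀ hN0, hK]
      nlinarith
    nlinarith

end

end Run7.h402.FR
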