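import Pool.Agent.Run7.h402.FR.Glob
import Pool.Agent.Y745.LD.DefsB

set_option autoImplicit false

/-!
Freezing along sequences (MP_f9aece_nt), part 7: one dyadic scale. With the weight `V`, most heights `t` satisfy
`|ζ(1/2 + i t)| ≥ (log T)^(κ - ε)` and have small weight.
-/

namespace Run7.h402.FR

open MeasureTheory Set Filter Topology
open Pool.Agent.Y745.LD Pool.Agent.Y931.LD Pool.Agent.Y745.SW

noncomputable section

lemma IV_Dg (hMVB : P_MVB) (κ c A : ℝ) (hc : 0 < c) (hc1 : c < 1) (hA : 0 ≤ A) : ∀ᶠ T : ℝ in atTop,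
    IV κ c A T ≤ 3 / 2 * T * Dg κ c A T := by
  filter_upwards [len c A hc hc1 hA, eventually_gt_atTop (1 : ℝ), LL_tendsto.eventually_ge_atTop 0,
    Real.tendsto_log_atTop.eventually_ge_atTop 0] with T h2 h4 h5 h7
  have hT0 : 0 < T := by linarith
  have hy1 : 1 ≤ yc c T := yc_ge h7
  have hTT : T ≤ 2 * T := by linarith
  obtain ⟨N, hN⟩ : ∃ N : ℕ, N = ⌊yc c T⌋₊ ^ (2 * KA A T) := ⟨_, rfl⟩
  rw [← hN] at h2
  have hN1 : ⌊yc c T⌋₊ ^ KA A T ≤ N := by
    rw [hN]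
    exact Nat.pow_le_pow_right (floor_pos hy1) (by omega)
  have h8 := mean_sq hMVB hy1 (KA A T) N (fun m => κ ^ m / (m.factorial : ℝ)) hN1 hTT
  have hI : (∫ t in T..(2 * T), ‖∑ m ∈ Finset.range (KA A T + 1),
      (((fun m => κ ^ m / (m.factorial : ℝ)) m : ℝ) : ℂ) * Py (yc c T) t ^ m‖ ^ 2) = IV κ c A T := by
    unfold IV V
    simp only [Qk_eq]
  have hSG := Dg_eq (κ := κ) (c := c) (A := A) h7
  rw [hI] at h8
  simp only [← hSG] at h8
  have h13 := (abs_le.1 h8).2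
  have h14 : 8 * (N : ℝ) * (1 + Real.log N) * Dg κ c A T ≤ T / 2 * Dg κ c A T :=
    mul_le_mul_of_nonneg_right h2 (Dg_nonneg _ _ _ _)
  have h15 : (2 * T - T) * Dg κ c A T = T * Dg κ c A T := by ring
  rw [h15] at h13
  linarith

lemma Pc_cont' (c T : ℝ) : Continuous (Pc c T) := by
  unfold Pc Py
  refine continuous_finsetSum _ fun p hp => ?_
  have hp0 : (p : ℂ) ≠ 0 := by
    exact_mod_cast (Finset.mem_filter.1 hp).2.ne_zero
  exact Continuous.const_cpow (by fun_prop) (Or.inl hp0)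

/-- one dyadic scale -/
theorem one (hMVB : P_MVB) (hVM1 : P_VM1) (hVMT : P_VMT) (hPW : P_PW) (hLOW : P_LOW) (κ δ : ℝ) (hκ : 0 < κ)
    (hδ : 0 < δ) (hδκ : (κ + 3) * δ < κ) : ∃ c A : ℝ, 0 < c ∧ c < 1 ∧ 0 ≤ A ∧ ∀ᶠ T : ℝ in atTop,
      ∃ B : Set ℝ, MeasurableSet B ∧ B ⊆ Icc T (2 * T) ∧ (∫ t in B, V κ c A T t) ≤ 3 * δ * T * Dg κ c A T ∧
        ∀ t ∈ Icc T (2 * T), t ∉ B → V κ c A T t ≤ Dg κ c A T * Real.exp ((κ ^ 2 + (2 * κ + 1) * δ) * LL T) ∧
          Real.exp ((κ - (κ + 3) * δ) * LL T) ≤ ‖riemannZeta (1 / 2 + t * Complex.I)‖ := by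
  have hδ1 : δ < 1 := by nlinarith
  obtain ⟨c0, hc00, hc01, h1⟩ := hLOW κ δ hδ
  obtain ⟨c, hcd⟩ : ∃ c : ℝ, c = max c0 (1 - δ) := ⟨_, rfl⟩
  have hc0 : c0 ≤ c := by rw [hcd]; exact le_max_left _ _
  have hcδ : 1 - δ ≤ c := by rw [hcd]; exact le_max_right _ _
  have hc1 : c < 1 := by rw [hcd]; exact max_lt hc01 (by linarith)
  have hcp : 0 < c := by linarith
  obtain ⟨A1, h1⟩ := h1 c hc0 hc1
  obtain ⟨A2, h2⟩ := hVM1 κ c hcp hc1
  obtain ⟨A3, h3⟩ := hVMT κ c hcp hc1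
  obtain ⟨A4, h4⟩ := hPW κ (κ + 2) (by linarith)
  obtain ⟨A, hA⟩ : ∃ A : ℝ, A = |A1| + |A2| + |A3| + |A4| := ⟨_, rfl⟩
  have a1 := le_abs_self A1
  have a2 := le_abs_self A2
  have a3 := le_abs_self A3
  have a4 := le_abs_self A4
  have b1 := abs_nonneg A1
  have b2 := abs_nonneg A2
  have b3 := abs_nonneg A3
  have b4 := abs_nonneg A4
  have hA0 : 0 ≤ A := by rw [hA]; positivity
  obtain ⟨C2, hC2, h2⟩ := h2 A (by rw [hA]; linarith)
  obtain ⟨C3, hC3, h3⟩ := h3 A (by rw [hA]; linarith)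
  refine ⟨c, A, hcp, hc1, hA0, ?_⟩
  filter_upwards [h1 A (by rw [hA]; linarith), h2, h3, h4 A (by rw [hA]; linarith), IV_Dg hMVB κ c A hcp hc1 hA0,
    eventually_gt_atTop (1 : ℝ), Real.tendsto_log_atTop.eventually_ge_atTop 0,
    LL_tendsto.eventually_ge_atTop 1, LL_tendsto.eventually_ge_atTop (κ * C2),
    LL_tendsto.eventually_ge_atTop (κ * C2 / δ), LL_tendsto.eventually_ge_atTop (C3 / δ ^ 3),
    LL_tendsto.eventually_ge_atTop ((Real.log (27 / 8 * C2) + κ ^ 2 * C2) / δ)] with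
    T g1 g2 g3 g4 g5 g6 g7 g8 g9 g10 g11 g12
  have hT0 : 0 < T := by linarith
  obtain ⟨E, hE1, hE2, hE3, hE4⟩ := g1
  obtain ⟨hs, hIV, -, -⟩ := g2
  obtain ⟨L, hL⟩ : ∃ L : ℝ, L = LL T := ⟨_, rfl⟩
  obtain ⟨s, hsd⟩ : ∃ s : ℝ, s = sc c T := ⟨_, rfl⟩
  rw [← hL] at hs g3 g4 g8 g9 g10 g11 g12 ⊢
  rw [← hsd] at hs hIV g3
  rw [div_le_iff₀ hδ] at g10 g12
  have hδ3 : 0 < δ ^ 3 := by positivity
  rw [div_le_iff₀ hδ3] at g11
  have hIVD : IV κ c A T ≤ 3 / 2 * T * Dg κ c A T := g5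
  have hIV0 : 0 ≤ IV κ c A T := by
    have : 0 < T * Real.exp (κ ^ 2 * s) := by positivity
    by_contra hneg
    push Not at hneg
    nlinarith
  have hVi : ∀ u v : ℝ, IntegrableOn (V κ c A T) (Icc u v) := fun u v =>
    (V_cont' κ c A T).continuousOn.integrableOn_compact isCompact_Icc
  have hIVe : IV κ c A T = ∫ t in Icc T (2 * T), V κ c A T t := by
    unfold IV
    rw [intervalIntegral.integral_of_le (by linarith), integral_Icc_eq_integral_Ioc]
  obtain ⟨F, hF⟩ : ∃ F : Set ℝ, F = Icc T (2 * T) ∩ {t | δ * L < ‖Pc c T t - ((κ * s : ℝ) : ℂ)‖} := ⟨_, rfl⟩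
  have hPn : Continuous (fun t => ‖Pc c T t - ((κ * s : ℝ) : ℂ)‖) := ((Pc_cont' c T).sub continuous_const).norm
  have hFm : MeasurableSet F := by
    rw [hF]
    exact measurableSet_Icc.inter (measurableSet_lt measurable_const hPn.measurable)
  have hFsub : F ⊆ Icc T (2 * T) := by rw [hF]; exact inter_subset_left
  have hδL : 0 < δ * L := by positivity
  have hFint : (∫ t in F, V κ c A T t) ≤ δ * IV κ c A T := by
    have h5 : ∫ t in F, V κ c A T t ≤ ∫ t in F, V κ c A T t * ‖Pc c T t - ((κ * s : ℝ) : ℂ)‖ ^ 2 / (δ * L) ^ 2 := by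
      refine setIntegral_mono_on ((hVi _ _).mono_set hFsub) ?_ hFm ?_
      · have h6 : Continuous (fun t => V κ c A T t * ‖Pc c T t - ((κ * s : ℝ) : ℂ)‖ ^ 2 / (δ * L) ^ 2) :=
          ((V_cont' κ c A T).mul (hPn.pow 2)).div_const _
        exact (h6.continuousOn.integrableOn_compact isCompact_Icc).mono_set hFsub
      · intro t ht
        rw [hF] at ht
        rw [le_div_iff₀ (by positivity)]
        refine mul_le_mul_of_nonneg_left ?_ (V_nonneg' _ _ _ _ _)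
        exact pow_le_pow_left₀ hδL.le (le_of_lt ht.2) 2
    have h6 : ∫ t in F, V κ c A T t * ‖Pc c T t - ((κ * s : ℝ) : ℂ)‖ ^ 2 / (δ * L) ^ 2 ≤
        ∫ t in Icc T (2 * T), V κ c A T t * ‖Pc c T t - ((κ * s : ℝ) : ℂ)‖ ^ 2 / (δ * L) ^ 2 := by
      refine setIntegral_mono_set ?_ ?_ (HasSubset.Subset.eventuallyLE hFsub)
      · have h6 : Continuous (fun t => V κ c A T t * ‖Pc c T t - ((κ * s : ℝ) : ℂ)‖ ^ 2 / (δ * L) ^ 2) :=
          ((V_cont' κ c A T).mul (hPn.pow 2)).div_const _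
        exact h6.continuousOn.integrableOn_compact isCompact_Icc
      · refine Filter.Eventually.of_forall fun t => ?_
        have := V_nonneg' κ c A T t
        positivity
    have h7 : ∫ t in Icc T (2 * T), V κ c A T t * ‖Pc c T t - ((κ * s : ℝ) : ℂ)‖ ^ 2 / (δ * L) ^ 2 =
        (∫ t in T..(2 * T), V κ c A T t * ‖Pc c T t - ((κ * s : ℝ) : ℂ)‖ ^ 2) / (δ * L) ^ 2 := by
      rw [intervalIntegral.integral_of_le (by linarith), ← integral_Icc_eq_integral_Ioc, integral_div]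
    rw [h7] at h6
    refine h5.trans (h6.trans ?_)
    rw [div_le_iff₀ (by positivity)]
    refine g3.trans ?_
    have h8 : C3 * L ≤ δ * (δ * L) ^ 2 := by
      have : δ * (δ * L) ^ 2 = (L * δ ^ 3) * L := by ring
      rw [this]
      exact mul_le_mul_of_nonneg_right g11 (by linarith)
    calc C3 * L * IV κ c A T ≤ δ * (δ * L) ^ 2 * IV κ c A T := mul_le_mul_of_nonneg_right h8 hIV0
      _ = _ := by ring
  refine ⟨E ∪ F, hE1.union hFm, union_subset hE2 hFsub, ?_, ?_⟩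
  · have h5 : ∫ t in E ∪ F, V κ c A T t ≤ (∫ t in E, V κ c A T t) + ∫ t in F, V κ c A T t := by
      have h6 : E ∪ F = E ∪ (F \ E) := by simp
      rw [h6, setIntegral_union disjoint_sdiff_right (hFm.diff hE1) ((hVi _ _).mono_set hE2)
        ((hVi _ _).mono_set (sdiff_subset.trans hFsub))]
      refine add_le_add le_rfl ?_
      exact setIntegral_mono_set ((hVi _ _).mono_set hFsub)
        (Filter.Eventually.of_forall fun t => V_nonneg' _ _ _ _ _)
        (HasSubset.Subset.eventuallyLE sdiff_subset)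
    calc ∫ t in E ∪ F, V κ c A T t ≤ (∫ t in E, V κ c A T t) + ∫ t in F, V κ c A T t := h5
      _ ≤ δ * IV κ c A T + δ * IV κ c A T := add_le_add hE3 hFint
      _ = 2 * δ * IV κ c A T := by ring
      _ ≤ 2 * δ * (3 / 2 * T * Dg κ c A T) := mul_le_mul_of_nonneg_left hIVD (by positivity)
      _ = _ := by ring
  · intro t ht htB
    have htE : t ∉ E := fun h => htB (Or.inl h)
    have htF : ¬ δ * L < ‖Pc c T t - ((κ * s : ℝ) : ℂ)‖ := fun h => htB (Or.inr (by rw [hF]; exact ⟨ht, h⟩))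
    push Not at htF
    have hE := hE4 t ht htE
    rw [← hL] at hE
    obtain ⟨r, hr⟩ : ∃ r : ℝ, r = (Pc c T t).re := ⟨_, rfl⟩
    rw [← hr] at hE
    have hrs : |r - κ * s| ≤ δ * L := by
      have h5 := (Complex.abs_re_le_norm (Pc c T t - ((κ * s : ℝ) : ℂ))).trans htF
      rw [Complex.sub_re, Complex.ofReal_re, ← hr] at h5
      exact h5
    have hrs' := abs_le.1 hrs
    have hs' := abs_le.1 hs
    have hL0 : 0 ≤ L := by linarith
    have hcL : c * L ≤ 1 * L := mul_le_mul_of_nonneg_right hc1.le hL0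
    have hdL : δ * L ≤ 1 * L := mul_le_mul_of_nonneg_right hδ1.le hL0
    have hsL : s ≤ L + C2 := by linarith [hs'.2]
    have hκs : κ * s ≤ κ * (L + C2) := mul_le_mul_of_nonneg_left hsL hκ.le
    have hPn2 : ‖Pc c T t‖ ≤ (κ + 2) * L := by
      have h5 : ‖Pc c T t‖ ≤ ‖Pc c T t - ((κ * s : ℝ) : ℂ)‖ + ‖((κ * s : ℝ) : ℂ)‖ := by
        have := norm_add_le (Pc c T t - ((κ * s : ℝ) : ℂ)) ((κ * s : ℝ) : ℂ)
        rwa [sub_add_cancel] at this
      have h6 : ‖((κ * s : ℝ) : ℂ)‖ = κ * s := by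
        rw [Complex.norm_real, Real.norm_eq_abs, abs_of_nonneg]
        rw [hsd]
        unfold sc
        positivity
      rw [h6] at h5
      linarith
    have hpw := g4 (Pc c T t) hPn2
    rw [← hr] at hpw
    have hQ : ‖Qk κ c A T t‖ ≤ 3 / 2 * Real.exp (κ * r) := by
      unfold Qk
      have h5 : ‖tex (KA A T) ((κ : ℂ) * Pc c T t)‖ ≤
          ‖tex (KA A T) ((κ : ℂ) * Pc c T t) - Complex.exp ((κ : ℂ) * Pc c T t)‖ + ‖Complex.exp ((κ : ℂ) * Pc c T t)‖ := by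
        have := norm_add_le (tex (KA A T) ((κ : ℂ) * Pc c T t) - Complex.exp ((κ : ℂ) * Pc c T t))
          (Complex.exp ((κ : ℂ) * Pc c T t))
        rwa [sub_add_cancel] at this
      have h6 : ‖Complex.exp ((κ : ℂ) * Pc c T t)‖ = Real.exp (κ * r) := by
        rw [Complex.norm_exp, Complex.re_ofReal_mul, ← hr]
      linarith
    have hV : V κ c A T t ≤ 9 / 4 * Real.exp (2 * (κ * r)) := by
      unfold V
      calc ‖Qk κ c A T t‖ ^ 2 ≤ (3 / 2 * Real.exp (κ * r)) ^ 2 := pow_le_pow_left₀ (norm_nonneg _) hQ 2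
        _ = 9 / 4 * Real.exp (2 * (κ * r)) := by
          rw [mul_pow, ← Real.exp_nat_mul]
          norm_num
    have hDl : Real.exp (κ ^ 2 * s) ≤ 3 / 2 * C2 * Dg κ c A T := by
      have h5 : T * Real.exp (κ ^ 2 * s) ≤ C2 * (3 / 2 * T * Dg κ c A T) :=
        hIV.trans (mul_le_mul_of_nonneg_left hIVD (by linarith))
      have h6 : T * Real.exp (κ ^ 2 * s) ≤ T * (3 / 2 * C2 * Dg κ c A T) := by linarith
      exact le_of_mul_le_mul_left h6 hT0
    have hκC : κ * C2 ≤ L * δ := g10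
    constructor
    · have h5 : Real.exp (2 * (κ * r)) ≤ Real.exp (κ ^ 2 * s) * Real.exp (κ ^ 2 * L + κ ^ 2 * C2 + 2 * κ * δ * L) := by
        rw [← Real.exp_add]
        refine Real.exp_le_exp.2 ?_
        have h6 : κ * r ≤ κ * (κ * s + δ * L) := mul_le_mul_of_nonneg_left (by linarith) hκ.le
        have h7 : κ ^ 2 * s ≤ κ ^ 2 * (L + C2) := mul_le_mul_of_nonneg_left hsL (sq_nonneg _)
        linarith
      have h8 : 27 / 8 * C2 * Real.exp (κ ^ 2 * L + κ ^ 2 * C2 + 2 * κ * δ * L) ≤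
          Real.exp ((κ ^ 2 + (2 * κ + 1) * δ) * L) := by
        have h9 : (27 / 8 * C2 : ℝ) = Real.exp (Real.log (27 / 8 * C2)) := (Real.exp_log (by positivity)).symm
        rw [h9, ← Real.exp_add]
        refine Real.exp_le_exp.2 ?_
        linarith
      calc V κ c A T t ≤ 9 / 4 * Real.exp (2 * (κ * r)) := hV
        _ ≤ 9 / 4 * (Real.exp (κ ^ 2 * s) * Real.exp (κ ^ 2 * L + κ ^ 2 * C2 + 2 * κ * δ * L)) :=
            mul_le_mul_of_nonneg_left h5 (by norm_num)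
        _ ≤ 9 / 4 * ((3 / 2 * C2 * Dg κ c A T) * Real.exp (κ ^ 2 * L + κ ^ 2 * C2 + 2 * κ * δ * L)) := by
            gcongr
        _ = Dg κ c A T * (27 / 8 * C2 * Real.exp (κ ^ 2 * L + κ ^ 2 * C2 + 2 * κ * δ * L)) := by ring
        _ ≤ _ := mul_le_mul_of_nonneg_left h8 (Dg_nonneg _ _ _ _)
    · have hlow : (κ - (κ + 3) * δ) * L ≤ Real.log ‖riemannZeta (1 / 2 + t * Complex.I)‖ := by
        have h5 := (abs_le.1 hE).1
        have h6 : c * L - C2 ≤ s := by linarith [hs'.1]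
        have h7 : (1 - δ) * L ≤ c * L := mul_le_mul_of_nonneg_right hcδ (by linarith)
        have h8 : κ * ((1 - δ) * L - C2) ≤ κ * s := mul_le_mul_of_nonneg_left (by linarith) hκ.le
        linarith [hrs'.1]
      have hpos : 0 < (κ - (κ + 3) * δ) * L := mul_pos (by linarith) (by linarith)
      have hz : 0 < ‖riemannZeta (1 / 2 + t * Complex.I)‖ := by
        rcases (norm_nonneg (riemannZeta (1 / 2 + t * Complex.I))).lt_or_eq with h | h
        · exact h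
        · rw [← h, Real.log_zero] at hlow
          linarith
      exact (Real.le_log_iff_exp_le hz).1 hlow

end

end Run7.h402.FR
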