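import Pool.Agent.W628.CG.Osc

set_option autoImplicit false

/-!
Freezing along sequences (MP_f9aece_nt), part 1: oscillatory integrals with the phase
`L1 * exp (p * α) + L2 * exp (q * α)`.
-/

namespace Run7.h402.FR

open MeasureTheory intervalIntegral Set

/-- change of the variable `s = exp (p * α)` in an oscillatory integral -/
lemma amp {p a b B : ℝ} (hp : 0 < p) (hab : a ≤ b) (Ψ : ℝ → ℝ) (hc : ContinuousOn Ψ (Ioi 0))
    (hB : ∀ s ∈ Icc (Real.exp (p * a)) (Real.exp (p * b)),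
      ‖∫ x in (Real.exp (p * a))..s, Complex.exp (Complex.I * (Ψ x : ℂ))‖ ≤ B) :
    ‖∫ α in a..b, Complex.exp (Complex.I * (Ψ (Real.exp (p * α)) : ℂ))‖ ≤
      B * Real.exp (-(p * a)) / p := by
  have cE : ContinuousOn (fun x => Complex.exp (Complex.I * (Ψ x : ℂ))) (Ioi 0) := by
    apply Complex.continuous_exp.comp_continuousOn
    exact continuousOn_const.mul (Complex.continuous_ofReal.comp_continuousOn hc)
  obtain ⟨F, hF⟩ : ∃ F : ℝ → ℂ, F = fun s => ∫ x in (Real.exp (p * a))..s, Complex.exp (Complex.I * (Ψ x : ℂ)) :=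
    ⟨_, rfl⟩
  have dF : ∀ s : ℝ, 0 < s → HasDerivAt F (Complex.exp (Complex.I * (Ψ s : ℂ))) s := by
    intro s hs
    rw [hF]
    refine intervalIntegral.integral_hasDerivAt_right ?_ ?_ ?_
    · refine ContinuousOn.intervalIntegrable (cE.mono ?_)
      intro x hx
      have : min (Real.exp (p * a)) s ≤ x := hx.1
      exact lt_of_lt_of_le (lt_min (Real.exp_pos _) hs) this
    · exact cE.stronglyMeasurableAtFilter isOpen_Ioi s hs
    · exact cE.continuousAt (Ioi_mem_nhds hs)
  have dG : ∀ α : ℝ, HasDerivAt (fun α => F (Real.exp (p * α)))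
      (((Real.exp (p * α) * p : ℝ) : ℂ) * Complex.exp (Complex.I * (Ψ (Real.exp (p * α)) : ℂ))) α := by
    intro α
    have h1 : HasDerivAt (fun α : ℝ => Real.exp (p * α)) (Real.exp (p * α) * p) α := by
      have := ((hasDerivAt_id α).const_mul p).exp
      simpa using this
    have h2 := (dF _ (Real.exp_pos (p * α))).scomp α h1
    simpa [Function.comp_def] using h2
  have dU : ∀ α : ℝ, HasDerivAt (fun α : ℝ => ((Real.exp (-(p * α)) / p : ℝ) : ℂ))
      ((-Real.exp (-(p * α)) : ℝ) : ℂ) α := by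
    intro α
    have h1 : HasDerivAt (fun α : ℝ => Real.exp (-(p * α)) / p) (-Real.exp (-(p * α))) α := by
      have h2 := (((hasDerivAt_id α).const_mul p).neg.exp).div_const p
      have h3 : Real.exp (-(p * id α)) * -(p * 1) / p = -Real.exp (-(p * α)) := by
        simp only [id]
        field_simp
      rw [← h3]
      simpa using h2
    exact h1.ofReal_comp
  have cG : Continuous (fun α : ℝ => F (Real.exp (p * α))) :=
    continuous_iff_continuousAt.2 fun α => (dG α).continuousAt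
  have cE2 : Continuous (fun α : ℝ => Complex.exp (Complex.I * (Ψ (Real.exp (p * α)) : ℂ))) := by
    have h1 : Continuous (fun α : ℝ => Ψ (Real.exp (p * α))) :=
      hc.comp_continuous (by fun_prop) fun α => Real.exp_pos _
    exact Complex.continuous_exp.comp (continuous_const.mul (Complex.continuous_ofReal.comp h1))
  have key := intervalIntegral.integral_mul_deriv_eq_deriv_mul (a := a) (b := b)
    (u := fun α : ℝ => ((Real.exp (-(p * α)) / p : ℝ) : ℂ)) (v := fun α => F (Real.exp (p * α)))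
    (fun α _ => dU α) (fun α _ => dG α)
    (Continuous.intervalIntegrable (by fun_prop) _ _) (Continuous.intervalIntegrable (by fun_prop) _ _)
  have e1 : ∀ α : ℝ, ((Real.exp (-(p * α)) / p : ℝ) : ℂ) *
      (((Real.exp (p * α) * p : ℝ) : ℂ) * Complex.exp (Complex.I * (Ψ (Real.exp (p * α)) : ℂ))) =
      Complex.exp (Complex.I * (Ψ (Real.exp (p * α)) : ℂ)) := by
    intro α
    rw [← mul_assoc, ← Complex.ofReal_mul]
    have : Real.exp (-(p * α)) / p * (Real.exp (p * α) * p) = 1 := by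
      rw [Real.exp_neg]
      have := Real.exp_pos (p * α)
      field_simp
    rw [this, Complex.ofReal_one, one_mul]
  simp only [e1] at key
  have hFa : F (Real.exp (p * a)) = 0 := by rw [hF]; simp
  have hFB : ∀ α ∈ Icc a b, ‖F (Real.exp (p * α))‖ ≤ B := by
    intro α hα
    rw [hF]
    exact hB _ ⟨Real.exp_le_exp.2 (mul_le_mul_of_nonneg_left hα.1 hp.le),
      Real.exp_le_exp.2 (mul_le_mul_of_nonneg_left hα.2 hp.le)⟩
  have hB0 : 0 ≤ B := (norm_nonneg _).trans (hFB a ⟨le_rfl, hab⟩)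
  have h2 : ‖∫ α in a..b, ((-Real.exp (-(p * α)) : ℝ) : ℂ) * F (Real.exp (p * α))‖ ≤
      ∫ α in a..b, B * Real.exp (-(p * α)) := by
    refine intervalIntegral.norm_integral_le_of_norm_le hab ?_ (Continuous.intervalIntegrable (by fun_prop) _ _)
    refine Filter.Eventually.of_forall fun α hα => ?_
    rw [norm_mul, Complex.norm_real, Real.norm_eq_abs, abs_neg, abs_of_pos (Real.exp_pos _), mul_comm]
    exact mul_le_mul_of_nonneg_right (hFB α ⟨hα.1.le, hα.2⟩) (Real.exp_pos _).le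
  have h3 : ∫ α in a..b, B * Real.exp (-(p * α)) = B * (Real.exp (-(p * a)) - Real.exp (-(p * b))) / p := by
    have h4 : ∀ α ∈ uIcc a b, HasDerivAt (fun α : ℝ => -(B * Real.exp (-(p * α)) / p)) (B * Real.exp (-(p * α))) α := by
      intro α _
      have h2 := (((((hasDerivAt_id α).const_mul p).neg.exp).const_mul B).div_const p).fun_neg
      have h3 : -(B * (Real.exp (-(p * id α)) * -(p * 1)) / p) = B * Real.exp (-(p * α)) := by
        simp only [id]
        field_simp
      rw [← h3]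
      simpa using h2
    rw [intervalIntegral.integral_eq_sub_of_hasDerivAt h4 (Continuous.intervalIntegrable (by fun_prop) _ _)]
    ring
  rw [key, hFa, mul_zero, sub_zero]
  refine (norm_sub_le _ _).trans ?_
  rw [h3] at h2
  have h5 : ‖((Real.exp (-(p * b)) / p : ℝ) : ℂ) * F (Real.exp (p * b))‖ ≤ B * Real.exp (-(p * b)) / p := by
    rw [norm_mul, Complex.norm_real, Real.norm_eq_abs, abs_of_pos (div_pos (Real.exp_pos _) hp), mul_comm, mul_div_assoc]
    exact mul_le_mul_of_nonneg_right (hFB b ⟨hab, le_rfl⟩) (div_pos (Real.exp_pos _) hp).le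
  refine (add_le_add h5 h2).trans (le_of_eq ?_)
  ring

/-- one frequency -/
lemma osc1 {p a b L : ℝ} (hp : 0 < p) (hab : a ≤ b) (hL : L ≠ 0) :
    ‖∫ α in a..b, Complex.exp (Complex.I * ((L * Real.exp (p * α) : ℝ) : ℂ))‖ ≤
      2 / |L| * Real.exp (-(p * a)) / p := by
  refine amp hp hab (fun s => L * s) (by fun_prop) fun s _ => ?_
  have h1 : ∀ x : ℝ, Complex.exp (Complex.I * ((L * x : ℝ) : ℂ)) = Complex.exp ((Complex.I * L) * x) := by
    intro x
    congr 1
    push_cast
    ring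
  have hLc : Complex.I * (L : ℂ) ≠ 0 := mul_ne_zero Complex.I_ne_zero (by exact_mod_cast hL)
  simp only [h1]
  rw [integral_exp_mul_complex hLc, norm_div, norm_mul, Complex.norm_I, one_mul, Complex.norm_real, Real.norm_eq_abs]
  have h2 : ∀ x : ℝ, ‖Complex.exp (Complex.I * L * x)‖ = 1 := by
    intro x
    rw [show Complex.I * (L : ℂ) * (x : ℂ) = ((L * x : ℝ) : ℂ) * Complex.I by push_cast; ring]
    exact Complex.norm_exp_ofReal_mul_I _
  have h3 : ‖Complex.exp (Complex.I * L * s) - Complex.exp (Complex.I * L * (Real.exp (p * a) : ℝ))‖ ≤ 2 := by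
    refine (norm_sub_le _ _).trans ?_
    rw [h2, h2]
    norm_num
  gcongr

/-- two frequencies -/
lemma osc2 {p q a b L1 L2 : ℝ} (hp : 0 < p) (hpq : p < q) (hab : a ≤ b) (hL : L2 ≠ 0)
    (h2 : Real.exp (p * b) ≤ 2 * Real.exp (p * a)) :
    ‖∫ α in a..b, Complex.exp (Complex.I * ((L1 * Real.exp (p * α) + L2 * Real.exp (q * α) : ℝ) : ℂ))‖ ≤
      16 / Real.sqrt (|L2| * (q * (q - p)) * Real.exp (q * a)) := by
  obtain ⟨ρ, hρ⟩ : ∃ ρ : ℝ, ρ = q / p := ⟨_, rfl⟩
  have hρ1 : 1 < ρ := by rw [hρ, lt_div_iff₀ hp]; linarith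
  have hρp : ρ * p = q := by rw [hρ]; field_simp
  have hL0 : 0 < |L2| := abs_pos.2 hL
  obtain ⟨κ, hκ⟩ : ∃ κ : ℝ, κ = |L2| * (ρ * (ρ - 1)) * Real.exp (q * a) * Real.exp (-(2 * (p * b))) := ⟨_, rfl⟩
  have hκ0 : 0 < κ := by
    rw [hκ]
    have : 0 < ρ * (ρ - 1) := mul_pos (by linarith) (by linarith)
    positivity
  have hexp : ∀ α : ℝ, Real.exp (q * α) = Real.exp (p * α) ^ ρ := by
    intro α
    rw [← Real.exp_mul]
    congr 1
    rw [← hρp]
    ring
  have hmain : ∀ s ∈ Icc (Real.exp (p * a)) (Real.exp (p * b)),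
      ‖∫ x in (Real.exp (p * a))..s, Complex.exp (Complex.I * ((L1 * x + L2 * x ^ ρ : ℝ) : ℂ))‖ ≤ 8 / Real.sqrt κ := by
    intro s hs
    have hpos : ∀ x ∈ Icc (Real.exp (p * a)) s, 0 < x := fun x hx => (Real.exp_pos _).trans_le hx.1
    have d1 : ∀ x ∈ Icc (Real.exp (p * a)) s, HasDerivAt (fun x : ℝ => L1 * x + L2 * x ^ ρ)
        (L1 + L2 * (ρ * x ^ (ρ - 1))) x := by
      intro x hx
      have h3 := ((hasDerivAt_id x).const_mul L1).fun_add
        ((Real.hasDerivAt_rpow_const (p := ρ) (Or.inl (hpos x hx).ne')).const_mul L2)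
      simpa using h3
    have d2 : ∀ x ∈ Icc (Real.exp (p * a)) s, HasDerivAt (fun x : ℝ => L1 + L2 * (ρ * x ^ (ρ - 1)))
        (L2 * (ρ * ((ρ - 1) * x ^ (ρ - 1 - 1)))) x := by
      intro x hx
      have h3 := (((Real.hasDerivAt_rpow_const (p := ρ - 1) (Or.inl (hpos x hx).ne')).const_mul ρ).const_mul L2).const_add L1
      simpa using h3
    have c3 : ContinuousOn (fun x : ℝ => L2 * (ρ * ((ρ - 1) * x ^ (ρ - 1 - 1)))) (Icc (Real.exp (p * a)) s) := by
      refine continuousOn_const.mul (continuousOn_const.mul (continuousOn_const.mul ?_))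
      exact ContinuousOn.rpow_const continuousOn_id fun x hx => Or.inl (hpos x hx).ne'
    have h5 : ∀ x ∈ Icc (Real.exp (p * a)) s, κ ≤ |L2| * (ρ * ((ρ - 1) * x ^ (ρ - 1 - 1))) := by
      intro x hx
      have hx0 := hpos x hx
      have h6 : x ^ (ρ - 1 - 1) = x ^ ρ / x ^ 2 := by
        rw [show ρ - 1 - 1 = ρ - 2 by ring, Real.rpow_sub hx0, Real.rpow_two]
      have h7 : Real.exp (q * a) ≤ x ^ ρ := by
        rw [hexp]
        exact Real.rpow_le_rpow (Real.exp_pos _).le hx.1 (by linarith)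
      have h8 : x ^ 2 ≤ Real.exp (2 * (p * b)) := by
        have : Real.exp (2 * (p * b)) = Real.exp (p * b) ^ 2 := by
          rw [← Real.exp_nat_mul]; norm_num
        rw [this]
        exact pow_le_pow_left₀ hx0.le (hx.2.trans hs.2) 2
      have h9 : Real.exp (q * a) * Real.exp (-(2 * (p * b))) ≤ x ^ ρ / x ^ 2 := by
        rw [Real.exp_neg, ← div_eq_mul_inv]
        exact div_le_div₀ (by positivity) h7 (by positivity) h8
      rw [hκ, h6]
      have h10 : 0 ≤ |L2| * (ρ * (ρ - 1)) := by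
        have : 0 < ρ * (ρ - 1) := mul_pos (by linarith) (by linarith)
        positivity
      calc |L2| * (ρ * (ρ - 1)) * Real.exp (q * a) * Real.exp (-(2 * (p * b)))
          = |L2| * (ρ * (ρ - 1)) * (Real.exp (q * a) * Real.exp (-(2 * (p * b)))) := by ring
        _ ≤ |L2| * (ρ * (ρ - 1)) * (x ^ ρ / x ^ 2) := mul_le_mul_of_nonneg_left h9 h10
        _ = _ := by ring
    rcases lt_or_gt_of_ne hL with hneg | hpos2
    · refine W628.CG.vdc_neg hs.1 hκ0 _ _ _ d1 d2 c3 fun x hx => ?_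
      have := h5 x hx
      rw [abs_of_neg hneg] at this
      linarith
    · refine W628.CG.vdc hs.1 hκ0 _ _ _ d1 d2 c3 fun x hx => ?_
      have := h5 x hx
      rwa [abs_of_pos hpos2] at this
  have h3 := amp hp hab (fun s => L1 * s + L2 * s ^ ρ) (by
    refine ContinuousOn.add (by fun_prop) (continuousOn_const.mul ?_)
    exact ContinuousOn.rpow_const continuousOn_id fun x hx => Or.inl (ne_of_gt hx)) hmain
  simp only [← hexp] at h3
  refine h3.trans ?_
  have hQ : 0 < |L2| * (q * (q - p)) * Real.exp (q * a) := by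
    have : 0 < q * (q - p) := mul_pos (by linarith) (by linarith)
    positivity
  have hκ2 : κ = |L2| * (q * (q - p)) * Real.exp (q * a) * (Real.exp (-(p * b)) / p) ^ 2 := by
    rw [hκ]
    have h6 : Real.exp (-(2 * (p * b))) = Real.exp (-(p * b)) ^ 2 := by
      rw [← Real.exp_nat_mul]
      congr 1
      push_cast
      ring
    rw [h6, hρ]
    field_simp
  have h7 : Real.sqrt κ = Real.sqrt (|L2| * (q * (q - p)) * Real.exp (q * a)) * (Real.exp (-(p * b)) / p) := by
    rw [hκ2, Real.sqrt_mul hQ.le, Real.sqrt_sq (div_pos (Real.exp_pos _) hp).le]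
  have hS : 0 < Real.sqrt (|L2| * (q * (q - p)) * Real.exp (q * a)) := Real.sqrt_pos.2 hQ
  rw [h7]
  obtain ⟨S, hSd⟩ : ∃ S : ℝ, S = Real.sqrt (|L2| * (q * (q - p)) * Real.exp (q * a)) := ⟨_, rfl⟩
  rw [← hSd] at hS ⊢
  rw [Real.exp_neg, Real.exp_neg]
  have ea := Real.exp_pos (p * a)
  have eb := Real.exp_pos (p * b)
  have e9 : 8 / (S * ((Real.exp (p * b))⁻¹ / p)) * (Real.exp (p * a))⁻¹ / p = 8 / S * (Real.exp (p * b) / Real.exp (p * a)) := by
    field_simp
  rw [e9]
  have e10 : Real.exp (p * b) / Real.exp (p * a) ≤ 2 := by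
    rw [div_le_iff₀ ea]
    exact h2
  calc 8 / S * (Real.exp (p * b) / Real.exp (p * a)) ≤ 8 / S * 2 :=
        mul_le_mul_of_nonneg_left e10 (by positivity)
    _ = 16 / S := by ring

end Run7.h402.FR
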