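import Pool.Agent.Run7.h402.FR.Glob

set_option autoImplicit false

/-!
Freezing along sequences (MP_f9aece_nt), part 5: the normalized weights at two points of a sequence
are almost uncorrelated.
-/

namespace Run7.h402.FR

open MeasureTheory intervalIntegral Set Filter Topology
open Pool.Agent.Y745.LD Pool.Agent.Y931.LD

noncomputable section

lemma two_pow_exp (k : ℕ) : (2 : ℝ) ^ k = Real.exp (k * Real.log 2) := by
  rw [← Real.rpow_natCast, Real.rpow_def_of_pos (by norm_num), mul_comm]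

/-- the bounds for a cell -/
lemma cell_bd {p a u v : ℝ} {k : ℕ} (hp : 0 < p) (hau : a ≤ u) (huv : u < v) (h1 : (k : ℝ) * Real.log 2 ≤ p * u)
    (h2 : p * v ≤ ((k : ℝ) + 1) * Real.log 2) :
    (2 : ℝ) ^ k ≤ Real.exp (p * u) ∧ Real.exp (p * u) ≤ 2 * 2 ^ k ∧ Real.exp (p * v) ≤ 2 * Real.exp (p * u) ∧
      Real.exp (p * a) ≤ 2 * 2 ^ k := by
  have h3 : (2 : ℝ) ^ k ≤ Real.exp (p * u) := by
    rw [two_pow_exp]
    exact Real.exp_le_exp.2 h1
  have h4 : (2 : ℝ) * 2 ^ k = Real.exp (((k : ℝ) + 1) * Real.log 2) := by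
    rw [two_pow_exp, add_mul, one_mul, Real.exp_add, Real.exp_log (by norm_num), mul_comm]
  have h5 : p * u < p * v := mul_lt_mul_of_pos_left huv hp
  have h6 : Real.exp (p * u) ≤ 2 * 2 ^ k := by
    rw [h4]
    exact Real.exp_le_exp.2 (by linarith)
  have h7 : Real.exp (p * v) ≤ 2 * 2 ^ k := by
    rw [h4]
    exact Real.exp_le_exp.2 h2
  refine ⟨h3, h6, by linarith, le_trans (Real.exp_le_exp.2 (mul_le_mul_of_nonneg_left hau hp.le)) h6⟩

lemma pow_half {x T s : ℝ} (hs : 0 < s) (hT : Real.exp x ≤ 2 * T) (hx : 2 * Real.log 2 ≤ x) :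
    T ^ (-s) ≤ Real.exp (-(s * x / 2)) := by
  have hT0 : 0 < T := by
    have := Real.exp_pos x
    linarith
  have h1 : x / 2 ≤ Real.log T := by
    have h2 : x ≤ Real.log (2 * T) := by
      rw [Real.le_log_iff_exp_le (by linarith)]
      exact hT
    rw [Real.log_mul (by norm_num) hT0.ne'] at h2
    linarith
  rw [Real.rpow_def_of_pos hT0]
  refine Real.exp_le_exp.2 ?_
  nlinarith

/-- the mean of the normalized weight -/
lemma meanU (κ c A : ℝ) (hc : 0 < c) (hc1 : c < 1) (hA : 0 ≤ A) :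
    ∀ᶠ x0 : ℝ in atTop, ∀ p a b : ℝ, 1 ≤ p → 0 < a → a ≤ b → x0 ≤ p * a →
      IntegrableOn (fun α => UU κ c A (p * α)) (Ico a b) ∧
      |(∫ α in a..b, UU κ c A (p * α)) - (b - a)| ≤ (2 * (p * b) + 1) * (2 * (p * b) + 1) * Real.exp (-(p * a / 4)) := by
  obtain ⟨T0, hT0⟩ := eventually_atTop.1 (cell1 κ c A hc hc1 hA)
  filter_upwards [eventually_ge_atTop (Real.log (2 * (|T0| + 1))), eventually_ge_atTop (2 * Real.log 2)] with
    x0 g1 g2 p a b hp ha hab hx
  have hp0 : 0 < p := by linarith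
  refine cells hp0 hp0 ha.le hab (Real.exp_pos _).le _ (fun k _ α => GG κ c A k (p * α)) ?_ ?_ ?_
  · intro k l
    exact (GG_cont κ c A k).comp (by fun_prop : Continuous fun α : ℝ => p * α)
  · intro α _
    rfl
  · intro k l u v hau huv hvb h1 h2 _ _
    obtain ⟨h3, h4, h5, h6⟩ := cell_bd hp0 hau huv h1 h2
    have hTk : T0 ≤ (2 : ℝ) ^ k := by
      have h7 : 2 * (|T0| + 1) ≤ Real.exp (p * a) := by
        rw [← Real.log_le_iff_le_exp (by positivity)]
        linarith
      have := le_abs_self T0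
      linarith
    have hT1 : (1 : ℝ) ≤ 2 ^ k := one_le_pow₀ (by norm_num)
    have hD := one_le_Dg (κ := κ) (c := c) (A := A) (Real.log_nonneg hT1)
    have hD0 : 0 < Dg κ c A (2 ^ k) := by linarith
    have key := hT0 _ hTk p u v hp0 huv.le h3
    have hVc : Continuous (fun α : ℝ => V κ c A (2 ^ k) (Real.exp (p * α))) :=
      (V_cont' κ c A (2 ^ k)).comp (by fun_prop)
    have e1 : ∫ α in u..v, (GG κ c A k (p * α) - 1) =
        ((∫ α in u..v, V κ c A (2 ^ k) (Real.exp (p * α))) - (v - u) * Dg κ c A (2 ^ k)) / Dg κ c A (2 ^ k) := by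
      unfold GG
      rw [intervalIntegral.integral_sub ((hVc.div_const _).intervalIntegrable _ _) (by simp),
        intervalIntegral.integral_div]
      rw [sub_div, mul_div_cancel_right₀ _ hD0.ne']
      simp
    rw [e1, abs_div, abs_of_pos hD0, div_le_iff₀ hD0]
    refine key.trans ?_
    rw [mul_comm]
    refine mul_le_mul_of_nonneg_right ?_ hD0.le
    have h7 : ((2 : ℝ) ^ k) ^ (-(1 / 2) : ℝ) ≤ Real.exp (-(1 / 2 * (p * a) / 2)) :=
      pow_half (by norm_num) h6 (by linarith)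
    have h8 : ((2 : ℝ) ^ k) ^ (-(1 / 2) : ℝ) / p ≤ ((2 : ℝ) ^ k) ^ (-(1 / 2) : ℝ) :=
      div_le_self (by positivity) hp
    refine h8.trans (h7.trans (le_of_eq ?_))
    congr 1
    ring

/-- the mean of the product of two normalized weights -/
lemma pairU (κ c A : ℝ) (hc : 0 < c) (hc1 : c < 1) (hA : 0 ≤ A) :
    ∀ᶠ x0 : ℝ in atTop, ∀ p q a b M : ℝ, 1 ≤ p → p < q → 0 < a → a ≤ b → x0 ≤ p * a → 1 ≤ M →
      1 ≤ M ^ 2 * (q * (q - p)) →
      IntegrableOn (fun α => UU κ c A (p * α) * UU κ c A (q * α)) (Ico a b) ∧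
      |(∫ α in a..b, UU κ c A (p * α) * UU κ c A (q * α)) - (b - a)| ≤
        (2 * (p * b) + 1) * (2 * (q * b) + 1) * (M * Real.exp (-(p * a / 16))) := by
  obtain ⟨T0, hT0⟩ := eventually_atTop.1 (cell2 κ c A hc hc1 hA)
  filter_upwards [eventually_ge_atTop (Real.log (2 * (|T0| + 1))), eventually_ge_atTop (2 * Real.log 2)] with
    x0 g1 g2 p q a b M hp hpq ha hab hx hM hM2
  have hp0 : 0 < p := by linarith
  have hq0 : 0 < q := by linarith
  have hM0 : 0 < M := by linarith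
  refine cells hp0 hq0 ha.le hab (by positivity) _ (fun k l α => GG κ c A k (p * α) * GG κ c A l (q * α)) ?_ ?_ ?_
  · intro k l
    exact ((GG_cont κ c A k).comp (by fun_prop : Continuous fun α : ℝ => p * α)).mul
      ((GG_cont κ c A l).comp (by fun_prop : Continuous fun α : ℝ => q * α))
  · intro α _
    rfl
  · intro k l u v hau huv hvb h1 h2 h1' h2'
    obtain ⟨h3, h4, h5, h6⟩ := cell_bd hp0 hau huv h1 h2
    obtain ⟨h3', h4', h5', h6'⟩ := cell_bd hq0 hau huv h1' h2'
    have hTk : T0 ≤ (2 : ℝ) ^ k := by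
      have h7 : 2 * (|T0| + 1) ≤ Real.exp (p * a) := by
        rw [← Real.log_le_iff_le_exp (by positivity)]
        linarith
      have := le_abs_self T0
      linarith
    have hT1 : (1 : ℝ) ≤ 2 ^ k := one_le_pow₀ (by norm_num)
    have hT2 : (1 : ℝ) ≤ 2 ^ l := one_le_pow₀ (by norm_num)
    have hD := one_le_Dg (κ := κ) (c := c) (A := A) (Real.log_nonneg hT1)
    have hD0 : 0 < Dg κ c A (2 ^ k) := by linarith
    have hD' := one_le_Dg (κ := κ) (c := c) (A := A) (Real.log_nonneg hT2)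
    have hD0' : 0 < Dg κ c A (2 ^ l) := by linarith
    have hu0 : 0 < u := by linarith
    have hTT : (2 : ℝ) ^ k ≤ 2 * 2 ^ l := by
      refine h3.trans (le_trans (Real.exp_le_exp.2 ?_) h4')
      exact mul_le_mul_of_nonneg_right hpq.le hu0.le
    have key := hT0 _ hTk (2 ^ l) p q u v M hTT hp0 hpq huv.le h3 h5 h3' hM0
      (by
        have : 1 / p ≤ 1 := by
          rw [div_le_one hp0]
          exact hp
        linarith) hM2
    have hVc : Continuous (fun α : ℝ => V κ c A (2 ^ k) (Real.exp (p * α))) :=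
      (V_cont' κ c A (2 ^ k)).comp (by fun_prop)
    have hVc' : Continuous (fun α : ℝ => V κ c A (2 ^ l) (Real.exp (q * α))) :=
      (V_cont' κ c A (2 ^ l)).comp (by fun_prop)
    have hDD : 0 < Dg κ c A (2 ^ k) * Dg κ c A (2 ^ l) := mul_pos hD0 hD0'
    have e1 : ∫ α in u..v, (GG κ c A k (p * α) * GG κ c A l (q * α) - 1) =
        ((∫ α in u..v, V κ c A (2 ^ k) (Real.exp (p * α)) * V κ c A (2 ^ l) (Real.exp (q * α))) -
          (v - u) * Dg κ c A (2 ^ k) * Dg κ c A (2 ^ l)) / (Dg κ c A (2 ^ k) * Dg κ c A (2 ^ l)) := by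
      unfold GG
      have e2 : ∀ α : ℝ, V κ c A (2 ^ k) (Real.exp (p * α)) / Dg κ c A (2 ^ k) *
          (V κ c A (2 ^ l) (Real.exp (q * α)) / Dg κ c A (2 ^ l)) - 1 =
          V κ c A (2 ^ k) (Real.exp (p * α)) * V κ c A (2 ^ l) (Real.exp (q * α)) /
            (Dg κ c A (2 ^ k) * Dg κ c A (2 ^ l)) - 1 := by
        intro α
        rw [div_mul_div_comm]
      simp only [e2]
      have hVV : Continuous (fun α : ℝ => V κ c A (2 ^ k) (Real.exp (p * α)) * V κ c A (2 ^ l) (Real.exp (q * α)) /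
          (Dg κ c A (2 ^ k) * Dg κ c A (2 ^ l))) := (hVc.mul hVc').div_const _
      rw [intervalIntegral.integral_sub (hVV.intervalIntegrable _ _) (by simp),
        intervalIntegral.integral_div]
      rw [sub_div, mul_assoc (v - u), mul_div_cancel_right₀ _ hDD.ne']
      simp
    rw [e1, abs_div, abs_of_pos hDD, div_le_iff₀ hDD]
    refine key.trans ?_
    rw [mul_comm]
    refine mul_le_mul_of_nonneg_right ?_ hDD.le
    have h7 : ((2 : ℝ) ^ k) ^ (-(1 / 8) : ℝ) ≤ Real.exp (-(1 / 8 * (p * a) / 2)) :=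
      pow_half (by norm_num) h6 (by linarith)
    refine mul_le_mul_of_nonneg_left (h7.trans (le_of_eq ?_)) hM0.le
    congr 1
    ring

end

end Run7.h402.FR
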