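import Pool.Agent.Run7.h402.FR.Det

set_option autoImplicit false

/-!
Freezing along sequences (MP_f9aece_nt), part 14: convergence in measure and almost everywhere.
-/

namespace Run7.h402.FR

open MeasureTheory Set Filter Topology
open Pool.Agent.Y745.LD Pool.Agent.Y931.LD Pool.Agent.Y745.SW Pool.Agent.Y745.UP
open scoped ENNReal

noncomputable section

lemma toTend {A : ℕ → Set ℝ} {a b : ℝ} (h : ∀ ν : ℝ, 0 < ν → ∀ᶠ N : ℕ in atTop, volume.real (Ico a b ∩ A N) ≤ ν) :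
    Tendsto (fun N => volume (Ico a b ∩ A N)) atTop (𝓝 0) := by
  rw [ENNReal.tendsto_nhds_zero]
  intro ε hε
  by_cases hε' : ε = ⊤
  · exact Eventually.of_forall fun N => by rw [hε']; exact le_top
  filter_upwards [h ε.toReal (ENNReal.toReal_pos hε.ne' hε')] with N hN
  have h1 : volume (Ico a b ∩ A N) ≠ ⊤ := by
    refine ne_top_of_le_ne_top ?_ (measure_mono inter_subset_left)
    rw [Real.volume_Ico]
    exact ENNReal.ofReal_ne_top
  rw [Measure.real] at hN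
  exact (ENNReal.toReal_le_toReal h1 hε').1 hN

lemma freq_ae {A : ℕ → Set ℝ} {a b : ℝ} (h : ∀ ν : ℝ, 0 < ν → ∀ᶠ N : ℕ in atTop, volume.real (Ico a b ∩ A N) ≤ ν) :
    ∀ᵐ α : ℝ, α ∈ Ico a b → ∃ᶠ N in atTop, α ∉ A N := by
  have h1 := toTend h
  have h2 : ∀ m : ℕ, volume (⋂ N ≥ m, (Ico a b ∩ A N)) = 0 := by
    intro m
    have h3 : ∀ N ≥ m, volume (⋂ N ≥ m, (Ico a b ∩ A N)) ≤ volume (Ico a b ∩ A N) := fun N hN =>
      measure_mono (iInter₂_subset N hN)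
    refine le_antisymm (ge_of_tendsto h1 ?_) zero_le
    filter_upwards [eventually_ge_atTop m] with N hN
    exact h3 N hN
  have h3 : volume (⋃ m : ℕ, ⋂ N ≥ m, (Ico a b ∩ A N)) = 0 := measure_iUnion_null h2
  rw [ae_iff]
  refine measure_mono_null ?_ h3
  intro α hα
  simp only [mem_ofPred_eq, Classical.not_imp, not_frequently, not_not, eventually_atTop] at hα
  obtain ⟨h4, m, hm⟩ := hα
  rw [mem_iUnion]
  refine ⟨m, ?_⟩
  rw [mem_iInter₂]
  exact fun N hN => ⟨h4, hm N hN⟩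

lemma markov {f : ℝ → ℝ} {a b c E : ℝ} (hf : Continuous f) (hc : 0 < c) (hE : 0 ≤ E)
    (h : ∫⁻ α in Ico a b, ENNReal.ofReal (f α) ≤ ENNReal.ofReal E) :
    volume (Ico a b ∩ {α | c < f α}) ≤ ENNReal.ofReal (E / c) := by
  have h1 := mul_meas_ge_le_lintegral (μ := volume.restrict (Ico a b)) hf.measurable.ennreal_ofReal (ENNReal.ofReal c)
  have h2 : volume (Ico a b ∩ {α | c < f α}) ≤ (volume.restrict (Ico a b)) {α | ENNReal.ofReal c ≤ ENNReal.ofReal (f α)} := by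
    rw [Measure.restrict_apply' measurableSet_Ico, inter_comm]
    refine measure_mono (inter_subset_inter_left _ ?_)
    intro α hα
    exact ENNReal.ofReal_le_ofReal (le_of_lt hα)
  have hc' : ENNReal.ofReal c ≠ 0 := by
    rw [Ne, ENNReal.ofReal_eq_zero, not_le]
    exact hc
  have h3 : ENNReal.ofReal c * volume (Ico a b ∩ {α | c < f α}) ≤ ENNReal.ofReal c * ENNReal.ofReal (E / c) := by
    rw [← ENNReal.ofReal_mul hc.le, mul_div_cancel₀ _ hc.ne']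
    exact (mul_le_mul_right h2 _).trans (h1.trans h)
  exact (ENNReal.mul_le_mul_iff_right hc' ENNReal.ofReal_ne_top).1 h3

/-- the upper bound in measure -/
lemma up_meas (hSTRIP : P_STRIP) (γ a b β ε : ℝ) (u : ℕ → ℝ) (hu : Adm γ u) (hγ : 0 < γ) (ha : 0 < a) (hab : a < b)
    (hβ : 0 < β) (hβ4 : β ≤ 4) (hε : 0 < ε) :
    Tendsto (fun N : ℕ => volume (Ico a b ∩ {α | (N : ℝ) ^ (1 + γ * β ^ 2 / 4 + ε) < SS' u β α N})) atTop (𝓝 0) := by
  obtain ⟨D, hD, h⟩ := upper_mean hSTRIP γ a b β (ε / 2) u hu hγ ha hab hβ hβ4 (by linarith)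
  have h1 : ∀ᶠ N : ℕ in atTop, volume (Ico a b ∩ {α | (N : ℝ) ^ (1 + γ * β ^ 2 / 4 + ε) < SS' u β α N}) ≤
      ENNReal.ofReal (D * (N : ℝ) ^ (-(ε / 2))) := by
    filter_upwards [eventually_ge_atTop 1] with N hN
    have hN0 : (0 : ℝ) < N := by exact_mod_cast hN
    refine (markov (SS'_cont u β hβ N) (by positivity) (by positivity) (h N hN)).trans (ENNReal.ofReal_le_ofReal ?_)
    rw [div_le_iff₀ (by positivity)]
    refine le_of_eq ?_
    rw [mul_assoc, ← Real.rpow_add hN0]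
    congr 2
    ring
  have h2 : Tendsto (fun N : ℕ => ENNReal.ofReal (D * (N : ℝ) ^ (-(ε / 2)))) atTop (𝓝 0) := by
    have h3 : Tendsto (fun N : ℕ => D * (N : ℝ) ^ (-(ε / 2))) atTop (𝓝 (D * 0)) :=
      ((tendsto_rpow_neg_atTop (by positivity)).comp tendsto_natCast_atTop_atTop).const_mul D
    rw [mul_zero] at h3
    have h4 := ENNReal.tendsto_ofReal h3
    rwa [ENNReal.ofReal_zero] at h4
  exact tendsto_of_tendsto_of_tendsto_of_le_of_le' tendsto_const_nhds h2 (Eventually.of_forall fun _ => zero_le) h1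

/-- the upper bound almost everywhere -/
lemma up_ae (hSTRIP : P_STRIP) (γ a b β ε : ℝ) (u : ℕ → ℝ) (hu : Adm γ u) (hγ : 0 < γ) (ha : 0 < a) (hab : a < b)
    (hβ : 0 < β) (hβ4 : β ≤ 4) (hε : 0 < ε) :
    ∀ᵐ α : ℝ, α ∈ Ico a b → ∀ᶠ N : ℕ in atTop, SS' u β α N ≤ (N : ℝ) ^ (1 + γ * β ^ 2 / 4 + ε) := by
  obtain ⟨D, hD, h⟩ := upper_mean hSTRIP γ a b β (ε / 4) u hu hγ ha hab hβ hβ4 (by linarith)
  obtain ⟨e, he⟩ : ∃ e : ℝ, e = 1 + γ * β ^ 2 / 4 + ε / 2 := ⟨_, rfl⟩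
  have he0 : 0 < e := by rw [he]; positivity
  obtain ⟨r, hr⟩ : ∃ r : ℝ, r = (2 : ℝ) ^ (-(ε / 4)) := ⟨_, rfl⟩
  have hr0 : 0 < r := by rw [hr]; positivity
  have hr1 : r < 1 := by rw [hr]; exact Real.rpow_lt_one_of_one_lt_of_neg (by norm_num) (by linarith)
  have hpow : ∀ (j : ℕ) (x : ℝ), ((2 ^ j : ℕ) : ℝ) ^ x = ((2 : ℝ) ^ x) ^ j := by
    intro j x
    push_cast
    rw [← Real.rpow_natCast (2 : ℝ) j, ← Real.rpow_mul (by norm_num), ← Real.rpow_natCast ((2 : ℝ) ^ x) j,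
      ← Real.rpow_mul (by norm_num)]
    congr 1
    ring
  have hs : ∀ j : ℕ, volume (Ico a b ∩ {α | ((2 ^ j : ℕ) : ℝ) ^ e < SS' u β α (2 ^ j)}) ≤ ENNReal.ofReal (D * r ^ j) := by
    intro j
    have hj : 1 ≤ 2 ^ j := Nat.one_le_two_pow
    have hj0 : (0 : ℝ) < ((2 ^ j : ℕ) : ℝ) := by positivity
    refine (markov (SS'_cont u β hβ (2 ^ j)) (by positivity) (by positivity) (h (2 ^ j) hj)).trans
      (ENNReal.ofReal_le_ofReal ?_)
    rw [div_le_iff₀ (by positivity), hr, ← hpow]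
    refine le_of_eq ?_
    rw [mul_assoc, ← Real.rpow_add hj0, he]
    congr 2
    ring
  have hsum : ∑' j : ℕ, volume (Ico a b ∩ {α | ((2 ^ j : ℕ) : ℝ) ^ e < SS' u β α (2 ^ j)}) ≠ ⊤ := by
    have h1 : Summable (fun j : ℕ => D * r ^ j) := (summable_geometric_of_lt_one hr0.le hr1).mul_left D
    exact ne_top_of_le_ne_top h1.tsum_ofReal_ne_top (ENNReal.tsum_le_tsum hs)
  have hBC := ae_eventually_notMem hsum
  filter_upwards [hBC] with α hα hαI
  obtain ⟨j0, hj0⟩ := eventually_atTop.1 hα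
  have h1 := npow_tendsto (show 0 < ε / 2 by linarith)
  filter_upwards [eventually_ge_atTop (2 ^ j0), eventually_ge_atTop 1, h1.eventually_ge_atTop ((2 : ℝ) ^ e)] with N h2 h3 h4
  have hN0 : (0 : ℝ) < N := by exact_mod_cast h3
  obtain ⟨j, hj⟩ : ∃ j : ℕ, j = Nat.log 2 N := ⟨_, rfl⟩
  have h5 : 2 ^ j ≤ N := by rw [hj]; exact Nat.pow_log_le_self 2 (by omega)
  have h6 : N < 2 ^ (j + 1) := by rw [hj]; exact Nat.lt_pow_succ_log_self (by norm_num) N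
  have h7 : j0 ≤ j := by
    rw [hj]
    exact Nat.le_log_of_pow_le (by norm_num) h2
  have h8 := hj0 (j + 1) (by omega)
  have h9 : SS' u β α (2 ^ (j + 1)) ≤ ((2 ^ (j + 1) : ℕ) : ℝ) ^ e := by
    by_contra hcon
    push Not at hcon
    exact h8 ⟨hαI, hcon⟩
  have h10 : ((2 ^ (j + 1) : ℕ) : ℝ) ≤ 2 * N := by
    have : 2 ^ (j + 1) ≤ 2 * N := by rw [pow_succ]; omega
    exact_mod_cast this
  calc SS' u β α N ≤ SS' u β α (2 ^ (j + 1)) := SS'_mono u β α h6.le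
    _ ≤ ((2 ^ (j + 1) : ℕ) : ℝ) ^ e := h9
    _ ≤ (2 * (N : ℝ)) ^ e := Real.rpow_le_rpow (Nat.cast_nonneg _) h10 he0.le
    _ = 2 ^ e * (N : ℝ) ^ e := Real.mul_rpow (by norm_num) hN0.le
    _ ≤ (N : ℝ) ^ (ε / 2) * (N : ℝ) ^ e := mul_le_mul_of_nonneg_right h4 (by positivity)
    _ = (N : ℝ) ^ (1 + γ * β ^ 2 / 4 + ε) := by
        rw [← Real.rpow_add hN0, he]
        congr 1
        ring

/-- from bounded intervals to all positive numbers -/
lemma ae_pos {P : ℝ → Prop} (h : ∀ a b : ℝ, 0 < a → a < b → ∀ᵐ α : ℝ, α ∈ Ico a b → P α) :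
    ∀ᵐ α : ℝ, 0 < α → P α := by
  have h1 : ∀ᵐ α : ℝ, ∀ k : ℕ, α ∈ Ico (1 / ((k : ℝ) + 1)) ((k : ℝ) + 2) → P α := by
    rw [ae_all_iff]
    intro k
    refine h _ _ (by positivity) ?_
    rw [div_lt_iff₀ (by positivity)]
    have : (0 : ℝ) ≤ k := Nat.cast_nonneg k
    nlinarith
  filter_upwards [h1] with α hα h0
  obtain ⟨k, hk⟩ := exists_nat_ge (1 / α + α)
  refine hα k ⟨?_, ?_⟩
  · have h2 : 0 < 1 / α := by positivity
    rw [div_le_iff₀ (by positivity)]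
    have h3 : α * (1 / α) = 1 := by field_simp
    nlinarith
  · have h2 : 0 < 1 / α := by positivity
    linarith

end

end Run7.h402.FR
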