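import Pool.Agent.Run7.h402.FR.Lev
import Pool.Agent.Y745.UP.Defs

set_option autoImplicit false

/-!
Freezing along sequences (MP_f9aece_nt), part 12: the mean over `α` of the power sums.
-/

namespace Run7.h402.FR

open MeasureTheory Set Filter Topology
open Pool.Agent.Y745.LD Pool.Agent.Y931.LD Pool.Agent.Y745.SW Pool.Agent.Y745.UP
open scoped ENNReal

noncomputable section

lemma zeta_line_cont : Continuous (fun t : ℝ => riemannZeta (1 / 2 + (t : ℂ) * Complex.I)) := by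
  rw [continuous_iff_continuousAt]
  intro t
  have h1 : (1 / 2 + (t : ℂ) * Complex.I) ≠ 1 := by
    intro h
    have := congrArg Complex.re h
    simp at this
  have h2 : ContinuousAt (fun t : ℝ => (1 / 2 + (t : ℂ) * Complex.I)) t := by fun_prop
  exact ContinuousAt.comp (f := fun t : ℝ => (1 / 2 + (t : ℂ) * Complex.I))
    (differentiableAt_riemannZeta h1).continuousAt h2

lemma ztv_cont (u : ℕ → ℝ) (n : ℕ) : Continuous (fun α => ztv u α n) := by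
  unfold ztv
  exact (zeta_line_cont.comp (by fun_prop : Continuous fun α : ℝ => Real.exp (α * u n))).norm

lemma ztv_nonneg (u : ℕ → ℝ) (α : ℝ) (n : ℕ) : 0 ≤ ztv u α n := norm_nonneg _

/-- the moments over a cell -/
lemma cell_moment (hSTRIP : P_STRIP) (β : ℝ) (hβ : 0 < β) (hβ4 : β ≤ 4) : ∃ C x0 : ℝ, 0 < C ∧ 1 ≤ x0 ∧
    ∀ k : ℕ, x0 ≤ ((k : ℝ) + 1) * Real.log 2 →
      ∫⁻ x in Cl k, ENNReal.ofReal (‖riemannZeta (1 / 2 + ((Real.exp x : ℝ) : ℂ) * Complex.I)‖ ^ β) ≤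
        ENNReal.ofReal (C * ((k : ℝ) * Real.log 2) ^ (β ^ 2 / 4)) := by
  obtain ⟨C, hC, h⟩ := hSTRIP (β / 2) 1 (by positivity) (by linarith) one_pos
  obtain ⟨T0, hT0⟩ := eventually_atTop.1 h
  refine ⟨C, Real.log (2 * (|T0| + 1)) + 1 + 2 * Real.log 2, by linarith, ?_, fun k hk => ?_⟩
  · have h1 : 0 ≤ Real.log (2 * (|T0| + 1)) := Real.log_nonneg (by have := abs_nonneg T0; linarith)
    have := log2_pos
    linarith
  have h1 : 0 ≤ Real.log (2 * (|T0| + 1)) := Real.log_nonneg (by have := abs_nonneg T0; linarith)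
  have hl2 := log2_pos
  have hTk : T0 ≤ (2 : ℝ) ^ k := by
    have h7 : 2 * (|T0| + 1) ≤ 2 * 2 ^ k := by
      have h4 : (2 : ℝ) * 2 ^ k = Real.exp (((k : ℝ) + 1) * Real.log 2) := by
        rw [two_pow_exp, add_mul, one_mul, Real.exp_add, Real.exp_log (by norm_num), mul_comm]
      rw [h4, ← Real.log_le_iff_le_exp (by positivity)]
      linarith
    have := le_abs_self T0
    linarith
  obtain ⟨T, hT⟩ : ∃ T : ℝ, T = (2 : ℝ) ^ k := ⟨_, rfl⟩
  have hT0p : 0 < T := by rw [hT]; positivity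
  have hlogT : Real.log T = (k : ℝ) * Real.log 2 := by rw [hT, Real.log_pow]
  have hlT : 0 ≤ Real.log T := by rw [hlogT]; positivity
  have h2 := hT0 T (by rw [hT]; exact hTk) 0 (by rw [abs_zero]; positivity)
  have h3 := lint_exp k (fun t => ENNReal.ofReal (‖riemannZeta (1 / 2 + (t : ℂ) * Complex.I)‖ ^ β))
  have hcont : Continuous (fun t : ℝ => ‖riemannZeta (1 / 2 + (t : ℂ) * Complex.I)‖ ^ β) :=
    zeta_line_cont.norm.rpow_const fun t => Or.inr hβ.le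
  have h4 : ∫⁻ t in Icc (2 ^ k : ℝ) (2 * 2 ^ k), ENNReal.ofReal (‖riemannZeta (1 / 2 + (t : ℂ) * Complex.I)‖ ^ β) ≤
      ENNReal.ofReal (2 ^ k) * ENNReal.ofReal (C * ((k : ℝ) * Real.log 2) ^ (β ^ 2 / 4)) := by
    rw [← ENNReal.ofReal_mul (by positivity), ← hT]
    have h5 : Icc T (2 * T) ⊆ Ioc (T / 2) (3 * T) := fun t ht => ⟨by linarith [ht.1], by linarith [ht.2]⟩
    refine (lintegral_mono_set h5).trans ?_
    rw [← ofReal_integral_eq_lintegral_ofReal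
      ((hcont.continuousOn.integrableOn_compact (isCompact_Icc (a := T / 2) (b := 3 * T))).mono_set Ioc_subset_Icc_self)
      (Filter.Eventually.of_forall fun t => by positivity)]
    refine ENNReal.ofReal_le_ofReal ?_
    rw [← intervalIntegral.integral_of_le (by linarith)]
    have e1 : ∀ t : ℝ, ‖riemannZeta (((1 / 2 + (0 : ℝ) : ℝ) : ℂ) + t * Complex.I)‖ ^ (2 * (β / 2)) =
        ‖riemannZeta (1 / 2 + (t : ℂ) * Complex.I)‖ ^ β := by
      intro t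
      have : (((1 / 2 + (0 : ℝ) : ℝ) : ℂ)) = 1 / 2 := by push_cast; ring
      rw [this, mul_div_cancel₀ _ (two_ne_zero)]
    simp only [e1] at h2
    rw [hlogT] at h2
    have e2 : (β / 2) ^ 2 = β ^ 2 / 4 := by ring
    rw [e2] at h2
    linarith
  have h5 : ENNReal.ofReal ((2 : ℝ) ^ k) ≠ 0 := by
    rw [Ne, ENNReal.ofReal_eq_zero, not_le]
    positivity
  exact (ENNReal.mul_le_mul_iff_right h5 ENNReal.ofReal_ne_top).1 (h3.trans h4)

/-- the mean of one term -/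
lemma term_mean (hSTRIP : P_STRIP) (γ a b β ε : ℝ) (u : ℕ → ℝ) (hu : Adm γ u) (hγ : 0 < γ) (ha : 0 < a) (hab : a < b)
    (hβ : 0 < β) (hβ4 : β ≤ 4) (hε : 0 < ε) : ∃ D : ℝ, 0 < D ∧ ∀ᶠ n : ℕ in atTop,
      ∫⁻ α in Ico a b, ENNReal.ofReal (ztv u α n ^ β) ≤ ENNReal.ofReal (D * (n : ℝ) ^ (γ * β ^ 2 / 4 + ε)) := by
  obtain ⟨C, x0, hC, hx0, h⟩ := cell_moment hSTRIP β hβ hβ4
  have hb : 0 < b := by linarith
  obtain ⟨s, hs⟩ : ∃ s : ℝ, s = β ^ 2 / 4 := ⟨_, rfl⟩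
  have hs0 : 0 < s := by rw [hs]; positivity
  rw [← hs] at h
  refine ⟨(2 * (b - a) + 2) * (C * b ^ s), ?_, ?_⟩
  · have : 0 < b - a := by linarith
    positivity
  have hT := adm_tendsto hγ hu
  filter_upwards [hT.eventually_ge_atTop 1, hT.eventually_ge_atTop (x0 / a), adm_growth hu (ε / s) (by positivity),
    eventually_ge_atTop 1] with n h1 h2 h3 h4
  rw [div_le_iff₀ ha] at h2
  obtain ⟨h00, -, h01⟩ := h3
  have hn1 : (1 : ℝ) ≤ n := by exact_mod_cast h4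
  have h5 := lint_seq (x0 := x0) (M := C * (u n * b) ^ s) h1 ha hab.le (by positivity) h2
    (fun x => ENNReal.ofReal (‖riemannZeta (1 / 2 + ((Real.exp x : ℝ) : ℂ) * Complex.I)‖ ^ β)) (by
      intro k hk hk'
      refine (h k hk).trans (ENNReal.ofReal_le_ofReal ?_)
      refine mul_le_mul_of_nonneg_left ?_ hC.le
      exact Real.rpow_le_rpow (mul_nonneg (Nat.cast_nonneg _) log2_pos.le) hk' hs0.le)
  have e1 : ∫⁻ α in Ico a b, ENNReal.ofReal (ztv u α n ^ β) = ∫⁻ α in Ico a b,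
      ENNReal.ofReal (‖riemannZeta (1 / 2 + ((Real.exp (u n * α) : ℝ) : ℂ) * Complex.I)‖ ^ β) := by
    refine lintegral_congr fun α => ?_
    unfold ztv
    rw [mul_comm α]
  rw [e1]
  refine h5.trans (ENNReal.ofReal_le_ofReal ?_)
  have hba : 0 < b - a := by linarith
  have h6 : (u n * b) ^ s ≤ b ^ s * (n : ℝ) ^ (γ * β ^ 2 / 4 + ε) := by
    rw [Real.mul_rpow h00.le hb.le, mul_comm]
    refine mul_le_mul_of_nonneg_left ?_ (by positivity)
    calc (u n) ^ s ≤ ((n : ℝ) ^ (γ + ε / s)) ^ s := Real.rpow_le_rpow h00.le h01 hs0.le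
      _ = (n : ℝ) ^ (γ * β ^ 2 / 4 + ε) := by
        rw [← Real.rpow_mul (by linarith)]
        congr 1
        have e3 : (γ + ε / s) * s = γ * s + ε := by field_simp
        rw [e3, hs]
        ring
  calc (2 * (b - a) + 2) * (C * (u n * b) ^ s) ≤ (2 * (b - a) + 2) * (C * (b ^ s * (n : ℝ) ^ (γ * β ^ 2 / 4 + ε))) := by
        gcongr
    _ = _ := by ring

/-- the power sums -/
def SS' (u : ℕ → ℝ) (β α : ℝ) (N : ℕ) : ℝ := ∑ n ∈ Finset.Icc 1 N, ztv u α n ^ β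

lemma SS'_nonneg (u : ℕ → ℝ) (β α : ℝ) (N : ℕ) : 0 ≤ SS' u β α N :=
  Finset.sum_nonneg fun n _ => Real.rpow_nonneg (ztv_nonneg _ _ _) _

lemma SS'_cont (u : ℕ → ℝ) (β : ℝ) (hβ : 0 < β) (N : ℕ) : Continuous (fun α => SS' u β α N) := by
  unfold SS'
  exact continuous_finsetSum _ fun n _ => (ztv_cont u n).rpow_const fun α => Or.inr hβ.le

lemma SS'_mono (u : ℕ → ℝ) (β α : ℝ) {M N : ℕ} (h : M ≤ N) : SS' u β α M ≤ SS' u β α N :=
  Finset.sum_le_sum_of_subset_of_nonneg (Finset.Icc_subset_Icc le_rfl h) fun n _ _ =>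
    Real.rpow_nonneg (ztv_nonneg _ _ _) _

/-- the mean of the power sums -/
theorem upper_mean (hSTRIP : P_STRIP) (γ a b β ε : ℝ) (u : ℕ → ℝ) (hu : Adm γ u) (hγ : 0 < γ) (ha : 0 < a) (hab : a < b)
    (hβ : 0 < β) (hβ4 : β ≤ 4) (hε : 0 < ε) : ∃ D : ℝ, 0 < D ∧ ∀ N : ℕ, 1 ≤ N →
      ∫⁻ α in Ico a b, ENNReal.ofReal (SS' u β α N) ≤ ENNReal.ofReal (D * (N : ℝ) ^ (1 + γ * β ^ 2 / 4 + ε)) := by
  obtain ⟨D, hD, h⟩ := term_mean hSTRIP γ a b β ε u hu hγ ha hab hβ hβ4 hε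
  obtain ⟨n0, hn0⟩ := eventually_atTop.1 h
  have hfin : ∀ n : ℕ, ∃ E : ℝ, 0 ≤ E ∧ ∫⁻ α in Ico a b, ENNReal.ofReal (ztv u α n ^ β) ≤ ENNReal.ofReal E := by
    intro n
    have hc : Continuous (fun α => ztv u α n ^ β) := (ztv_cont u n).rpow_const fun α => Or.inr hβ.le
    refine ⟨∫ α in Ico a b, ztv u α n ^ β, integral_nonneg fun α => Real.rpow_nonneg (ztv_nonneg _ _ _) _, ?_⟩
    rw [ofReal_integral_eq_lintegral_ofReal
      ((hc.continuousOn.integrableOn_compact (isCompact_Icc (a := a) (b := b))).mono_set Ico_subset_Icc_self)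
      (Filter.Eventually.of_forall fun α => Real.rpow_nonneg (ztv_nonneg _ _ _) _)]
  choose E hE0 hE using hfin
  obtain ⟨D0, hD0⟩ : ∃ D0 : ℝ, D0 = ∑ n ∈ Finset.range n0, E n := ⟨_, rfl⟩
  have hD00 : 0 ≤ D0 := by rw [hD0]; exact Finset.sum_nonneg fun n _ => hE0 n
  refine ⟨D0 + D, by linarith, fun N hN => ?_⟩
  have hN1 : (1 : ℝ) ≤ N := by exact_mod_cast hN
  have hN0 : (0 : ℝ) < N := by linarith
  obtain ⟨s, hs⟩ : ∃ s : ℝ, s = γ * β ^ 2 / 4 + ε := ⟨_, rfl⟩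
  have hs0 : 0 ≤ s := by rw [hs]; positivity
  have hterm : ∀ n ∈ Finset.Icc 1 N, ∫⁻ α in Ico a b, ENNReal.ofReal (ztv u α n ^ β) ≤
      ENNReal.ofReal ((D0 + D) * (N : ℝ) ^ s) := by
    intro n hn
    rw [Finset.mem_Icc] at hn
    have hNs : 1 ≤ (N : ℝ) ^ s := Real.one_le_rpow hN1 hs0
    by_cases hn' : n0 ≤ n
    · refine (hn0 n hn').trans (ENNReal.ofReal_le_ofReal ?_)
      have h1 : (n : ℝ) ^ s ≤ (N : ℝ) ^ s := Real.rpow_le_rpow (Nat.cast_nonneg _) (by exact_mod_cast hn.2) hs0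
      rw [← hs]
      nlinarith
    · refine (hE n).trans (ENNReal.ofReal_le_ofReal ?_)
      have h1 : E n ≤ D0 := by
        rw [hD0]
        exact Finset.single_le_sum (f := E) (fun i _ => hE0 i) (Finset.mem_range.2 (by omega))
      nlinarith
  have e1 : ∀ α : ℝ, ENNReal.ofReal (SS' u β α N) = ∑ n ∈ Finset.Icc 1 N, ENNReal.ofReal (ztv u α n ^ β) := by
    intro α
    unfold SS'
    rw [ENNReal.ofReal_sum_of_nonneg fun n _ => Real.rpow_nonneg (ztv_nonneg _ _ _) _]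
  simp only [e1]
  rw [lintegral_finsetSum]
  swap
  · intro n _
    have hc : Continuous (fun α => ztv u α n ^ β) := (ztv_cont u n).rpow_const fun α => Or.inr hβ.le
    exact hc.measurable.ennreal_ofReal
  refine (Finset.sum_le_sum hterm).trans ?_
  rw [Finset.sum_const, Nat.card_Icc, nsmul_eq_mul, ← ENNReal.ofReal_natCast, ← ENNReal.ofReal_mul (Nat.cast_nonneg _)]
  refine ENNReal.ofReal_le_ofReal ?_
  have e2 : (N : ℝ) ^ (1 + γ * β ^ 2 / 4 + ε) = N * (N : ℝ) ^ s := by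
    rw [hs, add_assoc, Real.rpow_add hN0, Real.rpow_one]
  rw [e2]
  have e3 : ((N + 1 - 1 : ℕ) : ℝ) = N := by norm_num
  rw [e3]
  exact le_of_eq (by ring)

end

end Run7.h402.FR
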